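import Pool.Agent.H37.DG.Layk

/-!
# Deg2 (T3, MP_b39724): `Deg2Stmt` from `Com0Stmt`
-/

set_option autoImplicit false

open scoped NumberField
open NumberField Finset H88.A4 Pool.Agent.H67.WA H88.WS

noncomputable section

namespace H37.DG

/-- the powers of `2 + t` -/
private theorem pbd {C1 t δ : ℝ} (hC1 : 1 ≤ C1) (ht : 0 < t) {d : ℕ} (_hδ : 0 < δ)
    (h1 : δ * (5 * (d : ℝ) + 3) ≤ 1 / 4) :
    ((2 + t) ^ (2 * δ)) ^ d * ((C1 * (2 + t) ^ 3) ^ d) ^ δ * (C1 * (2 + t) ^ 3) ^ δ ≤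
      C1 ^ (δ * ((d : ℝ) + 1)) * (2 + t) ^ (1 / 4 : ℝ) := by
  have hC0 : 0 < C1 := by linarith
  have hT : 1 ≤ 2 + t := by linarith
  have hT0 : 0 < 2 + t := by linarith
  have e1 : ((2 + t) ^ (2 * δ)) ^ d = (2 + t) ^ (2 * δ * d) := by
    rw [← Real.rpow_natCast, ← Real.rpow_mul hT0.le]
  have e2 : ((C1 * (2 + t) ^ 3) ^ d) ^ δ = C1 ^ (δ * d) * (2 + t) ^ (3 * δ * d) := by
    rw [mul_pow, Real.mul_rpow (by positivity) (by positivity), ← pow_mul, ← Real.rpow_natCast C1 d,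
      ← Real.rpow_mul hC0.le, ← Real.rpow_natCast (2 + t) (3 * d), ← Real.rpow_mul hT0.le]
    congr 2
    · ring
    · push_cast
      ring
  have e3 : (C1 * (2 + t) ^ 3) ^ δ = C1 ^ δ * (2 + t) ^ (3 * δ) := by
    rw [Real.mul_rpow (by positivity) (by positivity), ← Real.rpow_natCast (2 + t) 3,
      ← Real.rpow_mul hT0.le]
    norm_num
  rw [e1, e2, e3]
  have e4 : (2 + t) ^ (2 * δ * d) * (C1 ^ (δ * d) * (2 + t) ^ (3 * δ * d)) *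
      (C1 ^ δ * (2 + t) ^ (3 * δ)) = C1 ^ (δ * ((d : ℝ) + 1)) * (2 + t) ^ (δ * (5 * (d : ℝ) + 3)) := by
    have f1 : C1 ^ (δ * ((d : ℝ) + 1)) = C1 ^ (δ * d) * C1 ^ δ := by
      rw [← Real.rpow_add hC0]
      congr 1
      ring
    have f2 : (2 + t) ^ (δ * (5 * (d : ℝ) + 3)) =
        (2 + t) ^ (2 * δ * d) * (2 + t) ^ (3 * δ * d) * (2 + t) ^ (3 * δ) := by
      rw [← Real.rpow_add hT0, ← Real.rpow_add hT0]
      congr 1
      ring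
    rw [f1, f2]
    ring
  rw [e4]
  exact mul_le_mul_of_nonneg_left (Real.rpow_le_rpow_of_exponent_le hT h1) (by positivity)

/-- the final inequality -/
private theorem fin_ineq {C1 δ : ℝ} (hC1 : 1 ≤ C1) (hδ : 0 < δ) (e A2 : ℕ)
    (h1 : δ * (5 * ((e + 1 : ℕ) : ℝ) + 3) ≤ 1 / 4)
    (h2 : A2 * (δ * ((2 * ((e + 1 : ℕ) : ℝ) + 4) * ((e + 1 : ℕ) : ℝ))) ≤ 1 / 4) :
    ∃ C : ℝ, 0 < C ∧ ∀ s t : ℝ, Rg C1 s t →
      ((2 + t) ^ (2 * δ)) ^ (e + 1) * ((C1 * (2 + t) ^ 3) ^ (e + 1)) ^ δ *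
        (C1 * (2 + t) ^ 3) ^ δ * (s * t) ^ (e + 1) *
        ((s ^ 2) ^ (e + 1) * (1 + Real.log (Hp C1 A2 s)) +
          (s * t) ^ (e + 1) *
            (Hp C1 A2 s) ^ (δ * ((2 * ((e + 1 : ℕ) : ℝ) + 4) * ((e + 1 : ℕ) : ℝ)))) ≤
      C * (s * t) ^ (3 * (e + 1)) * t ^ (-1 : ℝ) * Real.log (2 + s) ^ (5 / 4 : ℝ) := by
  have hC0 : 0 < C1 := by linarith
  have hl2 : 0 < Real.log 2 := Real.log_pos (by norm_num)
  have hlC : 0 ≤ Real.log C1 := Real.log_nonneg hC1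
  obtain ⟨c, hc⟩ : ∃ c : ℝ, c = 2 * C1 + 1 := ⟨_, rfl⟩
  obtain ⟨C5, hC5⟩ : ∃ C5 : ℝ, C5 = (1 + A2 * Real.log C1) / Real.log 2 + A2 := ⟨_, rfl⟩
  obtain ⟨C4, hC4⟩ : ∃ C4 : ℝ, C4 = C1 ^ (δ * (((e + 1 : ℕ) : ℝ) + 1)) := ⟨_, rfl⟩
  obtain ⟨l1, hl1⟩ : ∃ l1 : ℝ, l1 = (Real.log 2 ^ (1 / 4 : ℝ))⁻¹ := ⟨_, rfl⟩
  obtain ⟨l2, hl2'⟩ : ∃ l2 : ℝ, l2 = (Real.log 2 ^ (5 / 4 : ℝ))⁻¹ := ⟨_, rfl⟩
  have hc0 : 0 < c := by rw [hc]; linarith
  have hC50 : 0 < C5 := by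
    have : (0 : ℝ) ≤ A2 := Nat.cast_nonneg A2
    rw [hC5]
    positivity
  have hC40 : 0 < C4 := by rw [hC4]; positivity
  have hl10 : 0 < l1 := by rw [hl1]; positivity
  have hl20 : 0 < l2 := by rw [hl2']; positivity
  refine ⟨C4 * c * C1 ^ (2 * e) * C5 * l1 + C4 * (C1 * c) * C1 ^ (2 * e) * l2, by positivity,
    fun s t hRg => ?_⟩
  obtain ⟨ht, hs⟩ := pos_of_rg hC1 hRg
  obtain ⟨hCt, hts⟩ := hRg
  have hCs : 1 ≤ C1 * s := hCt.trans (mul_le_mul_of_nonneg_left hts hC0.le)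
  obtain ⟨L, hL⟩ : ∃ L : ℝ, L = Real.log (2 + s) := ⟨_, rfl⟩
  have hL2 : Real.log 2 ≤ L := by
    rw [hL]
    exact Real.log_le_log (by norm_num) (by linarith)
  have hL0 : 0 < L := by linarith
  -- logarithms
  have g1 : L ≤ l1 * L ^ (5 / 4 : ℝ) := by
    have e1 : L ^ (5 / 4 : ℝ) = L * L ^ (1 / 4 : ℝ) := by
      have : (5 / 4 : ℝ) = 1 + 1 / 4 := by norm_num
      rw [this, Real.rpow_add hL0, Real.rpow_one]
    have e2 : Real.log 2 ^ (1 / 4 : ℝ) ≤ L ^ (1 / 4 : ℝ) :=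
      Real.rpow_le_rpow hl2.le hL2 (by norm_num)
    have e3 : 1 ≤ l1 * L ^ (1 / 4 : ℝ) := by
      rw [hl1, ← div_eq_inv_mul, one_le_div (by positivity)]
      exact e2
    rw [e1]
    calc L = L * 1 := (mul_one L).symm
      _ ≤ L * (l1 * L ^ (1 / 4 : ℝ)) := mul_le_mul_of_nonneg_left e3 hL0.le
      _ = _ := by ring
  have g2 : 1 ≤ l2 * L ^ (5 / 4 : ℝ) := by
    rw [hl2', ← div_eq_inv_mul, one_le_div (by positivity)]
    exact Real.rpow_le_rpow hl2.le hL2 (by norm_num)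
  have hB1 : 1 ≤ C1 * (1 + s) := by nlinarith
  have hB0 : 0 < C1 * (1 + s) := by linarith
  have g3 : 1 + Real.log (Hp C1 A2 s) ≤ C5 * L := by
    unfold Hp
    rw [Real.log_pow, Real.log_mul hC0.ne' (by linarith)]
    have e1 : Real.log (1 + s) ≤ L := by
      rw [hL]
      exact Real.log_le_log (by linarith) (by linarith)
    have hA : (0 : ℝ) ≤ A2 := Nat.cast_nonneg A2
    have e2 : 1 + A2 * Real.log C1 ≤ (1 + A2 * Real.log C1) / Real.log 2 * L := by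
      rw [div_mul_eq_mul_div, le_div_iff₀ hl2]
      exact mul_le_mul_of_nonneg_left hL2 (by positivity)
    rw [hC5, add_mul]
    have e3 : A2 * Real.log (1 + s) ≤ A2 * L := mul_le_mul_of_nonneg_left e1 hA
    linarith
  -- powers of `2 + t`
  have g4 := pbd hC1 ht hδ h1
  rw [← hC4] at g4
  have g5 : 2 + t ≤ c * t := by
    rw [hc]
    nlinarith
  have g6 : 2 + s ≤ c * s := by
    rw [hc]
    nlinarith
  have g7 : (2 + t) ^ (1 / 4 : ℝ) ≤ c * t := by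
    refine le_trans ?_ g5
    calc (2 + t) ^ (1 / 4 : ℝ) ≤ (2 + t) ^ (1 : ℝ) :=
          Real.rpow_le_rpow_of_exponent_le (by linarith) (by norm_num)
      _ = 2 + t := Real.rpow_one _
  have g8 : (2 + t) ^ (1 / 4 : ℝ) *
      (Hp C1 A2 s) ^ (δ * ((2 * ((e + 1 : ℕ) : ℝ) + 4) * ((e + 1 : ℕ) : ℝ))) ≤ C1 * c * s := by
    have e1 : (Hp C1 A2 s) ^ (δ * ((2 * ((e + 1 : ℕ) : ℝ) + 4) * ((e + 1 : ℕ) : ℝ))) ≤
        (C1 * (1 + s)) ^ (1 / 4 : ℝ) := by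
      unfold Hp
      rw [← Real.rpow_natCast, ← Real.rpow_mul hB0.le]
      exact Real.rpow_le_rpow_of_exponent_le hB1 h2
    have e2 : (C1 * (1 + s)) ^ (1 / 4 : ℝ) ≤ (C1 * (2 + s)) ^ (1 / 4 : ℝ) :=
      Real.rpow_le_rpow hB0.le (mul_le_mul_of_nonneg_left (by linarith) hC0.le) (by norm_num)
    have hB2 : 1 ≤ C1 * (2 + s) := by nlinarith
    have e3 : (2 + t) ^ (1 / 4 : ℝ) ≤ (C1 * (2 + s)) ^ (1 / 4 : ℝ) := by
      refine Real.rpow_le_rpow (by linarith) ?_ (by norm_num)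
      nlinarith
    calc _ ≤ (C1 * (2 + s)) ^ (1 / 4 : ℝ) * (C1 * (2 + s)) ^ (1 / 4 : ℝ) :=
          mul_le_mul e3 (e1.trans e2) (Real.rpow_nonneg (by unfold Hp; positivity) _)
            (by positivity)
      _ = (C1 * (2 + s)) ^ (1 / 2 : ℝ) := by
          rw [← Real.rpow_add (by linarith)]
          norm_num
      _ ≤ (C1 * (2 + s)) ^ (1 : ℝ) := Real.rpow_le_rpow_of_exponent_le hB2 (by norm_num)
      _ = C1 * (2 + s) := Real.rpow_one _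
      _ ≤ C1 * (c * s) := mul_le_mul_of_nonneg_left g6 hC0.le
      _ = _ := by ring
  -- powers of `t`, `s t`
  have hti : t ^ (-1 : ℝ) = t⁻¹ := Real.rpow_neg_one t
  have g9 : t * (s * t) ^ (e + 1) * (s ^ 2) ^ (e + 1) ≤
      C1 ^ (2 * e) * ((s * t) ^ (3 * (e + 1)) * t⁻¹) := by
    have e1 : 1 ≤ (C1 * t) ^ (2 * e) := one_le_pow₀ hCt
    calc t * (s * t) ^ (e + 1) * (s ^ 2) ^ (e + 1)
        ≤ t * (s * t) ^ (e + 1) * (s ^ 2) ^ (e + 1) * (C1 * t) ^ (2 * e) :=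
          le_mul_of_one_le_right (by positivity) e1
      _ = _ := by
          field_simp
          ring
  have g10 : s * (s * t) ^ (e + 1) * (s * t) ^ (e + 1) ≤
      C1 ^ (2 * e) * ((s * t) ^ (3 * (e + 1)) * t⁻¹) := by
    have e1 : 1 ≤ (C1 * t) ^ e * (C1 * s) ^ e :=
      one_le_mul_of_one_le_of_one_le (one_le_pow₀ hCt) (one_le_pow₀ hCs)
    calc s * (s * t) ^ (e + 1) * (s * t) ^ (e + 1)
        ≤ s * (s * t) ^ (e + 1) * (s * t) ^ (e + 1) * ((C1 * t) ^ e * (C1 * s) ^ e) :=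
          le_mul_of_one_le_right (by positivity) e1
      _ = _ := by
          field_simp
          ring
  obtain ⟨G, hG⟩ : ∃ G : ℝ, G =
    (Hp C1 A2 s) ^ (δ * ((2 * ((e + 1 : ℕ) : ℝ) + 4) * ((e + 1 : ℕ) : ℝ))) := ⟨_, rfl⟩
  obtain ⟨T, hT⟩ : ∃ T : ℝ, T = (2 + t) ^ (1 / 4 : ℝ) := ⟨_, rfl⟩
  obtain ⟨U, hU⟩ : ∃ U : ℝ, U = (s * t) ^ (3 * (e + 1)) * t⁻¹ := ⟨_, rfl⟩
  obtain ⟨ℓ, hℓ⟩ : ∃ ℓ : ℝ, ℓ = L ^ (5 / 4 : ℝ) := ⟨_, rfl⟩
  have hG0 : 0 < G := by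
    rw [hG]
    unfold Hp
    positivity
  have hT0 : 0 < T := by rw [hT]; positivity
  have hU0 : 0 < U := by rw [hU]; positivity
  have hℓ0 : 0 < ℓ := by rw [hℓ]; positivity
  rw [← hG, ← hT] at g8
  rw [← hT] at g4 g7
  rw [← hU] at g9 g10
  rw [← hℓ] at g1 g2
  rw [← hG, hti, ← hL, ← hℓ]
  have hlH : 0 ≤ 1 + Real.log (Hp C1 A2 s) := by
    have : 0 ≤ Real.log (Hp C1 A2 s) := Real.log_nonneg (by unfold Hp; exact one_le_pow₀ hB1)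
    linarith
  calc _ ≤ C4 * T * (s * t) ^ (e + 1) *
        ((s ^ 2) ^ (e + 1) * (1 + Real.log (Hp C1 A2 s)) + (s * t) ^ (e + 1) * G) :=
        mul_le_mul_of_nonneg_right (mul_le_mul_of_nonneg_right g4 (by positivity)) (by positivity)
    _ = C4 * T * ((s * t) ^ (e + 1) * (s ^ 2) ^ (e + 1)) * (1 + Real.log (Hp C1 A2 s)) +
        C4 * (T * G) * ((s * t) ^ (e + 1) * (s * t) ^ (e + 1)) := by ring
    _ ≤ C4 * (c * t) * ((s * t) ^ (e + 1) * (s ^ 2) ^ (e + 1)) * (C5 * (l1 * ℓ)) +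
        C4 * (C1 * c * s) * ((s * t) ^ (e + 1) * (s * t) ^ (e + 1)) * (l2 * ℓ) := by
        refine add_le_add ?_ ?_
        · refine mul_le_mul ?_ (g3.trans (mul_le_mul_of_nonneg_left g1 hC50.le)) hlH (by positivity)
          exact mul_le_mul_of_nonneg_right (mul_le_mul_of_nonneg_left g7 hC40.le) (by positivity)
        · refine (mul_le_mul_of_nonneg_right (mul_le_mul_of_nonneg_left g8 hC40.le)
            (by positivity)).trans ?_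
          exact le_mul_of_one_le_right (by positivity) g2
    _ = C4 * c * C5 * l1 * ℓ * (t * (s * t) ^ (e + 1) * (s ^ 2) ^ (e + 1)) +
        C4 * (C1 * c) * l2 * ℓ * (s * (s * t) ^ (e + 1) * (s * t) ^ (e + 1)) := by ring
    _ ≤ C4 * c * C5 * l1 * ℓ * (C1 ^ (2 * e) * U) +
        C4 * (C1 * c) * l2 * ℓ * (C1 ^ (2 * e) * U) :=
        add_le_add (mul_le_mul_of_nonneg_left g9 (by positivity))
          (mul_le_mul_of_nonneg_left g10 (by positivity))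
    _ = _ := by rw [hU]; ring


variable (K : Type) [Field K] [NumberField K]

omit [NumberField K] in
private theorem all_mono {β : Blk (𝓞 K)} {X Y : ℝ} (hXY : X ≤ Y) (h : β.All (Bd X)) :
    β.All (Bd Y) := by
  obtain ⟨h1, h2, h3, h4, h5, h6⟩ := h
  exact ⟨fun φ => (h1 φ).trans hXY, fun φ => (h2 φ).trans hXY, fun φ => (h3 φ).trans hXY,
    fun φ => (h4 φ).trans hXY, fun φ => (h5 φ).trans hXY, fun φ => (h6 φ).trans hXY⟩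

omit [NumberField K] in
private theorem rep_mono {β : Blk (𝓞 K)} {u v : 𝓞 K} {X Y : ℝ} (hXY : X ≤ Y) (h : H88.A4.Rep X β u v) :
    H88.A4.Rep Y β u v := by
  obtain ⟨π, r, r', ⟨h1, h2, h3, h4⟩, h5⟩ := h
  exact ⟨π, r, r', ⟨fun φ => (h1 φ).trans hXY, fun φ => (h2 φ).trans hXY,
    fun φ => (h3 φ).trans hXY, fun φ => (h4 φ).trans hXY⟩, h5⟩

theorem deg2 (hcom : Com0Stmt K) : Deg2Stmt K := by
  classical
  intro M hM C hC A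
  obtain ⟨C1, A1, hCC1, hnrm⟩ := nrm K hM hC A
  obtain ⟨m, hm, hw⟩ := wgt (K := K) hcom hM
  have hC11 : 1 ≤ C1 := hC.trans hCC1
  have hC10 : 0 < C1 := by linarith
  obtain ⟨e, he⟩ : ∃ e : ℕ, Module.finrank ℚ K = e + 1 :=
    ⟨Module.finrank ℚ K - 1, by have : 0 < Module.finrank ℚ K := Module.finrank_pos; omega⟩
  obtain ⟨A2, hA2⟩ : ∃ A2 : ℕ, A2 = A1 + 1 := ⟨_, rfl⟩
  obtain ⟨q, hq⟩ : ∃ q : ℝ, q = 32 * ((A2 : ℝ) + 1) * ((e : ℝ) + 2) ^ 2 := ⟨_, rfl⟩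
  have hA20 : (0 : ℝ) ≤ A2 := Nat.cast_nonneg A2
  have he0 : (0 : ℝ) ≤ e := Nat.cast_nonneg e
  have hq0 : 0 < q := by rw [hq]; positivity
  obtain ⟨δ, hδe⟩ : ∃ δ : ℝ, δ = q⁻¹ := ⟨_, rfl⟩
  have hδ : 0 < δ := by rw [hδe]; positivity
  have hδq : ∀ x : ℝ, x ≤ q / 4 → δ * x ≤ 1 / 4 := fun x hx => by
    calc δ * x ≤ δ * (q / 4) := mul_le_mul_of_nonneg_left hx hδ.le
      _ = (δ * q) / 4 := by ring
      _ = 1 / 4 := by rw [hδe, inv_mul_cancel₀ hq0.ne']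
  have hsq : 0 ≤ (A2 : ℝ) * ((e : ℝ) + 2) ^ 2 := by positivity
  have h1 : δ * (5 * ((e + 1 : ℕ) : ℝ) + 3) ≤ 1 / 4 := by
    apply hδq
    rw [hq]
    push_cast
    nlinarith
  have h2 : A2 * (δ * ((2 * ((e + 1 : ℕ) : ℝ) + 4) * ((e + 1 : ℕ) : ℝ))) ≤ 1 / 4 := by
    have e1 : A2 * (δ * ((2 * ((e + 1 : ℕ) : ℝ) + 4) * ((e + 1 : ℕ) : ℝ))) =
        δ * (A2 * ((2 * ((e + 1 : ℕ) : ℝ) + 4) * ((e + 1 : ℕ) : ℝ))) := by ring
    rw [e1]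
    apply hδq
    rw [hq]
    push_cast
    have e2 : ((2 * ((e : ℝ) + 1) + 4) * ((e : ℝ) + 1)) ≤ 8 * ((e : ℝ) + 2) ^ 2 := by nlinarith
    have e3 := mul_le_mul_of_nonneg_left e2 hA20
    nlinarith
  have hδ8 : δ < 1 / 8 := by
    have e1 : δ * 16 ≤ 1 / 4 := by
      apply hδq
      rw [hq]
      nlinarith
    linarith
  obtain ⟨C', hC', hwg⟩ := hw C C1 δ hC hC11 hδ
  obtain ⟨Ct, hCt, hFk, -⟩ := fc0_bd K δ hδ
  obtain ⟨Cl, hCl, hlt⟩ := layt K hC11 hδ hδ8 hm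
  obtain ⟨C2, hC2, hfin⟩ := fin_ineq hC11 hδ e A2 h1 h2
  refine ⟨Cl * (C' * Ct) * C2, 1, by positivity, one_pos, fun s t hRg S hinj hS => ?_⟩
  have hRg1 : Rg C1 s t := ⟨hRg.1.trans (mul_le_mul_of_nonneg_right hCC1 (pos_of_rg hC hRg).1.le),
    hRg.2⟩
  obtain ⟨ht, hs⟩ := pos_of_rg hC hRg
  have hst : 0 < s * t := mul_pos hs ht
  have hB1 : 1 ≤ C1 * (1 + s) := by nlinarith
  obtain ⟨H, hH⟩ : ∃ H : ℝ, H = Hp C1 A2 s := ⟨_, rfl⟩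
  have hHB : C1 * (1 + s) ≤ H := by
    rw [hH]
    unfold Hp
    exact le_self_pow₀ hB1 (by omega)
  have hH1 : 1 ≤ H := hB1.trans hHB
  have hsH : s ≤ H := by
    refine le_trans ?_ hHB
    nlinarith
  have hAH : Hp C1 A1 s ≤ H := by
    rw [hH]
    unfold Hp
    exact pow_le_pow_right₀ hB1 (by omega)
  -- normalised blocks
  have hn : ∀ x ∈ S, ∃ β' : Blk (𝓞 K), Nb C1 s t β' ∧ β'.All (Bd H) ∧
      H88.A4.Rep H β' x.1 x.2.1 ∧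
        β'.D1 = x.2.2.D1 ∧ β'.D2 = x.2.2.D2 ∧ β'.D3 = x.2.2.D3 := by
    intro x hx
    obtain ⟨h3, h4, h5, h6⟩ := hS x hx
    obtain ⟨β', g1, g2, g3, g4⟩ := hnrm s t hRg x.1 x.2.1 x.2.2 h3 h4 h5 h6
    exact ⟨β', g1, all_mono K hAH g2, rep_mono K hAH g3, g4⟩
  have : Nonempty (Blk (𝓞 K)) := ⟨⟨0, 0, 0, 0, 0, 0⟩⟩
  choose! nb hnb using hn
  have hg : ∀ β : Blk (𝓞 K), (Nb C1 s t β ∧ β.All (Bd H)) → ∃ gb gc : Ideal (𝓞 K),
      Squarefree gb ∧ Squarefree gc ∧ IsCoprime gb gc ∧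
        (β.b1 ∈ gb ∧ β.b2 ∈ gb ∧ β.b3 ∈ gb) ∧ (β.c3 ∈ gc ∧ β.D1 ∈ gc) ∧
        ∀ S : Finset (𝓞 K × 𝓞 K), (∀ x ∈ S, Adm M C s t x.1 x.2 ∧ H88.A4.Rep H β x.1 x.2) →
          (S.card : ℝ) ≤ C' * Fc0 m β.c3 (gb * gc) (-(β.b1 * β.c3) ^ 2) *
            ((2 + t) ^ (2 * δ)) ^ Module.finrank ℚ K * (ni gb * ni gc) *
            (pw δ (xq s β.D1) * pw (3 / 2 + 2 * δ) (wq s t β.c3 β.b1)) ∧
          (S.card : ℝ) ≤ C' * Fc0 m β.c3 (gb * gc) (-(β.b1 * β.c3) ^ 2) *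
            ((2 + t) ^ (2 * δ)) ^ Module.finrank ℚ K * (ni gb * ni gc) *
            (pw (3 / 4 + δ) (xq s β.D1) * pw (3 / 4 + 2 * δ) (wq s t β.c3 β.b1)) :=
    fun β hβ => hwg s t H hRg1 hsH hH1 β hβ.1 hβ.2
  choose! gb gc hgg using hg
  obtain ⟨T, hT⟩ : ∃ T : Finset (Blk (𝓞 K)), T = S.image nb := ⟨_, rfl⟩
  have hTp : ∀ β ∈ T, Nb C1 s t β ∧ β.All (Bd H) := by
    intro β hβ
    rw [hT] at hβ
    obtain ⟨x, hx, rfl⟩ := Finset.mem_image.1 hβ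
    exact ⟨(hnb x hx).1, (hnb x hx).2.1⟩
  obtain ⟨W, hW⟩ : ∃ W : Blk (𝓞 K) → ℝ, W = fun β => ((S.filter fun x => nb x = β).card : ℝ) :=
    ⟨_, rfl⟩
  obtain ⟨Z, hZ⟩ : ∃ Z : ℝ, Z = (C' * Ct) * (((2 + t) ^ (2 * δ)) ^ (e + 1) *
    ((C1 * (2 + t) ^ 3) ^ (e + 1)) ^ δ) := ⟨_, rfl⟩
  have hZ0 : 0 ≤ Z := by rw [hZ]; positivity
  have hDw : ∀ β ∈ T, Dw C1 δ s t H Z m β (gb β) (gc β) (W β) := by
    intro β hβ
    obtain ⟨hN, hall⟩ := hTp β hβ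
    obtain ⟨q1, q2, q3, q4, q5, q6⟩ := hgg β ⟨hN, hall⟩
    have hc := q6 ((S.filter fun x => nb x = β).image fun x => (x.1, x.2.1)) (by
      intro y hy
      obtain ⟨x, hx, rfl⟩ := Finset.mem_image.1 hy
      obtain ⟨hx1, hx2⟩ := Finset.mem_filter.1 hx
      obtain ⟨h3, -⟩ := hS x hx1
      have h4 := (hnb x hx1).2.2.1
      rw [hx2] at h4
      exact ⟨h3, h4⟩)
    rw [Finset.card_image_of_injOn (by
      intro x hx y hy hxy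
      obtain ⟨hx1, hx2⟩ := Finset.mem_filter.1 hx
      obtain ⟨hy1, hy2⟩ := Finset.mem_filter.1 hy
      simp only [Prod.mk.injEq] at hxy
      obtain ⟨-, -, -, d1, d2, d3⟩ := hnb x hx1
      obtain ⟨-, -, -, d1', d2', d3'⟩ := hnb y hy1
      rw [hx2] at d1 d2 d3
      rw [hy2] at d1' d2' d3'
      exact hinj x hx1 y hy1 hxy.1 hxy.2 (d1.symm.trans d1') (d2.symm.trans d2')
        (d3.symm.trans d3'))] at hc
    obtain ⟨c1, c2⟩ := hc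
    have hw0 : ∀ φ, 0 < wq s t β.c3 β.b1 φ := fun φ =>
      div_pos (sz_pos φ (mul_ne_zero hN.b1 hN.c3)) hst
    have hx0 : ∀ φ, 0 < xq s β.D1 φ := fun φ => div_pos (sz_pos φ hN.d1) (by positivity)
    have hnk : nz β.c3 ≤ (C1 * (2 + t) ^ 3) ^ (e + 1) := by
      have h3 := nz_le_vol (R := fun _ => C1 * (2 + t) ^ 3) (x := β.c3) fun φ => by
        refine (hN.k2 φ).trans (mul_le_mul_of_nonneg_left ?_ hC10.le)
        exact pow_le_pow_left₀ ht.le (by linarith) 3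
      rwa [vol_const, he] at h3
    have hF : (Fc0 m β.c3 (gb β * gc β) (-(β.b1 * β.c3) ^ 2) : ℝ) ≤
        Ct * ((C1 * (2 + t) ^ 3) ^ (e + 1)) ^ δ * F1 m (gb β) β.b1 := by
      refine (hFk m (gb β) (gc β) β.b1 β.c3 hN.b1 hN.c3).trans ?_
      refine mul_le_mul_of_nonneg_right ?_ (Nat.cast_nonneg _)
      exact mul_le_mul_of_nonneg_left (Real.rpow_le_rpow (nz_nonneg _) hnk hδ.le) (by linarith)
    have hni : 0 ≤ ni (gb β) * ni (gc β) := mul_nonneg (ni_nonneg _) (ni_nonneg _)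
    have key : ∀ p : ℝ, 0 ≤ p → C' * (Fc0 m β.c3 (gb β * gc β) (-(β.b1 * β.c3) ^ 2) : ℝ) *
        ((2 + t) ^ (2 * δ)) ^ Module.finrank ℚ K * (ni (gb β) * ni (gc β)) * p ≤
        (ni (gb β) * ni (gc β)) * (Z * F1 m (gb β) β.b1 * p) := by
      intro p hp
      rw [he, hZ]
      calc _ ≤ C' * (Ct * ((C1 * (2 + t) ^ 3) ^ (e + 1)) ^ δ * F1 m (gb β) β.b1) *
          ((2 + t) ^ (2 * δ)) ^ (e + 1) * (ni (gb β) * ni (gc β)) * p := by gcongr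
        _ = _ := by ring
    refine ⟨hN, hall, q1, q2, q3, q4, q5, ?_, ?_⟩
    · rw [hW]
      refine c1.trans ((key _ (mul_nonneg (pw_pos _ hx0).le (pw_pos _ hw0).le)).trans (le_of_eq ?_))
      ring
    · rw [hW]
      refine c2.trans ((key _ (mul_nonneg (pw_pos _ hx0).le (pw_pos _ hw0).le)).trans (le_of_eq ?_))
      ring
  have hsum := hlt s t H hRg1 hsH hH1 T W Z gb gc hZ0 hDw
  have hcard : (S.card : ℝ) = ∑ β ∈ T, W β := by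
    rw [hW, hT, Finset.card_eq_sum_card_image nb S, Nat.cast_sum]
  have hf := hfin s t hRg1
  rw [← hH] at hf
  rw [he] at hsum
  rw [hcard, he]
  refine hsum.trans ?_
  calc _ = Cl * (C' * Ct) * (((2 + t) ^ (2 * δ)) ^ (e + 1) * ((C1 * (2 + t) ^ 3) ^ (e + 1)) ^ δ *
        (C1 * (2 + t) ^ 3) ^ δ * (s * t) ^ (e + 1) *
        ((s ^ 2) ^ (e + 1) * (1 + Real.log H) +
          (s * t) ^ (e + 1) *
            H ^ (δ * ((2 * ((e + 1 : ℕ) : ℝ) + 4) * ((e + 1 : ℕ) : ℝ))))) := by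
        rw [hZ]
        ring
    _ ≤ Cl * (C' * Ct) * (C2 * (s * t) ^ (3 * (e + 1)) * t ^ (-1 : ℝ) *
        Real.log (2 + s) ^ (5 / 4 : ℝ)) := mul_le_mul_of_nonneg_left hf (by positivity)
    _ = _ := by ring

end H37.DG
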