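import Pool.Agent.H37.DG.Tau
import Pool.Agent.H67.WA.S8A

/-!
# Deg2 (T3, MP_b39724): average of the number of classes over `b1`
-/

set_option autoImplicit false

open scoped NumberField
open H88.A4 Pool.Agent.H67.WA H88.WS

noncomputable section

namespace H37.DG

variable {K : Type} [Field K] [NumberField K]

variable (K) in
theorem ids_log : ∃ C : ℝ, 1 ≤ C ∧ ∀ Y : ℝ, 1 ≤ Y → ∀ G : Finset (Ideal (𝓞 K)),
    (∀ I ∈ G, I ≠ ⊥ ∧ ni I ≤ Y) → ∑ I ∈ G, (ni I)⁻¹ ≤ C * (1 + Real.log Y) := by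
  classical
  obtain ⟨C2, hC2, h2⟩ := ideal_card K
  have hl : 0 < Real.log 2 := Real.log_pos (by norm_num)
  refine ⟨max 1 ((1 + 1 / Real.log 2) * (2 * C2)), le_max_left _ _, fun Y hY G hG => ?_⟩
  have hlY : 0 ≤ Real.log Y := Real.log_nonneg hY
  let g : Ideal (𝓞 K) → ℕ := fun I => Nat.log 2 (Ideal.absNorm I)
  have hn0 : ∀ I ∈ G, Ideal.absNorm I ≠ 0 := fun I hI => by
    rw [Ne, Ideal.absNorm_eq_zero_iff]
    exact (hG I hI).1
  have hg1 : ∀ I ∈ G, (2 : ℝ) ^ g I ≤ ni I := fun I hI => by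
    have := Nat.pow_log_le_self 2 (hn0 I hI)
    unfold ni
    exact_mod_cast this
  have hg2 : ∀ I : Ideal (𝓞 K), ni I ≤ 2 ^ (g I + 1) := fun I => by
    have := (Nat.lt_pow_succ_log_self (b := 2) (by norm_num) (Ideal.absNorm I)).le
    unfold ni
    exact_mod_cast this
  have h3 := fibs G g (fun I => (ni I)⁻¹) (N := (1 + 1 / Real.log 2) * (1 + Real.log Y))
    (M := 2 * C2) (by positivity) ?_ ?_
  · refine h3.trans ?_
    calc (1 + 1 / Real.log 2) * (1 + Real.log Y) * (2 * C2)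
        = ((1 + 1 / Real.log 2) * (2 * C2)) * (1 + Real.log Y) := by ring
      _ ≤ _ := mul_le_mul_of_nonneg_right (le_max_right _ _) (by linarith)
  · have h4 : G.image g ⊆ Finset.range (⌊Real.log Y / Real.log 2⌋₊ + 1) := by
      intro j hj
      obtain ⟨I, hI, rfl⟩ := Finset.mem_image.1 hj
      rw [Finset.mem_range, Nat.lt_succ_iff]
      apply Nat.le_floor
      rw [le_div_iff₀ hl, ← Real.log_pow]
      exact Real.log_le_log (by positivity) ((hg1 I hI).trans (hG I hI).2)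
    have h5 : ((G.image g).card : ℝ) ≤ (⌊Real.log Y / Real.log 2⌋₊ + 1 : ℕ) := by
      exact_mod_cast (Finset.card_le_card h4).trans (le_of_eq (Finset.card_range _))
    refine h5.trans ?_
    push_cast
    have h6 := Nat.floor_le (div_nonneg hlY hl.le)
    have h7 : (1 + 1 / Real.log 2) * (1 + Real.log Y) =
        Real.log Y / Real.log 2 + 1 + (1 / Real.log 2 + Real.log Y) := by
      field_simp
      ring
    rw [h7]
    have h8 : 0 ≤ 1 / Real.log 2 := by positivity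
    linarith
  · intro j _
    calc ∑ I ∈ G with g I = j, (ni I)⁻¹ ≤ ∑ I ∈ G with g I = j, ((2 : ℝ) ^ j)⁻¹ := by
          refine Finset.sum_le_sum fun I hI => ?_
          obtain ⟨hI1, hI2⟩ := Finset.mem_filter.1 hI
          have := hg1 I hI1
          rw [hI2] at this
          exact inv_anti₀ (by positivity) this
      _ = ((G.filter fun I => g I = j).card : ℝ) * ((2 : ℝ) ^ j)⁻¹ := by
          rw [Finset.sum_const, nsmul_eq_mul]
      _ ≤ (C2 * 2 ^ (j + 1)) * ((2 : ℝ) ^ j)⁻¹ := by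
          refine mul_le_mul_of_nonneg_right ?_ (by positivity)
          refine h2 (2 ^ (j + 1)) (one_le_pow₀ (by norm_num)) _ fun I hI => ?_
          obtain ⟨hI1, hI2⟩ := Finset.mem_filter.1 hI
          have := hg2 I
          rw [hI2] at this
          exact ⟨(hG I hI1).1, this⟩
      _ = 2 * C2 := by
          rw [pow_succ]
          field_simp

/-- the hypothesis on the weights -/
def Hy (B : Finset (Ideal (𝓞 K))) (S : Finset (𝓞 K)) (W : 𝓞 K → ℝ) (V : ℝ) : Prop :=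
  ∀ I : Ideal (𝓞 K), I ≠ ⊥ → (∀ P ∈ B, ¬ I ≤ P) →
    ∀ S' ⊆ S, (∀ b ∈ S', b ∈ I) → ∑ b ∈ S', W b ≤ V * (ni I)⁻¹

theorem od_zero {P I : Ideal (𝓞 K)} (h : P ∉ pf I) : od P I = 0 := by
  classical
  unfold od
  rw [Multiset.count_eq_zero]
  intro h'
  exact h (Multiset.mem_toFinset.2 h')

theorem mem_pow_od {b : 𝓞 K} (hb : b ≠ 0) (P : Ideal (𝓞 K)) :
    b ∈ P ^ od P (Ideal.span {b}) := by
  classical
  by_cases hP : P ∈ pf (Ideal.span {b})
  · exact le_pow_od (span_ne hb) hP le_rfl (Ideal.mem_span_singleton_self b)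
  · rw [od_zero hP, pow_zero, Ideal.one_eq_top]
    exact Submodule.mem_top

open Classical in
theorem hy_step {B : Finset (Ideal (𝓞 K))} {S : Finset (𝓞 K)} {W : 𝓞 K → ℝ} {V : ℝ}
    (h : Hy B S W V) (hS : ∀ b ∈ S, b ≠ 0) {P : Ideal (𝓞 K)} (hP : P.IsPrime) (hP0 : P ≠ ⊥)
    (hPB : P ∉ B) (hB : ∀ Q ∈ B, Q.IsPrime) (a : ℕ) :
    Hy (insert P B) (S.filter fun b => od P (Ideal.span {b}) = a) W (V * ((ni P)⁻¹) ^ a) := by
  intro I hI hIB S' hS' hSI
  have hPn : P ^ a ≠ ⊥ := by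
    rw [Ne, ← Ideal.zero_eq_bot]
    exact pow_ne_zero a hP0
  have h0 : I * P ^ a ≠ ⊥ := by
    rw [Ne, Ideal.mul_eq_bot, not_or]
    exact ⟨hI, hPn⟩
  have hpa : ∀ Q : Ideal (𝓞 K), Q.IsPrime → P ^ a ≤ Q → P = Q := by
    intro Q hQ hle
    rcases Nat.eq_zero_or_pos a with h' | h'
    · rw [h', pow_zero, Ideal.one_eq_top] at hle
      exact absurd (top_le_iff.1 hle) hQ.ne_top
    · exact eq_of_le hP hP0 hQ (hQ.le_of_pow_le hle)
  have hcop : IsCoprime I (P ^ a) := by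
    refine cop_of fun Q hQ h1 h2 => ?_
    have := hpa Q hQ h2
    subst this
    exact hIB P (Finset.mem_insert_self _ _) h1
  have h1 := h (I * P ^ a) h0 (fun Q hQ hle => by
    rcases (Ideal.IsPrime.mul_le (hB Q hQ)).1 hle with h' | h'
    · exact hIB Q (Finset.mem_insert_of_mem hQ) h'
    · have := hpa Q (hB Q hQ) h'
      subst this
      exact hPB hQ) S' (fun b hb => (Finset.mem_filter.1 (hS' hb)).1) (fun b hb => by
    obtain ⟨hb1, hb2⟩ := Finset.mem_filter.1 (hS' hb)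
    have h3 : (Ideal.span {b} : Ideal (𝓞 K)) ≤ I * P ^ a := by
      refine le_mul_of_cop hcop ?_ ?_
      · rw [Ideal.span_singleton_le_iff_mem]
        exact hSI b hb
      · rw [Ideal.span_singleton_le_iff_mem]
        have := mem_pow_od (hS b hb1) P
        rwa [hb2] at this
    exact h3 (Ideal.mem_span_singleton_self b))
  refine h1.trans (le_of_eq ?_)
  have h5 : ∀ n : ℕ, ni (P ^ n) = ni P ^ n := fun n => by
    unfold ni
    rw [map_pow, Nat.cast_pow]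
  rw [ni_mul, mul_inv, h5, inv_pow]
  ring

theorem sum96 : ∃ c : ℝ, 1 ≤ c ∧ ∀ x : ℝ, 2 ≤ x → ∀ A : Finset ℕ,
    ∑ a ∈ A, ((a : ℝ) + 1) ^ 96 * (x⁻¹) ^ a ≤ c := by
  have h1 : Summable fun a : ℕ => ((a : ℝ)) ^ 96 * (1 / 2 : ℝ) ^ a := by
    apply summable_pow_mul_geometric_of_norm_lt_one
    rw [Real.norm_of_nonneg] <;> norm_num
  have h2 : Summable fun a : ℕ => ((a : ℝ) + 1) ^ 96 * (1 / 2 : ℝ) ^ a := by
    have h3 := (summable_nat_add_iff 1).2 h1
    have h4 := h3.mul_left 2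
    refine h4.congr fun a => ?_
    push_cast
    rw [pow_succ (1 / 2 : ℝ) a]
    ring
  refine ⟨1 + ∑' a : ℕ, ((a : ℝ) + 1) ^ 96 * (1 / 2 : ℝ) ^ a, ?_, fun x hx A => ?_⟩
  · have : 0 ≤ ∑' a : ℕ, ((a : ℝ) + 1) ^ 96 * (1 / 2 : ℝ) ^ a := tsum_nonneg fun a => by positivity
    linarith
  · have h5 : ∑ a ∈ A, ((a : ℝ) + 1) ^ 96 * (x⁻¹) ^ a ≤
        ∑ a ∈ A, ((a : ℝ) + 1) ^ 96 * (1 / 2 : ℝ) ^ a := by
      refine Finset.sum_le_sum fun a _ => mul_le_mul_of_nonneg_left ?_ (by positivity)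
      refine pow_le_pow_left₀ (by positivity) ?_ a
      rw [one_div]
      exact inv_anti₀ (by norm_num) hx
    have h6 := h2.sum_le_tsum A fun a _ => by positivity
    linarith

open Classical in
theorem peel {c : ℝ} (hc1 : 1 ≤ c) (hc : ∀ x : ℝ, 2 ≤ x → ∀ A : Finset ℕ,
    ∑ a ∈ A, ((a : ℝ) + 1) ^ 96 * (x⁻¹) ^ a ≤ c) (W G : 𝓞 K → ℝ) {κ : ℝ} (hκ : 0 ≤ κ)
    (B2 : Finset (Ideal (𝓞 K))) :
    ∀ (B : Finset (Ideal (𝓞 K))) (S : Finset (𝓞 K)) (V : ℝ), 0 ≤ V →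
      (∀ P ∈ B, P.IsPrime) → (∀ P ∈ B2, P.IsPrime ∧ P ≠ ⊥ ∧ P ∉ B) → (∀ b ∈ S, b ≠ 0) →
      (∀ S' ⊆ S, ∀ V' : ℝ, 0 ≤ V' → Hy (B ∪ B2) S' W V' → ∑ b ∈ S', G b ≤ κ * V') →
      Hy B S W V →
      ∑ b ∈ S, (∏ P ∈ B2, ((od P (Ideal.span {b}) : ℝ) + 1) ^ 96) * G b ≤ c ^ B2.card * (κ * V) := by
  induction B2 using Finset.induction_on with
  | empty =>
    intro B S V hV _ _ _ hG hHy
    rw [Finset.card_empty, pow_zero, one_mul]
    simp only [Finset.prod_empty, one_mul]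
    refine hG S (Finset.Subset.refl S) V hV ?_
    rwa [Finset.union_empty]
  | insert P B2 hPB2 ih =>
    intro B S V hV hB hB2 hS hG hHy
    obtain ⟨hP, hP0, hPB⟩ := hB2 P (Finset.mem_insert_self _ _)
    have hP2 := two_le_ni hP hP0
    rw [Finset.card_insert_of_notMem hPB2]
    have h1 : ∀ a : ℕ, ∑ b ∈ S.filter (fun b => od P (Ideal.span {b}) = a),
        (∏ Q ∈ insert P B2, ((od Q (Ideal.span {b}) : ℝ) + 1) ^ 96) * G b ≤
        (((a : ℝ) + 1) ^ 96 * ((ni P)⁻¹) ^ a) * (c ^ B2.card * (κ * V)) := by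
      intro a
      have h2 := ih (insert P B) (S.filter fun b => od P (Ideal.span {b}) = a)
        (V * ((ni P)⁻¹) ^ a) (by have := ni_nonneg P; positivity) (fun Q hQ => by
          rcases Finset.mem_insert.1 hQ with rfl | h'
          · exact hP
          · exact hB Q h') (fun Q hQ => by
          obtain ⟨q1, q2, q3⟩ := hB2 Q (Finset.mem_insert_of_mem hQ)
          refine ⟨q1, q2, fun h' => ?_⟩
          rcases Finset.mem_insert.1 h' with rfl | h''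
          · exact hPB2 hQ
          · exact q3 h'') (fun b hb => hS b (Finset.mem_filter.1 hb).1)
        (fun S' hS' V' hV' hy => hG S' (hS'.trans (Finset.filter_subset _ _)) V' hV' (by
          have : B ∪ insert P B2 = insert P B ∪ B2 := by
            rw [Finset.union_insert, Finset.insert_union]
          rwa [this]))
        (hy_step hHy hS hP hP0 hPB hB a)
      have h3 : ∑ b ∈ S.filter (fun b => od P (Ideal.span {b}) = a),
          (∏ Q ∈ insert P B2, ((od Q (Ideal.span {b}) : ℝ) + 1) ^ 96) * G b =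
          ((a : ℝ) + 1) ^ 96 * ∑ b ∈ S.filter (fun b => od P (Ideal.span {b}) = a),
          (∏ Q ∈ B2, ((od Q (Ideal.span {b}) : ℝ) + 1) ^ 96) * G b := by
        rw [Finset.mul_sum]
        refine Finset.sum_congr rfl fun b hb => ?_
        rw [Finset.prod_insert hPB2, (Finset.mem_filter.1 hb).2]
        ring
      rw [h3]
      refine (mul_le_mul_of_nonneg_left h2 (by positivity)).trans (le_of_eq ?_)
      ring
    have h4 : ∑ b ∈ S, (∏ Q ∈ insert P B2, ((od Q (Ideal.span {b}) : ℝ) + 1) ^ 96) * G b =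
        ∑ a ∈ S.image (fun b => od P (Ideal.span {b})),
          ∑ b ∈ S.filter (fun b => od P (Ideal.span {b}) = a),
          (∏ Q ∈ insert P B2, ((od Q (Ideal.span {b}) : ℝ) + 1) ^ 96) * G b :=
      (Finset.sum_fiberwise_of_maps_to (fun b hb => Finset.mem_image_of_mem _ hb) _).symm
    rw [h4]
    refine (Finset.sum_le_sum fun a _ => h1 a).trans ?_
    rw [← Finset.sum_mul]
    refine (mul_le_mul_of_nonneg_right (hc (ni P) hP2 _) (by positivity)).trans (le_of_eq ?_)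
    rw [pow_succ]
    ring

open Classical in
/-- local weight of `b1` for the ideal `h` -/
def fb (m : ℕ) (h P : Ideal (𝓞 K)) (a : ℕ) : ℕ :=
  if h ≤ P then 1 else if (m : 𝓞 K) ∈ P then (a + 1) ^ 96 else a + 1

/-- weight of `b1` for the ideal `h` -/
def F1 (m : ℕ) (h : Ideal (𝓞 K)) (b : 𝓞 K) : ℕ :=
  ∏ P ∈ pf (Ideal.span {b}), fb m h P (od P (Ideal.span {b}))

open Classical in
theorem dsum (m : ℕ) (hm : m ≠ 0) : ∃ C : ℝ, 1 ≤ C ∧ ∀ (h : Ideal (𝓞 K)), h ≠ ⊥ →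
    ∀ (S : Finset (𝓞 K)) (W : 𝓞 K → ℝ) (V Y : ℝ), 0 ≤ V → 1 ≤ Y →
    (∀ b ∈ S, b ≠ 0 ∧ b ∈ h ∧ 0 ≤ W b ∧ nz b ≤ Y) →
    (∀ I : Ideal (𝓞 K), I ≠ ⊥ → ∀ S' ⊆ S, (∀ b ∈ S', b ∈ I) → ∑ b ∈ S', W b ≤ V * (ni I)⁻¹) →
    ∑ b ∈ S, (F1 m h b : ℝ) * W b ≤ C * (V * (1 + Real.log Y) * (ni h)⁻¹) := by
  obtain ⟨c, hc1, hc⟩ := sum96
  obtain ⟨Cl, hCl1, hCl⟩ := ids_log K
  obtain ⟨B0, hB0⟩ : ∃ B0 : Finset (Ideal (𝓞 K)), B0 = pf (Ideal.span {(m : 𝓞 K)}) := ⟨_, rfl⟩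
  have hm0 : (m : 𝓞 K) ≠ 0 := Nat.cast_ne_zero.2 hm
  refine ⟨c ^ B0.card * Cl, one_le_mul_of_one_le_of_one_le (one_le_pow₀ hc1) hCl1,
    fun h hh S W V Y hV hY hS hHy => ?_⟩
  obtain ⟨B2, hB2⟩ : ∃ B2 : Finset (Ideal (𝓞 K)), B2 = B0.filter fun P => ¬ h ≤ P := ⟨_, rfl⟩
  have hB2m : ∀ P, P ∈ B2 ↔ (P.IsPrime ∧ P ≠ ⊥ ∧ (m : 𝓞 K) ∈ P ∧ ¬ h ≤ P) := by
    intro P
    rw [hB2, Finset.mem_filter, hB0]
    constructor
    · rintro ⟨h1, h2⟩
      exact ⟨(pf_prime' h1).1, (pf_prime' h1).2, pf_le h1 (Ideal.mem_span_singleton_self _), h2⟩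
    · rintro ⟨h1, h2, h3, h4⟩
      exact ⟨mem_pf (span_ne hm0) h1 h2 ((Ideal.span_singleton_le_iff_mem P).2 h3), h4⟩
  obtain ⟨gd, hgd⟩ : ∃ gd : Ideal (𝓞 K) → Prop, gd = fun P => ¬ h ≤ P ∧ (m : 𝓞 K) ∉ P := ⟨_, rfl⟩
  obtain ⟨G, hG⟩ : ∃ G : 𝓞 K → ℝ, G = fun b =>
    ((∏ P ∈ (pf (Ideal.span {b})).filter gd, (od P (Ideal.span {b}) + 1) : ℕ) : ℝ) * W b :=
    ⟨_, rfl⟩
  have hlY : 0 ≤ Real.log Y := Real.log_nonneg hY
  have hhp : 0 < ni h := lt_of_lt_of_le one_pos (one_le_ni hh)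
  obtain ⟨κ, hκ⟩ : ∃ κ : ℝ, κ = Cl * (1 + Real.log Y) * (ni h)⁻¹ := ⟨_, rfl⟩
  have hκ0 : 0 ≤ κ := by rw [hκ]; positivity
  -- the good part
  have key : ∀ S' ⊆ S, ∀ V' : ℝ, 0 ≤ V' → Hy (∅ ∪ B2) S' W V' → ∑ b ∈ S', G b ≤ κ * V' := by
    intro S' hS' V' hV' hy
    rw [Finset.empty_union] at hy
    have hE : ∀ b : 𝓞 K, b ∈ S → ∃ E : Finset (Ideal (𝓞 K)),
        ∏ P ∈ (pf (Ideal.span {b})).filter gd, (od P (Ideal.span {b}) + 1) ≤ E.card ∧
          ∀ e ∈ E, Ideal.span {b} ≤ e ∧ ∀ P : Ideal (𝓞 K), P.IsPrime → e ≤ P → gd P :=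
      fun b hb => dvs (span_ne (hS b hb).1) gd
    choose! E hE1 hE2 using hE
    have h1 : ∑ b ∈ S', G b ≤ ∑ b ∈ S', ∑ e ∈ E b, W b := by
      refine Finset.sum_le_sum fun b hb => ?_
      rw [hG, Finset.sum_const, nsmul_eq_mul]
      refine mul_le_mul_of_nonneg_right ?_ (hS b (hS' hb)).2.2.1
      exact_mod_cast hE1 b (hS' hb)
    have h2 : ∑ b ∈ S', ∑ e ∈ E b, W b =
        ∑ e ∈ S'.biUnion E, ∑ b ∈ S'.filter (fun b => e ∈ E b), W b := by
      refine Finset.sum_comm' fun b e => ?_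
      simp only [Finset.mem_filter, Finset.mem_biUnion]
      constructor
      · rintro ⟨h1, h2⟩
        exact ⟨⟨h1, h2⟩, b, h1, h2⟩
      · rintro ⟨⟨h1, h2⟩, -⟩
        exact ⟨h1, h2⟩
    have h3 : ∀ e ∈ S'.biUnion E, ∑ b ∈ S'.filter (fun b => e ∈ E b), W b ≤
        V' * (ni h)⁻¹ * (ni e)⁻¹ := by
      intro e he
      obtain ⟨b0, hb0, he0⟩ := Finset.mem_biUnion.1 he
      obtain ⟨g1, g2⟩ := hE2 b0 (hS' hb0) e he0
      have hen : e ≠ ⊥ := by
        intro h'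
        rw [h'] at g1
        exact span_ne (hS b0 (hS' hb0)).1 (le_bot_iff.1 g1)
      have h4 := hy (h * e) (by
        rw [Ne, Ideal.mul_eq_bot, not_or]
        exact ⟨hh, hen⟩) (fun P hP hle => by
        obtain ⟨p1, p2, p3, p4⟩ := (hB2m P).1 hP
        rcases (Ideal.IsPrime.mul_le p1).1 hle with h' | h'
        · exact p4 h'
        · have := g2 P p1 h'
          rw [hgd] at this
          exact this.2 p3) (S'.filter fun b => e ∈ E b) (Finset.filter_subset _ _) (fun b hb => by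
        obtain ⟨hb1, hb2⟩ := Finset.mem_filter.1 hb
        have h5 : (Ideal.span {b} : Ideal (𝓞 K)) ≤ h * e := by
          refine le_mul_of_cop (cop_of fun P hP h6 h7 => ?_) ?_ (hE2 b (hS' hb1) e hb2).1
          · have := g2 P hP h7
            rw [hgd] at this
            exact this.1 h6
          · rw [Ideal.span_singleton_le_iff_mem]
            exact (hS b (hS' hb1)).2.1
        exact h5 (Ideal.mem_span_singleton_self b))
      refine h4.trans (le_of_eq ?_)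
      rw [ni_mul, mul_inv]
      ring
    have h4 : ∑ e ∈ S'.biUnion E, (ni e)⁻¹ ≤ Cl * (1 + Real.log Y) := by
      refine hCl Y hY _ fun e he => ?_
      obtain ⟨b0, hb0, he0⟩ := Finset.mem_biUnion.1 he
      obtain ⟨g1, g2⟩ := hE2 b0 (hS' hb0) e he0
      have hb00 := (hS b0 (hS' hb0)).1
      refine ⟨?_, ?_⟩
      · intro h'
        rw [h'] at g1
        exact span_ne hb00 (le_bot_iff.1 g1)
      · refine (ni_le_nz (g1 (Ideal.mem_span_singleton_self b0)) hb00).trans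
          (hS b0 (hS' hb0)).2.2.2
    calc ∑ b ∈ S', G b ≤ ∑ e ∈ S'.biUnion E, ∑ b ∈ S'.filter (fun b => e ∈ E b), W b :=
          h1.trans (le_of_eq h2)
      _ ≤ ∑ e ∈ S'.biUnion E, V' * (ni h)⁻¹ * (ni e)⁻¹ := Finset.sum_le_sum h3
      _ = V' * (ni h)⁻¹ * ∑ e ∈ S'.biUnion E, (ni e)⁻¹ := by rw [Finset.mul_sum]
      _ ≤ V' * (ni h)⁻¹ * (Cl * (1 + Real.log Y)) :=
          mul_le_mul_of_nonneg_left h4 (by positivity)
      _ = κ * V' := by rw [hκ]; ring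
  have h1 := peel hc1 hc W G hκ0 B2 ∅ S V hV (fun P hP => absurd hP (Finset.notMem_empty P))
    (fun P hP => ⟨((hB2m P).1 hP).1, ((hB2m P).1 hP).2.1, Finset.notMem_empty P⟩)
    (fun b hb => (hS b hb).1) key (fun I hI _ S' hS' hSI => hHy I hI S' hS' hSI)
  have h2 : ∀ b ∈ S, (F1 m h b : ℝ) * W b ≤
      (∏ P ∈ B2, ((od P (Ideal.span {b}) : ℝ) + 1) ^ 96) * G b := by
    intro b hb
    rw [hG]
    have h3 : (F1 m h b : ℝ) ≤ (∏ P ∈ B2, ((od P (Ideal.span {b}) : ℝ) + 1) ^ 96) *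
        ((∏ P ∈ (pf (Ideal.span {b})).filter gd, (od P (Ideal.span {b}) + 1) : ℕ) : ℝ) := by
      have h4 : (F1 m h b : ℝ) = (∏ P ∈ (pf (Ideal.span {b})).filter (fun P => P ∈ B2),
          ((od P (Ideal.span {b}) : ℝ) + 1) ^ 96) *
          ((∏ P ∈ (pf (Ideal.span {b})).filter gd, (od P (Ideal.span {b}) + 1) : ℕ) : ℝ) := by
        unfold F1
        push_cast
        rw [Finset.prod_filter, Finset.prod_filter, ← Finset.prod_mul_distrib]
        refine Finset.prod_congr rfl fun P hP => ?_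
        obtain ⟨p1, p2⟩ := pf_prime' hP
        unfold fb
        rw [hgd]
        by_cases q1 : h ≤ P
        · rw [if_pos q1, if_neg (fun h' => ((hB2m P).1 h').2.2.2 q1), if_neg (fun h' => h'.1 q1)]
          simp
        · by_cases q2 : (m : 𝓞 K) ∈ P
          · rw [if_neg q1, if_pos q2, if_pos ((hB2m P).2 ⟨p1, p2, q2, q1⟩),
              if_neg (fun h' => h'.2 q2)]
            push_cast
            ring
          · rw [if_neg q1, if_neg q2, if_neg (fun h' => q2 ((hB2m P).1 h').2.2.1), if_pos ⟨q1, q2⟩]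
            push_cast
            ring
      rw [h4]
      refine mul_le_mul_of_nonneg_right ?_ (Nat.cast_nonneg _)
      refine le_of_eq (Finset.prod_subset (fun P hP => (Finset.mem_filter.1 hP).2) fun P _ hP => ?_)
      have h6 : P ∉ pf (Ideal.span {b}) := fun h7 => hP (Finset.mem_filter.2 ⟨h7, by assumption⟩)
      rw [od_zero h6]
      norm_num
    calc (F1 m h b : ℝ) * W b ≤ _ := mul_le_mul_of_nonneg_right h3 (hS b hb).2.2.1
      _ = _ := by ring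
  refine (Finset.sum_le_sum h2).trans (h1.trans ?_)
  have h5 : c ^ B2.card ≤ c ^ B0.card := pow_le_pow_right₀ hc1 (by
    rw [hB2]
    exact Finset.card_filter_le _ _)
  calc c ^ B2.card * (κ * V) ≤ c ^ B0.card * (κ * V) :=
        mul_le_mul_of_nonneg_right h5 (by positivity)
    _ = _ := by rw [hκ]; ring

end H37.DG
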