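import Pool.Agent.H37.DG.Dsum

/-!
# Deg2 (T3, MP_b39724): the number of classes for `c1 = c2 = 0`
-/

set_option autoImplicit false

open scoped NumberField
open H88.A4 Pool.Agent.H67.WA H88.WS

noncomputable section

namespace H37.DG

variable {K : Type} [Field K] [NumberField K]

theorem od_mul {I J : Ideal (𝓞 K)} (hI : I ≠ ⊥) (hJ : J ≠ ⊥) (P : Ideal (𝓞 K)) :
    od P (I * J) = od P I + od P J := by
  classical
  unfold od
  rw [UniqueFactorizationMonoid.normalizedFactors_mul hI hJ, Multiset.count_add]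

omit [NumberField K] in
theorem span_E (b k : 𝓞 K) : (Ideal.span {-(b * k) ^ 2} : Ideal (𝓞 K)) =
    (Ideal.span {b} * Ideal.span {k}) * (Ideal.span {b} * Ideal.span {k}) := by
  rw [Ideal.span_singleton_neg, Ideal.span_singleton_mul_span_singleton,
    Ideal.span_singleton_mul_span_singleton, pow_two]

theorem od_E {b k : 𝓞 K} (hb : b ≠ 0) (hk : k ≠ 0) (P : Ideal (𝓞 K)) :
    od P (Ideal.span {-(b * k) ^ 2}) = 2 * (od P (Ideal.span {b}) + od P (Ideal.span {k})) := by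
  have h1 : (Ideal.span {b} * Ideal.span {k} : Ideal (𝓞 K)) ≠ ⊥ := by
    rw [Ne, Ideal.mul_eq_bot, not_or]
    exact ⟨span_ne hb, span_ne hk⟩
  rw [span_E, od_mul h1 h1, od_mul (span_ne hb) (span_ne hk)]
  ring

omit [NumberField K] in
theorem one_le_fb (m : ℕ) (h P : Ideal (𝓞 K)) (a : ℕ) : 1 ≤ fb m h P a := by
  unfold fb
  split_ifs
  · exact le_rfl
  · exact Nat.one_le_pow _ _ (Nat.succ_pos a)
  · exact Nat.succ_le_succ (Nat.zero_le a)

omit [NumberField K] in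
theorem fb_zero (m : ℕ) (h P : Ideal (𝓞 K)) : fb m h P 0 = 1 := by
  unfold fb
  split_ifs <;> simp

omit [NumberField K] in
theorem fb_le (m : ℕ) (h P : Ideal (𝓞 K)) (a : ℕ) : fb m h P a ≤ (a + 1) ^ 96 := by
  have h1 : 1 ≤ (a + 1) ^ 96 := Nat.one_le_pow _ _ (Nat.succ_pos a)
  unfold fb
  split_ifs
  · exact h1
  · exact le_rfl
  · exact Nat.le_self_pow (by norm_num) _

private theorem aux1 (a c : ℕ) : 2 * (a + c) + 1 ≤ ((a + 1) * (c + 1)) ^ 2 := by
  have h1 : 1 ≤ a + 1 := by omega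
  have h2 : 2 * (a + c) + 1 ≤ (2 * a + 1) * (2 * c + 1) := by
    have : (2 * a + 1) * (2 * c + 1) = 2 * (a + c) + 1 + 4 * (a * c) := by ring
    omega
  have h3 : ∀ x : ℕ, 2 * x + 1 ≤ (x + 1) ^ 2 := fun x => by
    have : (x + 1) ^ 2 = 2 * x + 1 + x * x := by ring
    omega
  rw [mul_pow]
  exact h2.trans (Nat.mul_le_mul (h3 a) (h3 c))

private theorem aux2 (a c : ℕ) (h : 1 ≤ c) : 2 * (a + c) + 1 ≤ (a + 1) * (c + 1) ^ 2 := by
  have h11 : a ≤ a * c := Nat.le_mul_of_pos_right a h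
  have h1 : (a + 1) * (c + 1) ^ 2 = a + 2 * (a * c) + a * (c * c) + (2 * c + 1 + c * c) := by ring
  have h2 : 0 ≤ a * (c * c) := Nat.zero_le _
  omega

/-- the local factor -/
theorem lf0_le {m : ℕ} {b k : 𝓞 K} (hb : b ≠ 0) (hk : k ≠ 0) (h g : Ideal (𝓞 K))
    {P : Ideal (𝓞 K)} (hP : P ∈ pf (Ideal.span {-(b * k) ^ 2})) :
    lf0 m k (h * g) P (od P (Ideal.span {-(b * k) ^ 2})) ≤
      fb m h P (od P (Ideal.span {b})) * (od P (Ideal.span {k}) + 1) ^ 96 := by
  obtain ⟨hp1, hp2⟩ := pf_prime' hP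
  rw [od_E hb hk]
  obtain ⟨a, ha⟩ : ∃ a, a = od P (Ideal.span {b}) := ⟨_, rfl⟩
  obtain ⟨c, hc⟩ : ∃ c, c = od P (Ideal.span {k}) := ⟨_, rfl⟩
  rw [← ha, ← hc]
  have h1 : 1 ≤ (c + 1) ^ 96 := Nat.one_le_pow _ _ (Nat.succ_pos c)
  by_cases h2 : h * g ≤ P
  · have : lf0 m k (h * g) P (2 * (a + c)) = 1 := by
      unfold lf0
      rw [if_pos h2]
    rw [this]
    exact Nat.mul_le_mul (one_le_fb m h P a) h1
  · have h3 : ¬ h ≤ P := fun h4 => h2 (Ideal.mul_le_left.trans h4)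
    by_cases h5 : (m : 𝓞 K) ∈ P
    · have e1 : lf0 m k (h * g) P (2 * (a + c)) = (2 * (a + c) + 1) ^ 48 := by
        unfold lf0
        rw [if_neg h2, if_pos h5]
      have e2 : fb m h P a = (a + 1) ^ 96 := by
        unfold fb
        rw [if_neg h3, if_pos h5]
      rw [e1, e2, ← mul_pow]
      have e3 : 2 * (a + c) + 1 ≤ ((a + 1) * (c + 1)) ^ 2 := aux1 a c
      calc (2 * (a + c) + 1) ^ 48 ≤ (((a + 1) * (c + 1)) ^ 2) ^ 48 := Nat.pow_le_pow_left e3 48
        _ = ((a + 1) * (c + 1)) ^ 96 := by rw [← pow_mul]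
    · have e2 : fb m h P a = a + 1 := by
        unfold fb
        rw [if_neg h3, if_neg h5]
      rw [e2]
      by_cases h6 : k ∈ P
      · have e1 : lf0 m k (h * g) P (2 * (a + c)) = 2 * (a + c) + 1 := by
          unfold lf0
          rw [if_neg h2, if_neg h5, if_pos h6]
        have h7 : P ∈ pf (Ideal.span {k}) :=
          mem_pf (span_ne hk) hp1 hp2 ((Ideal.span_singleton_le_iff_mem P).2 h6)
        have h8 : 1 ≤ c := by
          rw [hc]
          classical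
          unfold od pf at *
          exact Multiset.one_le_count_iff_mem.2 (Multiset.mem_toFinset.1 h7)
        rw [e1]
        have h9 : (c + 1) ^ 2 ≤ (c + 1) ^ 96 := Nat.pow_le_pow_right (Nat.succ_pos c) (by norm_num)
        exact (aux2 a c h8).trans (Nat.mul_le_mul_left _ h9)
      · have e1 : lf0 m k (h * g) P (2 * (a + c)) = 2 := by
          unfold lf0
          rw [if_neg h2, if_neg h5, if_neg h6]
        have h7 : P ∉ pf (Ideal.span {k}) := fun h' =>
          h6 (pf_le h' (Ideal.mem_span_singleton_self _))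
        have h8 : c = 0 := by rw [hc, od_zero h7]
        have h9 : 1 ≤ a := by
          have h10 : P ∈ pf (Ideal.span {b}) := by
            have h11 := pf_le hP (Ideal.mem_span_singleton_self _)
            have h12 : (b * k) ^ 2 ∈ P := by simpa using P.neg_mem h11
            rcases hp1.mem_or_mem (hp1.mem_of_pow_mem 2 h12) with h13 | h13
            · exact mem_pf (span_ne hb) hp1 hp2 ((Ideal.span_singleton_le_iff_mem P).2 h13)
            · exact absurd h13 h6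
          rw [ha]
          classical
          unfold od pf at *
          exact Multiset.one_le_count_iff_mem.2 (Multiset.mem_toFinset.1 h10)
        rw [e1, h8]
        simp only [zero_add, one_pow, mul_one]
        omega

theorem fc0_le (m : ℕ) {b k : 𝓞 K} (hb : b ≠ 0) (hk : k ≠ 0) (h g : Ideal (𝓞 K)) :
    Fc0 m k (h * g) (-(b * k) ^ 2) ≤ F1 m h b *
      (∏ P ∈ pf (Ideal.span {k}), (od P (Ideal.span {k}) + 1)) ^ 96 := by
  have hbk : (-(b * k) ^ 2 : 𝓞 K) ≠ 0 := neg_ne_zero.2 (pow_ne_zero 2 (mul_ne_zero hb hk))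
  have h1 : (Ideal.span {-(b * k) ^ 2} : Ideal (𝓞 K)) ≤ Ideal.span {b} := by
    rw [Ideal.span_singleton_le_span_singleton]
    exact ⟨-(k * (b * k)), by ring⟩
  have h2 : (Ideal.span {-(b * k) ^ 2} : Ideal (𝓞 K)) ≤ Ideal.span {k} := by
    rw [Ideal.span_singleton_le_span_singleton]
    exact ⟨-(b * (b * k)), by ring⟩
  have s1 : pf (Ideal.span {b}) ⊆ pf (Ideal.span {-(b * k) ^ 2}) := fun P hP =>
    mem_pf (span_ne hbk) (pf_prime' hP).1 (pf_prime' hP).2 (h1.trans (pf_le hP))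
  have s2 : pf (Ideal.span {k}) ⊆ pf (Ideal.span {-(b * k) ^ 2}) := fun P hP =>
    mem_pf (span_ne hbk) (pf_prime' hP).1 (pf_prime' hP).2 (h2.trans (pf_le hP))
  unfold Fc0 F1
  refine (Finset.prod_le_prod' fun P hP => lf0_le hb hk h g hP).trans (le_of_eq ?_)
  rw [Finset.prod_mul_distrib, ← Finset.prod_pow]
  congr 1
  · exact (Finset.prod_subset s1 fun P _ hP => by rw [od_zero hP, fb_zero]).symm
  · exact (Finset.prod_subset s2 fun P _ hP => by rw [od_zero hP]; norm_num).symm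

variable (K)

theorem fc0_bd (ε : ℝ) (hε : 0 < ε) : ∃ C : ℝ, 1 ≤ C ∧
    (∀ (m : ℕ) (h g : Ideal (𝓞 K)) (b k : 𝓞 K), b ≠ 0 → k ≠ 0 →
      (Fc0 m k (h * g) (-(b * k) ^ 2) : ℝ) ≤ C * nz k ^ ε * F1 m h b) ∧
    (∀ (m : ℕ) (h : Ideal (𝓞 K)) (b : 𝓞 K), b ≠ 0 → (F1 m h b : ℝ) ≤ C * nz b ^ ε) := by
  obtain ⟨C, hC, hC2⟩ := tau_le K (ε / 96) (by positivity)
  have key : ∀ b : 𝓞 K, b ≠ 0 → (∏ P ∈ pf (Ideal.span {b}), ((od P (Ideal.span {b}) : ℝ) + 1)) ^ 96
      ≤ C ^ 96 * nz b ^ ε := by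
    intro b hb
    refine (pow_le_pow_left₀ (Finset.prod_nonneg fun _ _ => by positivity)
      (hC2 _ (span_ne hb)) 96).trans (le_of_eq ?_)
    rw [mul_pow, nz_ni, ← Real.rpow_natCast (ni _ ^ (ε / 96)), ← Real.rpow_mul (ni_nonneg _)]
    congr 2
    push_cast
    ring
  refine ⟨C ^ 96, one_le_pow₀ hC, fun m h g b k hb hk => ?_, fun m h b hb => ?_⟩
  · have h1 := fc0_le m hb hk h g
    have h2 : (Fc0 m k (h * g) (-(b * k) ^ 2) : ℝ) ≤ F1 m h b *
        (∏ P ∈ pf (Ideal.span {k}), ((od P (Ideal.span {k}) : ℝ) + 1)) ^ 96 := by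
      exact_mod_cast h1
    refine h2.trans ?_
    rw [mul_comm]
    exact mul_le_mul_of_nonneg_right (key k hk) (Nat.cast_nonneg _)
  · refine le_trans ?_ (key b hb)
    unfold F1
    rw [← Finset.prod_pow]
    push_cast
    refine Finset.prod_le_prod (fun _ _ => Nat.cast_nonneg _) fun P _ => ?_
    exact_mod_cast fb_le m h P _

end H37.DG
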