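import Pool.Agent.H37.DG.Lay2
import Pool.Agent.H37.WS.Shp

/-!
# Deg2 (T3, MP_b39724): the sum over `b1`
-/

set_option autoImplicit false

open scoped NumberField
open NumberField Finset H88.A4 Pool.Agent.H67.WA H88.WS

noncomputable section

namespace H37.DG

variable (K : Type) [Field K] [NumberField K]

/-- the sum of `∏ w ^ (-θ)` over the `b1` in an ideal -/
theorem wsum {θ : ℝ} (h0 : 0 ≤ θ) (h1 : θ < 1) {C1 : ℝ} (hC1 : 1 ≤ C1) : ∃ C : ℝ, 1 ≤ C ∧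
    ∀ s t : ℝ, 0 < s → 0 < t → ∀ k : 𝓞 K, k ≠ 0 → ∀ I : Ideal (𝓞 K), I ≠ ⊥ → ∀ S : Finset (𝓞 K),
      (∀ b ∈ S, b ≠ 0 ∧ b ∈ I ∧ ∀ φ, sz φ (b * k) ≤ C1 * (s * t)) →
      ∑ b ∈ S, pw θ (wq s t k b) ≤ C * ((s * t) ^ Module.finrank ℚ K * (nz k)⁻¹) * (ni I)⁻¹ := by
  classical
  obtain ⟨Cs, hCs, hshp⟩ := Pool.Agent.H37.WS.shp (κ := K →+* ℂ) h0 h1
  obtain ⟨Cf, hCf, hf⟩ := f1n K
  obtain ⟨d, hd⟩ : ∃ d : ℕ, d = Module.finrank ℚ K := ⟨_, rfl⟩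
  have hC10 : 0 < C1 := by linarith
  have hC1d : 1 ≤ (C1 ^ (1 - θ)) ^ d := one_le_pow₀ (Real.one_le_rpow hC1 (by linarith))
  refine ⟨Cs * Cf * (C1 ^ (1 - θ)) ^ d,
    one_le_mul_of_one_le_of_one_le (one_le_mul_of_one_le_of_one_le hCs hCf) hC1d,
    fun s t hs ht k hk I hI S hS => ?_⟩
  have hst : 0 < s * t := mul_pos hs ht
  have hnk := nz_pos hk
  have hnI : 0 < ni I := lt_of_lt_of_le one_pos (one_le_ni hI)
  rw [← hd]
  have key := hshp (𝓞 K) S (fun b φ => wq s t k b φ) (fun _ => C1)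
    (Cf * ((s * t) ^ d * (nz k)⁻¹) * (ni I)⁻¹) (by positivity) (fun _ => hC10) ?_ ?_
  · have e1 : ∏ _v : K →+* ℂ, C1 ^ (1 - θ) = (C1 ^ (1 - θ)) ^ d := by
      rw [hd]
      exact vol_const (K := K) _
    rw [e1] at key
    refine key.trans (le_of_eq ?_)
    ring
  · intro b hb φ
    obtain ⟨hb0, hbI, hbs⟩ := hS b hb
    exact ⟨div_pos (sz_pos φ (mul_ne_zero hb0 hk)) hst, (div_le_iff₀ hst).2 (hbs φ)⟩
  · intro η hη S' hS' _ hSη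
    have h2 := hf I hI (fun φ => η φ * (s * t) / sz φ k)
      (fun φ => by
        have := (hη φ).1
        have := sz_nonneg φ k
        positivity) S' (fun b hb => ?_)
    · refine h2.trans (le_of_eq ?_)
      have h3 : vol (fun φ => η φ * (s * t) / sz φ k) = vol η * (s * t) ^ d / nz k := by
        rw [vol_div (fun φ => η φ * (s * t)) (fun φ => sz φ k), vol_mul_const, hd]
        rfl
      rw [h3]
      unfold vol
      ring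
    · obtain ⟨hb0, hbI, hbs⟩ := hS b (hS' hb)
      refine ⟨hb0, hbI, fun φ => ?_⟩
      have h3 := hSη b hb φ
      unfold wq at h3
      rw [div_le_iff₀ hst, sz_mul] at h3
      rw [le_div_iff₀ (sz_pos φ hk)]
      exact h3

theorem lay1 {C1 δ : ℝ} (hC1 : 1 ≤ C1) (hδ : 0 < δ) (hδ8 : δ < 1 / 8) {m : ℕ} (hm : m ≠ 0) :
    ∃ C : ℝ, 1 ≤ C ∧
    ∀ s t H : ℝ, Rg C1 s t → s ≤ H → 1 ≤ H → ∀ (h gc : Ideal (𝓞 K)) (k : 𝓞 K)
      (S : Finset (Blk (𝓞 K))) (W : Blk (𝓞 K) → ℝ) (Z : ℝ), 0 ≤ Z → h ≠ ⊥ → k ≠ 0 →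
      Squarefree gc → IsCoprime h gc →
      (∀ β ∈ S, Nb C1 s t β ∧ β.All (Bd H) ∧ β.c3 = k ∧ (β.b1 ∈ h ∧ β.b2 ∈ h ∧ β.b3 ∈ h) ∧
        (β.c3 ∈ gc ∧ β.D1 ∈ gc) ∧
        W β ≤ (ni h * ni gc) * ((Z * F1 m h β.b1 * pw (3 / 2 + 2 * δ) (wq s t k β.b1)) *
          pw δ (xq s β.D1)) ∧
        W β ≤ (ni h * ni gc) * ((Z * F1 m h β.b1 * pw (3 / 4 + 2 * δ) (wq s t k β.b1)) *
          pw (3 / 4 + δ) (xq s β.D1))) →
      ∑ β ∈ S, W β ≤ C * Z * ((s * t) ^ Module.finrank ℚ K * (nz k)⁻¹) *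
        ((s ^ 2) ^ Module.finrank ℚ K * (1 + Real.log H) * ((ni h)⁻¹) ^ 2 +
          (s * t) ^ Module.finrank ℚ K *
          H ^ (δ * ((2 * (Module.finrank ℚ K : ℝ) + 3) * Module.finrank ℚ K)) * (ni h)⁻¹) := by
  classical
  obtain ⟨C2, hC2, h2⟩ := lay2 K hC1 hδ (by linarith)
  obtain ⟨Cd, hCd, hdsum⟩ := dsum (K := K) m hm
  obtain ⟨Ct, hCt, -, hF⟩ := fc0_bd K δ hδ
  obtain ⟨Cv, hCv, hwa⟩ := wsum K (θ := 3 / 4 + 2 * δ) (by linarith) (by linarith) hC1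
  obtain ⟨Cw, hCw, hwb⟩ := wsum K (θ := 1 / 2 + 2 * δ) (by linarith) (by linarith) hC1
  obtain ⟨d, hd⟩ : ∃ d : ℕ, d = Module.finrank ℚ K := ⟨_, rfl⟩
  obtain ⟨C, hC⟩ : ∃ C : ℝ, C = C2 * (Cd * Cv * (d + 1)) + C2 * (Ct * Cw) := ⟨_, rfl⟩
  have hCa : 1 ≤ C2 * (Cd * Cv * ((d : ℝ) + 1)) := by
    have hd0 : (0 : ℝ) ≤ d := Nat.cast_nonneg d
    exact one_le_mul_of_one_le_of_one_le hC2 (one_le_mul_of_one_le_of_one_le
      (one_le_mul_of_one_le_of_one_le hCd hCv) (by linarith))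
  have hCb : 1 ≤ C2 * (Ct * Cw) :=
    one_le_mul_of_one_le_of_one_le hC2 (one_le_mul_of_one_le_of_one_le hCt hCw)
  refine ⟨C, by rw [hC]; linarith, fun s t H hRg hsH hH h gc k S W Z hZ hh hk hsq hcop hS => ?_⟩
  obtain ⟨ht, hs⟩ := pos_of_rg hC1 hRg
  have hst : 0 < s * t := mul_pos hs ht
  have hH0 : 0 < H := by linarith
  have hlH : 0 ≤ Real.log H := Real.log_nonneg hH
  rw [← hd]
  have hnk := nz_pos hk
  have hnh : 0 < ni h := lt_of_lt_of_le one_pos (one_le_ni hh)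
  obtain ⟨G, hG⟩ : ∃ G : ℝ, G = H ^ (δ * ((2 * (d : ℝ) + 2) * d)) := ⟨_, rfl⟩
  have hG0 : 0 < G := by rw [hG]; positivity
  have hG2 : H ^ (δ * ((2 * (d : ℝ) + 3) * d)) = G * (H ^ d) ^ δ := by
    rw [hG, ← Real.rpow_natCast H d, ← Real.rpow_mul hH0.le, ← Real.rpow_add hH0]
    congr 1
    ring
  have hGd0 : 0 < (H ^ d) ^ δ := by positivity
  obtain ⟨B, hB⟩ : ∃ B : Finset (𝓞 K), B = S.image fun β => β.b1 := ⟨_, rfl⟩
  have hBp : ∀ b ∈ B, b ≠ 0 ∧ b ∈ h ∧ nz b ≤ H ^ d ∧ ∀ φ, sz φ (b * k) ≤ C1 * (s * t) := by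
    intro b hb
    rw [hB] at hb
    obtain ⟨β, hβ, rfl⟩ := Finset.mem_image.1 hb
    obtain ⟨hN, hall, e1, ⟨m1, -⟩, -⟩ := hS β hβ
    refine ⟨hN.b1, m1, ?_, fun φ => ?_⟩
    · have := nz_le_vol (R := fun _ => H) fun φ => hall.1 φ
      rwa [vol_const, ← hd] at this
    · have := hN.bk φ
      rwa [e1] at this
  have hw0 : ∀ b ∈ B, ∀ φ, 0 < wq s t k b φ := fun b hb φ =>
    div_pos (sz_pos φ (mul_ne_zero (hBp b hb).1 hk)) hst
  -- the fibre of `b`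
  have hfib : ∀ b ∈ B, ∑ β ∈ S.filter (fun β => β.b1 = b), W β ≤
      C2 * Z * ((s ^ 2) ^ d * (ni h)⁻¹) * ((F1 m h b : ℝ) * pw (3 / 4 + 2 * δ) (wq s t k b)) +
      C2 * Z * ((s * t) ^ d * (G * (Ct * (H ^ d) ^ δ))) * pw (1 / 2 + 2 * δ) (wq s t k b) := by
    intro b hb
    obtain ⟨hb0, hbh, hbn, hbk⟩ := hBp b hb
    have hp1 := pw_pos (3 / 2 + 2 * δ) (hw0 b hb)
    have hp2 := pw_pos (3 / 4 + 2 * δ) (hw0 b hb)
    have hp3 := pw_pos (1 / 2 + 2 * δ) (hw0 b hb)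
    have hF0 : (0 : ℝ) ≤ F1 m h b := Nat.cast_nonneg _
    have h3 := h2 s t H hRg hsH hH h gc k b (S.filter fun β => β.b1 = b) W
      (Z * F1 m h b * pw (3 / 4 + 2 * δ) (wq s t k b))
      (Z * F1 m h b * pw (3 / 2 + 2 * δ) (wq s t k b)) (by positivity) (by positivity) hb0 hk
      hsq hcop (fun β hβ => by
        obtain ⟨hβ1, hβ2⟩ := Finset.mem_filter.1 hβ
        obtain ⟨hN, hall, e1, m1, m2, w1, w2⟩ := hS β hβ1
        rw [hβ2] at w1 w2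
        exact ⟨hN, hβ2, e1, m1, m2, w1, w2⟩)
    rw [← hd, ← hG] at h3
    have e2 : pw (3 / 2 + 2 * δ) (wq s t k b) * (nz b * nz k) =
        (s * t) ^ d * pw (1 / 2 + 2 * δ) (wq s t k b) := by
      have e3 : nz b * nz k = (s * t) ^ d * pw (-1) (wq s t k b) := by
        unfold pw wq
        rw [← nz_mul, hd, ← vol_const (K := K) (s * t)]
        unfold nz vol
        rw [← Finset.prod_mul_distrib]
        refine Finset.prod_congr rfl fun φ _ => ?_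
        rw [neg_neg, Real.rpow_one, mul_div_cancel₀ _ hst.ne']
      rw [e3]
      have e4 := pw_add (3 / 2 + 2 * δ) (-1) (hw0 b hb)
      have e5 : (3 / 2 + 2 * δ + -1 : ℝ) = 1 / 2 + 2 * δ := by ring
      rw [e5] at e4
      rw [← e4]
      ring
    have e3 : (F1 m h b : ℝ) ≤ Ct * (H ^ d) ^ δ :=
      (hF m h b hb0).trans (mul_le_mul_of_nonneg_left
        (Real.rpow_le_rpow (nz_nonneg _) hbn hδ.le) (by linarith))
    calc ∑ β ∈ S.filter (fun β => β.b1 = b), W β ≤ _ := h3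
      _ = C2 * Z * ((s ^ 2) ^ d * (ni h)⁻¹) * ((F1 m h b : ℝ) * pw (3 / 4 + 2 * δ) (wq s t k b)) +
          C2 * Z * (G * F1 m h b) * (pw (3 / 2 + 2 * δ) (wq s t k b) * (nz b * nz k)) := by ring
      _ = C2 * Z * ((s ^ 2) ^ d * (ni h)⁻¹) * ((F1 m h b : ℝ) * pw (3 / 4 + 2 * δ) (wq s t k b)) +
          C2 * Z * (G * F1 m h b) * ((s * t) ^ d * pw (1 / 2 + 2 * δ) (wq s t k b)) := by rw [e2]
      _ ≤ C2 * Z * ((s ^ 2) ^ d * (ni h)⁻¹) * ((F1 m h b : ℝ) * pw (3 / 4 + 2 * δ) (wq s t k b)) +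
          C2 * Z * (G * (Ct * (H ^ d) ^ δ)) *
            ((s * t) ^ d * pw (1 / 2 + 2 * δ) (wq s t k b)) := by
          refine add_le_add le_rfl (mul_le_mul_of_nonneg_right ?_ (by positivity))
          exact mul_le_mul_of_nonneg_left (mul_le_mul_of_nonneg_left e3 hG0.le) (by positivity)
      _ = _ := by ring
  have h3 : ∑ β ∈ S, W β = ∑ b ∈ B, ∑ β ∈ S.filter (fun β => β.b1 = b), W β := by
    rw [hB]
    exact (Finset.sum_fiberwise_of_maps_to (fun b hb => Finset.mem_image_of_mem _ hb) _).symm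
  -- the two sums over `b`
  have h4 : ∑ b ∈ B, (F1 m h b : ℝ) * pw (3 / 4 + 2 * δ) (wq s t k b) ≤
      Cd * (Cv * ((s * t) ^ d * (nz k)⁻¹) * (1 + Real.log (H ^ d)) * (ni h)⁻¹) := by
    refine hdsum h hh B (fun b => pw (3 / 4 + 2 * δ) (wq s t k b))
      (Cv * ((s * t) ^ d * (nz k)⁻¹)) (H ^ d) (by positivity) (one_le_pow₀ hH)
      (fun b hb => ⟨(hBp b hb).1, (hBp b hb).2.1, (pw_pos _ (hw0 b hb)).le, (hBp b hb).2.2.1⟩)
      (fun I hI S' hS' hSI => ?_)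
    have := hwa s t hs ht k hk I hI S' (fun b hb =>
      ⟨(hBp b (hS' hb)).1, hSI b hb, (hBp b (hS' hb)).2.2.2⟩)
    rw [← hd] at this
    exact this
  have h5 : ∑ b ∈ B, pw (1 / 2 + 2 * δ) (wq s t k b) ≤
      Cw * ((s * t) ^ d * (nz k)⁻¹) * (ni h)⁻¹ := by
    have := hwb s t hs ht k hk h hh B (fun b hb =>
      ⟨(hBp b hb).1, (hBp b hb).2.1, (hBp b hb).2.2.2⟩)
    rw [← hd] at this
    exact this
  have h6 : 1 + Real.log (H ^ d) ≤ (d + 1) * (1 + Real.log H) := by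
    rw [Real.log_pow]
    have hd0 : (0 : ℝ) ≤ d := Nat.cast_nonneg d
    nlinarith
  rw [h3]
  refine (Finset.sum_le_sum hfib).trans ?_
  rw [Finset.sum_add_distrib, ← Finset.mul_sum, ← Finset.mul_sum]
  have h7 : C2 * Z * ((s ^ 2) ^ d * (ni h)⁻¹) *
      ∑ b ∈ B, (F1 m h b : ℝ) * pw (3 / 4 + 2 * δ) (wq s t k b) ≤
      (C2 * (Cd * Cv * (d + 1))) * (Z * ((s * t) ^ d * (nz k)⁻¹) *
        ((s ^ 2) ^ d * (1 + Real.log H) * ((ni h)⁻¹) ^ 2)) := by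
    calc _ ≤ C2 * Z * ((s ^ 2) ^ d * (ni h)⁻¹) *
          (Cd * (Cv * ((s * t) ^ d * (nz k)⁻¹) * (1 + Real.log (H ^ d)) * (ni h)⁻¹)) :=
          mul_le_mul_of_nonneg_left h4 (by positivity)
      _ ≤ C2 * Z * ((s ^ 2) ^ d * (ni h)⁻¹) *
          (Cd * (Cv * ((s * t) ^ d * (nz k)⁻¹) * ((d + 1) * (1 + Real.log H)) * (ni h)⁻¹)) := by
          refine mul_le_mul_of_nonneg_left (mul_le_mul_of_nonneg_left
            (mul_le_mul_of_nonneg_right (mul_le_mul_of_nonneg_left h6 (by positivity))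
              (by positivity)) (by linarith)) (by positivity)
      _ = _ := by ring
  have h8 : C2 * Z * ((s * t) ^ d * (G * (Ct * (H ^ d) ^ δ))) *
      ∑ b ∈ B, pw (1 / 2 + 2 * δ) (wq s t k b) ≤
      (C2 * (Ct * Cw)) * (Z * ((s * t) ^ d * (nz k)⁻¹) *
        ((s * t) ^ d * (G * (H ^ d) ^ δ) * (ni h)⁻¹)) := by
    refine (mul_le_mul_of_nonneg_left h5 (by positivity)).trans (le_of_eq ?_)
    ring
  rw [hG2]
  refine (add_le_add h7 h8).trans ?_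
  obtain ⟨a, ha⟩ : ∃ a : ℝ, a = Z * ((s * t) ^ d * (nz k)⁻¹) *
        ((s ^ 2) ^ d * (1 + Real.log H) * ((ni h)⁻¹) ^ 2) := ⟨_, rfl⟩
  obtain ⟨b, hb⟩ : ∃ b : ℝ, b = Z * ((s * t) ^ d * (nz k)⁻¹) *
        ((s * t) ^ d * (G * (H ^ d) ^ δ) * (ni h)⁻¹) := ⟨_, rfl⟩
  have ha0 : 0 ≤ a := by rw [ha]; positivity
  have hb0 : 0 ≤ b := by rw [hb]; positivity
  calc _ ≤ C * a + C * b := by
        rw [← ha, ← hb]
        refine add_le_add (mul_le_mul_of_nonneg_right ?_ ha0) (mul_le_mul_of_nonneg_right ?_ hb0)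
        · rw [hC]; linarith
        · rw [hC]; linarith
    _ = _ := by rw [ha, hb]; ring

end H37.DG
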