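import Pool.Agent.H37.DG.Lay3

/-!
# Deg2 (T3, MP_b39724): the sum over `b2`, `b3`
-/

set_option autoImplicit false

open scoped NumberField
open NumberField Finset H88.A4 Pool.Agent.H67.WA H88.WS

noncomputable section

namespace H37.DG

variable (K : Type) [Field K] [NumberField K]

theorem lay2 {C1 δ : ℝ} (hC1 : 1 ≤ C1) (hδ : 0 < δ) (hδ4 : δ < 1 / 4) : ∃ C : ℝ, 1 ≤ C ∧
    ∀ s t H : ℝ, Rg C1 s t → s ≤ H → 1 ≤ H → ∀ (h gc : Ideal (𝓞 K)) (k b1 : 𝓞 K)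
      (S : Finset (Blk (𝓞 K))) (W : Blk (𝓞 K) → ℝ) (P Q : ℝ), 0 ≤ P → 0 ≤ Q → b1 ≠ 0 → k ≠ 0 →
      Squarefree gc → IsCoprime h gc →
      (∀ β ∈ S, Nb C1 s t β ∧ β.b1 = b1 ∧ β.c3 = k ∧ (β.b1 ∈ h ∧ β.b2 ∈ h ∧ β.b3 ∈ h) ∧
        (β.c3 ∈ gc ∧ β.D1 ∈ gc) ∧
        W β ≤ (ni h * ni gc) * (Q * pw δ (xq s β.D1)) ∧
        W β ≤ (ni h * ni gc) * (P * pw (3 / 4 + δ) (xq s β.D1))) →
      ∑ β ∈ S, W β ≤ C * (P * ((s ^ 2) ^ Module.finrank ℚ K * (ni h)⁻¹) +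
        Q * (nz b1 * nz k) *
          H ^ (δ * ((2 * (Module.finrank ℚ K : ℝ) + 2) * Module.finrank ℚ K))) := by
  classical
  obtain ⟨C3, hC3, h3⟩ := lay3 K hC1 hδ hδ4
  obtain ⟨Cf, hCf, hf⟩ := f1 K
  obtain ⟨d, hd⟩ : ∃ d : ℕ, d = Module.finrank ℚ K := ⟨_, rfl⟩
  have hC10 : 0 < C1 := by linarith
  have hCf0 : 0 < Cf := by linarith
  have hC30 : 0 < C3 := by linarith
  have hC1d : 1 ≤ C1 ^ d := one_le_pow₀ hC1
  obtain ⟨C, hC⟩ : ∃ C : ℝ, C = 2 * Cf * C1 ^ d * C3 := ⟨_, rfl⟩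
  have hC0 : 1 ≤ C := by
    rw [hC]
    have h1 : 1 ≤ Cf * C1 ^ d * C3 :=
      one_le_mul_of_one_le_of_one_le (one_le_mul_of_one_le_of_one_le hCf hC1d) hC3
    linarith
  refine ⟨C, hC0, fun s t H hRg hsH hH h gc k b1 S W P Q hP hQ hb1 hk hsq hcop hS => ?_⟩
  obtain ⟨ht, hs⟩ := pos_of_rg hC1 hRg
  have hH0 : 0 < H := by linarith
  rw [← hd]
  obtain ⟨G, hG⟩ : ∃ G : ℝ, G = H ^ (δ * ((2 * (d : ℝ) + 2) * d)) := ⟨_, rfl⟩
  have hG0 : 0 < G := by rw [hG]; positivity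
  rw [← hG]
  have hn1 := nz_pos hb1
  have hnk := nz_pos hk
  rcases S.eq_empty_or_nonempty with rfl | ⟨β0, hβ0⟩
  · rw [sum_empty]
    have := ni_nonneg h
    positivity
  obtain ⟨hN0, e10, e20, ⟨m10, m20, m30⟩, ⟨m40, m50⟩, -⟩ := hS β0 hβ0
  have hbh : b1 ∈ h := by rwa [e10] at m10
  have hkg : k ∈ gc := by rwa [e20] at m40
  have hh : h ≠ ⊥ := by
    intro h0
    rw [h0, Ideal.mem_bot] at hbh
    exact hb1 hbh
  have hgc0 : gc ≠ ⊥ := hsq.ne_zero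
  obtain ⟨A1, A2, g1, g2, g3, g4⟩ := sqf_split hgc0 hsq b1
  have hA1 : A1 ≠ ⊥ := by
    rintro rfl
    rw [Ideal.bot_mul] at g1
    exact hgc0 g1
  have hA2 : A2 ≠ ⊥ := by
    rintro rfl
    rw [Ideal.mul_bot] at g1
    exact hgc0 g1
  have hgA1 : gc ≤ A1 := by
    rw [g1]
    exact Ideal.mul_le_left
  have hgA2 : gc ≤ A2 := by
    rw [g1]
    exact Ideal.mul_le_right
  have hbA1 : b1 ∈ A1 := by
    rw [g2]
    exact (le_sup_right : Ideal.span {b1} ≤ _) (Ideal.mem_span_singleton_self _)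
  have hco : IsCoprime h A1 := by
    rw [g1] at hcop
    exact IsCoprime.of_mul_right_left hcop
  have hinf : h ⊓ A1 = h * A1 := (Ideal.mul_eq_inf_of_isCoprime hco).symm
  have hnh := one_le_ni hh
  have hnA1 := one_le_ni hA1
  have hnA2 := one_le_ni hA2
  have hgc : ni gc = ni A1 * ni A2 := by rw [g1, ni_mul]
  have hA2k : ni A2 ≤ nz k := by
    refine le_trans ?_ (ni_le_nz hkg hk)
    rw [hgc]
    exact le_mul_of_one_le_left (by linarith) hnA1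
  have hbI : ni h * ni A1 ≤ nz b1 := by
    rw [← ni_mul]
    refine ni_le_nz ?_ hb1
    rw [← hinf]
    exact ⟨hbh, hbA1⟩
  have hne : h * A1 ≠ ⊥ := by
    rw [Ne, Ideal.mul_eq_bot, not_or]
    exact ⟨hh, hA1⟩
  obtain ⟨g, hg⟩ : ∃ g : ℝ, g = ni h * ni gc := ⟨_, rfl⟩
  have hg0 : 0 ≤ g := by
    rw [hg]
    exact mul_nonneg (ni_nonneg _) (ni_nonneg _)
  have key := fibs S (fun β => β.b2) W
    (N := 2 * Cf * C1 ^ d * (nz b1 / (ni h * ni A1)))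
    (M := C3 * (g * P * ((s ^ 2) ^ d / (nz b1 * (ni h * ni A2))) + g * Q * G))
    (by positivity) ?_ ?_
  · refine key.trans ?_
    have e1 : 2 * Cf * C1 ^ d * (nz b1 / (ni h * ni A1)) *
        (C3 * (g * P * ((s ^ 2) ^ d / (nz b1 * (ni h * ni A2))) + g * Q * G)) =
        C * (P * ((s ^ 2) ^ d * (ni h)⁻¹) + Q * (nz b1 * ni A2) * G) := by
      rw [hC, hg, hgc]
      have h1 : ni h ≠ 0 := by linarith
      have h2 : ni A1 ≠ 0 := by linarith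
      have h3 : ni A2 ≠ 0 := by linarith
      have h4 : nz b1 ≠ 0 := hn1.ne'
      field_simp
    rw [e1]
    refine mul_le_mul_of_nonneg_left ?_ (by linarith)
    refine add_le_add le_rfl (mul_le_mul_of_nonneg_right ?_ hG0.le)
    exact mul_le_mul_of_nonneg_left (mul_le_mul_of_nonneg_left hA2k hn1.le) hQ
  · have h5 := hf (h * A1) hne (fun φ => C1 * sz φ b1)
      (fun φ => mul_nonneg hC10.le (sz_nonneg _ _)) (S.image fun β => β.b2) ?_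
    · refine h5.trans ?_
      have h6 : vol (fun φ => C1 * sz φ b1) = C1 ^ d * nz b1 := by
        rw [vol_smul, hd]
        rfl
      rw [h6, ni_mul]
      have h7 : 1 ≤ nz b1 / (ni h * ni A1) := (one_le_div (by positivity)).2 hbI
      have h8 : 1 ≤ C1 ^ d * (nz b1 / (ni h * ni A1)) := one_le_mul_of_one_le_of_one_le hC1d h7
      calc Cf * (1 + C1 ^ d * nz b1 / (ni h * ni A1))
          = Cf * (1 + C1 ^ d * (nz b1 / (ni h * ni A1))) := by rw [mul_div_assoc]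
        _ ≤ Cf * (2 * (C1 ^ d * (nz b1 / (ni h * ni A1)))) :=
            mul_le_mul_of_nonneg_left (by linarith) hCf0.le
        _ = _ := by ring
    · intro x hx
      obtain ⟨β, hβ, rfl⟩ := Finset.mem_image.1 hx
      obtain ⟨hN, e1, e2, ⟨m1, m2, m3⟩, ⟨m4, m5⟩, -⟩ := hS β hβ
      refine ⟨?_, fun φ => by rw [← e1]; exact hN.b2s φ⟩
      rw [← hinf]
      refine ⟨m2, g4 _ ?_⟩
      have : β.b2 ^ 2 = b1 * β.b3 - β.D1 := by
        unfold Blk.D1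
        rw [e1]
        ring
      rw [this]
      exact A1.sub_mem (A1.mul_mem_right _ hbA1) (hgA1 m5)
  · intro b2 _
    have h5 := h3 s t H hRg hsH hH h A2 k b1 b2 (S.filter fun β => β.b2 = b2) W (g * P) (g * Q)
      (mul_nonneg hg0 hP) (mul_nonneg hg0 hQ) hb1 hbh hA2 g3 (fun β hβ => by
        obtain ⟨hβ1, hβ2⟩ := Finset.mem_filter.1 hβ
        obtain ⟨hN, e1, e2, ⟨m1, m2, m3⟩, ⟨m4, m5⟩, w1, w2⟩ := hS β hβ1
        refine ⟨hN, e1, hβ2, e2, m3, hgA2 m5, ?_, ?_⟩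
        · rw [hg, mul_assoc]
          exact w1
        · rw [hg, mul_assoc]
          exact w2)
    rw [← hd, ← hG] at h5
    exact h5

end H37.DG
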