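import Pool.Agent.H37.WS.Shp

/-!
# Deg2 (T3, MP_b39724): a dyadic sum with two weights (Mathlib only)
-/

set_option autoImplicit false

namespace H37.DG

open Finset Pool.Agent.H37.WS

/-- increasing geometric sum, bounded by its last term -/
theorem geo_up {δ : ℝ} (hδ : 0 < δ) {R ρ : ℝ} (hρ : 0 < ρ) (hR : ρ ≤ R) (N : ℕ) :
    ∑ i ∈ (range N).filter (fun i => ρ ≤ R / 2 ^ i), (R / 2 ^ (i + 1)) ^ (-δ) ≤
      2 ^ δ * (1 - (2 : ℝ) ^ (-δ))⁻¹ * ρ ^ (-δ) := by
  have hR0 : 0 < R := by linarith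
  obtain ⟨q, hq⟩ : ∃ q : ℝ, q = (2 : ℝ) ^ (-δ) := ⟨_, rfl⟩
  have hq0 : 0 < q := by rw [hq]; exact Real.rpow_pos_of_pos (by norm_num) _
  have hq1 : q < 1 := by
    rw [hq]
    apply Real.rpow_lt_one_of_one_lt_of_neg (by norm_num)
    linarith
  rw [← hq]
  have hC : 0 < (1 - q)⁻¹ := inv_pos.2 (by linarith)
  rcases ((range N).filter (fun i => ρ ≤ R / 2 ^ i)).eq_empty_or_nonempty with he | hne
  · rw [he, sum_empty]
    positivity
  obtain ⟨m, hm, hmax⟩ := Finset.exists_max_image _ (fun i : ℕ => i) hne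
  have hmR : ρ ≤ R / 2 ^ m := (mem_filter.1 hm).2
  have hterm : ∀ i ∈ (range N).filter (fun i => ρ ≤ R / 2 ^ i),
      (R / 2 ^ (i + 1)) ^ (-δ) ≤ 2 ^ δ * ρ ^ (-δ) * q ^ (m - i) := by
    intro i hi
    have him : i ≤ m := hmax i hi
    have h1 : ρ * 2 ^ (m - i) / 2 ≤ R / 2 ^ (i + 1) := by
      rw [le_div_iff₀ (by positivity)] at hmR
      rw [div_le_div_iff₀ (by norm_num) (by positivity)]
      have h2 : (2 : ℝ) ^ m = 2 ^ (m - i) * 2 ^ i := by
        rw [← pow_add, Nat.sub_add_cancel him]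
      rw [h2] at hmR
      calc ρ * 2 ^ (m - i) * 2 ^ (i + 1) = ρ * (2 ^ (m - i) * 2 ^ i) * 2 := by ring
        _ ≤ R * 2 := mul_le_mul_of_nonneg_right hmR (by norm_num)
    have h2 : 0 < ρ * 2 ^ (m - i) / 2 := by positivity
    refine (Real.rpow_le_rpow_of_nonpos h2 h1 (by linarith)).trans (le_of_eq ?_)
    rw [Real.div_rpow (by positivity) (by norm_num), Real.mul_rpow hρ.le (by positivity),
      Real.rpow_neg (by norm_num : (0 : ℝ) ≤ 2), div_inv_eq_mul]
    have h3 : ((2 : ℝ) ^ (m - i)) ^ (-δ) = q ^ (m - i) := by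
      rw [hq, ← Real.rpow_natCast, ← Real.rpow_natCast, ← Real.rpow_mul (by norm_num),
        ← Real.rpow_mul (by norm_num), mul_comm]
    rw [h3]
    ring
  refine (sum_le_sum hterm).trans ?_
  rw [← mul_sum]
  have h4 : ∑ i ∈ (range N).filter (fun i => ρ ≤ R / 2 ^ i), q ^ (m - i) ≤ (1 - q)⁻¹ := by
    calc ∑ i ∈ (range N).filter (fun i => ρ ≤ R / 2 ^ i), q ^ (m - i)
        ≤ ∑ i ∈ range (m + 1), q ^ (m - i) := by
          refine sum_le_sum_of_subset_of_nonneg ?_ fun i _ _ => by positivity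
          intro i hi
          exact mem_range.2 (Nat.lt_succ_of_le (hmax i hi))
      _ = ∑ i ∈ range (m + 1), q ^ i := by
          rw [← sum_range_reflect]
          refine sum_congr rfl fun i hi => ?_
          have := mem_range.1 hi
          congr 1
          omega
      _ ≤ (1 - q)⁻¹ := by
          rw [← tsum_geometric_of_lt_one hq0.le hq1]
          exact (summable_geometric_of_lt_one hq0.le hq1).sum_le_tsum _ fun j _ => by positivity
  calc 2 ^ δ * ρ ^ (-δ) * ∑ i ∈ (range N).filter (fun i => ρ ≤ R / 2 ^ i), q ^ (m - i)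
      ≤ 2 ^ δ * ρ ^ (-δ) * (1 - q)⁻¹ := mul_le_mul_of_nonneg_left h4 (by positivity)
    _ = 2 ^ δ * (1 - q)⁻¹ * ρ ^ (-δ) := by ring

theorem shp2 {κ : Type} [Fintype κ] {θ δ : ℝ} (h0 : 0 ≤ θ) (h1 : θ < 1) (hδ : 0 < δ) :
    ∃ C : ℝ, 1 ≤ C ∧ ∀ (ι : Type) (S : Finset ι) (D : ι → κ → ℝ) (R ρ : κ → ℝ) (w : ι → ℝ)
      (N0 M P Q : ℝ), 0 ≤ N0 → 0 ≤ M → 0 ≤ P → 0 ≤ Q → (∀ v, 0 < ρ v ∧ ρ v ≤ R v) →
    (∀ t ∈ S, ∀ v, ρ v ≤ D t v ∧ D t v ≤ R v) →
    (∀ t ∈ S, w t ≤ P * ∏ v, (D t v) ^ (-θ)) → (∀ t ∈ S, w t ≤ Q * ∏ v, (D t v) ^ (-δ)) →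
    (∀ η : κ → ℝ, (∀ v, 0 < η v ∧ η v ≤ R v) → ∀ S' ⊆ S, S'.Nonempty →
      (∀ t ∈ S', ∀ v, D t v ≤ η v) → (S'.card : ℝ) ≤ N0 + M * ∏ v, η v) →
    ∑ t ∈ S, w t ≤ C * (P * M * ∏ v, (R v) ^ (1 - θ) + Q * N0 * ∏ v, (ρ v) ^ (-δ)) := by
  classical
  obtain ⟨q, hq⟩ : ∃ q : ℝ, q = (2 : ℝ) ^ (-(1 - θ)) := ⟨_, rfl⟩
  have hq0 : 0 < q := by rw [hq]; exact Real.rpow_pos_of_pos (by norm_num) _
  have hq1 : q < 1 := by
    rw [hq]
    apply Real.rpow_lt_one_of_one_lt_of_neg (by norm_num)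
    linarith
  obtain ⟨B, hB⟩ : ∃ B : ℝ, B = 2 ^ θ * (1 - q)⁻¹ := ⟨_, rfl⟩
  have hB1 : 1 ≤ B := by
    rw [hB]
    have h2 : (1 : ℝ) ≤ 2 ^ θ := Real.one_le_rpow (by norm_num) h0
    have h3 : (1 : ℝ) ≤ (1 - q)⁻¹ := (one_le_inv₀ (by linarith)).2 (by linarith)
    nlinarith
  obtain ⟨B', hB'⟩ : ∃ B' : ℝ, B' = 2 ^ δ * (1 - (2 : ℝ) ^ (-δ))⁻¹ := ⟨_, rfl⟩
  have hB'1 : 1 ≤ B' := by
    rw [hB']
    have h2 : (1 : ℝ) ≤ 2 ^ δ := Real.one_le_rpow (by norm_num) hδ.le
    have h4 : (2 : ℝ) ^ (-δ) < 1 := by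
      apply Real.rpow_lt_one_of_one_lt_of_neg (by norm_num)
      linarith
    have h5 : 0 < (2 : ℝ) ^ (-δ) := Real.rpow_pos_of_pos (by norm_num) _
    have h3 : (1 : ℝ) ≤ (1 - (2 : ℝ) ^ (-δ))⁻¹ := (one_le_inv₀ (by linarith)).2 (by linarith)
    nlinarith
  have hBn : 1 ≤ B ^ Fintype.card κ := one_le_pow₀ hB1
  have hB'n : 1 ≤ B' ^ Fintype.card κ := one_le_pow₀ hB'1
  refine ⟨B ^ Fintype.card κ + B' ^ Fintype.card κ, by linarith,
    fun ι S D R ρ w N0 M P Q hN0 hM hP hQ hρR hD hw1 hw2 hcl => ?_⟩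
  have hρ : ∀ v, 0 < ρ v := fun v => (hρR v).1
  have hRρ : ∀ v, ρ v ≤ R v := fun v => (hρR v).2
  have hR : ∀ v, 0 < R v := fun v => lt_of_lt_of_le (hρ v) (hRρ v)
  have hDp : ∀ t ∈ S, ∀ v, 0 < D t v := fun t ht v => lt_of_lt_of_le (hρ v) (hD t ht v).1
  let g : ι → κ → ℕ := fun t v => ⌊Real.logb 2 (R v / D t v)⌋₊
  obtain ⟨N, hN⟩ : ∃ N : ℕ, ∀ t ∈ S, ∀ v, g t v < N := by
    refine ⟨(S.sup fun t => univ.sup fun v => g t v) + 1, fun t ht v => ?_⟩
    have h2 : g t v ≤ univ.sup fun v => g t v := Finset.le_sup (f := fun v => g t v) (mem_univ v)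
    have h3 : (univ.sup fun v => g t v) ≤ S.sup fun t => univ.sup fun v => g t v :=
      Finset.le_sup (f := fun t => univ.sup fun v => g t v) ht
    omega
  have hgt : ∀ t ∈ S, ∀ v, (2 : ℝ) ^ (g t v) * D t v ≤ R v ∧ R v < 2 ^ (g t v + 1) * D t v := by
    intro t ht v
    have hp := hDp t ht v
    have hle := (hD t ht v).2
    have h2 : 1 ≤ R v / D t v := (one_le_div hp).2 hle
    have h3 : 0 ≤ Real.logb 2 (R v / D t v) := Real.logb_nonneg (by norm_num) h2
    have h4 : (2 : ℝ) ^ Real.logb 2 (R v / D t v) = R v / D t v :=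
      Real.rpow_logb (by norm_num) (by norm_num) (by positivity)
    have h5 : ((g t v : ℕ) : ℝ) ≤ Real.logb 2 (R v / D t v) := Nat.floor_le h3
    have h6 : Real.logb 2 (R v / D t v) < (g t v : ℕ) + 1 := Nat.lt_floor_add_one _
    constructor
    · have h7 : (2 : ℝ) ^ (g t v) ≤ R v / D t v := by
        rw [← h4, ← Real.rpow_natCast]
        exact Real.rpow_le_rpow_of_exponent_le (by norm_num) h5
      rwa [le_div_iff₀ hp] at h7
    · have h7 : R v / D t v < (2 : ℝ) ^ (g t v + 1) := by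
        rw [← h4, ← Real.rpow_natCast]
        apply Real.rpow_lt_rpow_of_exponent_lt (by norm_num)
        push_cast
        exact h6
      rwa [div_lt_iff₀ hp] at h7
  let T : Finset (κ → ℕ) := Fintype.piFinset fun v => (range N).filter fun i => ρ v ≤ R v / 2 ^ i
  have hmap : ∀ t ∈ S, g t ∈ T := by
    intro t ht
    refine Fintype.mem_piFinset.2 fun v => mem_filter.2 ⟨mem_range.2 (hN t ht v), ?_⟩
    rw [le_div_iff₀ (by positivity), mul_comm]
    exact (mul_le_mul_of_nonneg_left (hD t ht v).1 (by positivity)).trans (hgt t ht v).1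
  rw [← Finset.sum_fiberwise_of_maps_to hmap]
  have hfib : ∀ j ∈ T, ∑ t ∈ S.filter (fun t => g t = j), w t ≤
      P * M * ∏ v, (2 ^ θ * q ^ (j v) * (R v) ^ (1 - θ)) +
        Q * N0 * ∏ v, (R v / 2 ^ (j v + 1)) ^ (-δ) := by
    intro j _
    have hnn1 : 0 ≤ P * M * ∏ v, (2 ^ θ * q ^ (j v) * (R v) ^ (1 - θ)) := by
      refine mul_nonneg (mul_nonneg hP hM) (prod_nonneg fun v _ => ?_)
      have := hR v
      positivity
    have hnn2 : 0 ≤ Q * N0 * ∏ v, (R v / 2 ^ (j v + 1)) ^ (-δ) := by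
      refine mul_nonneg (mul_nonneg hQ hN0) (prod_nonneg fun v _ => ?_)
      have := hR v
      positivity
    rcases (S.filter fun t => g t = j).eq_empty_or_nonempty with he | hne
    · rw [he, sum_empty]
      linarith
    have hη : ∀ v, 0 < R v / 2 ^ (j v) ∧ R v / 2 ^ (j v) ≤ R v := by
      intro v
      have := hR v
      refine ⟨by positivity, ?_⟩
      exact div_le_self this.le (one_le_pow₀ (by norm_num))
    have h2 := hcl (fun v => R v / 2 ^ (j v)) hη _ (filter_subset _ _) hne (by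
      intro t ht v
      obtain ⟨htS, htj⟩ := mem_filter.1 ht
      have h3 := (hgt t htS v).1
      rw [htj] at h3
      rw [le_div_iff₀ (by positivity), mul_comm]
      exact h3)
    have hlow : ∀ t ∈ S.filter (fun t => g t = j), ∀ v, R v / 2 ^ (j v + 1) ≤ D t v := by
      intro t ht v
      obtain ⟨htS, htj⟩ := mem_filter.1 ht
      have h3 := (hgt t htS v).2
      rw [htj] at h3
      rw [div_le_iff₀ (by positivity), mul_comm]
      exact h3.le
    have hRp : ∀ v, 0 < R v / 2 ^ (j v + 1) := fun v => by have := hR v; positivity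
    obtain ⟨a, ha⟩ : ∃ a : ℝ, a = P * ∏ v, (R v / 2 ^ (j v + 1)) ^ (-θ) := ⟨_, rfl⟩
    obtain ⟨b, hb⟩ : ∃ b : ℝ, b = Q * ∏ v, (R v / 2 ^ (j v + 1)) ^ (-δ) := ⟨_, rfl⟩
    have ha0 : 0 ≤ a := by
      rw [ha]
      exact mul_nonneg hP (prod_nonneg fun v _ => Real.rpow_nonneg (hRp v).le _)
    have hb0 : 0 ≤ b := by
      rw [hb]
      exact mul_nonneg hQ (prod_nonneg fun v _ => Real.rpow_nonneg (hRp v).le _)
    have hwa : ∀ t ∈ S.filter (fun t => g t = j), w t ≤ min a b := by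
      intro t ht
      have htS := (mem_filter.1 ht).1
      refine le_min ?_ ?_
      · rw [ha]
        refine (hw1 t htS).trans (mul_le_mul_of_nonneg_left ?_ hP)
        refine prod_le_prod (fun v _ => Real.rpow_nonneg (hDp t htS v).le _) fun v _ => ?_
        exact Real.rpow_le_rpow_of_nonpos (hRp v) (hlow t ht v) (by linarith)
      · rw [hb]
        refine (hw2 t htS).trans (mul_le_mul_of_nonneg_left ?_ hQ)
        refine prod_le_prod (fun v _ => Real.rpow_nonneg (hDp t htS v).le _) fun v _ => ?_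
        exact Real.rpow_le_rpow_of_nonpos (hRp v) (hlow t ht v) (by linarith)
    have hprod : 0 ≤ ∏ v, R v / 2 ^ (j v) := prod_nonneg fun v _ => (hη v).1.le
    calc ∑ t ∈ S.filter (fun t => g t = j), w t
        ≤ ∑ t ∈ S.filter (fun t => g t = j), min a b := sum_le_sum hwa
      _ = ((S.filter fun t => g t = j).card : ℝ) * min a b := by rw [sum_const, nsmul_eq_mul]
      _ ≤ (N0 + M * ∏ v, R v / 2 ^ (j v)) * min a b :=
          mul_le_mul_of_nonneg_right h2 (le_min ha0 hb0)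
      _ = M * (∏ v, R v / 2 ^ (j v)) * min a b + N0 * min a b := by ring
      _ ≤ M * (∏ v, R v / 2 ^ (j v)) * a + N0 * b :=
          add_le_add (mul_le_mul_of_nonneg_left (min_le_left _ _) (mul_nonneg hM hprod))
            (mul_le_mul_of_nonneg_left (min_le_right _ _) hN0)
      _ = P * M * ∏ v, (2 ^ θ * q ^ (j v) * (R v) ^ (1 - θ)) +
        Q * N0 * ∏ v, (R v / 2 ^ (j v + 1)) ^ (-δ) := by
          have e0 : (∏ v, R v / 2 ^ (j v)) * ∏ v, (R v / 2 ^ (j v + 1)) ^ (-θ) =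
              ∏ v, (2 ^ θ * q ^ (j v) * (R v) ^ (1 - θ)) := by
            rw [← prod_mul_distrib]
            refine prod_congr rfl fun v _ => ?_
            have hv := hR v
            have e1 : (R v / 2 ^ (j v + 1)) ^ (-θ) =
                (R v) ^ (-θ) * (2 : ℝ) ^ (θ * ((j v : ℝ) + 1)) := by
              rw [Real.div_rpow hv.le (by positivity), ← Real.rpow_natCast 2 (j v + 1),
                ← Real.rpow_mul (by norm_num), div_eq_mul_inv, ← Real.rpow_neg (by norm_num)]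
              congr 2
              push_cast
              ring
            have e2 : R v / 2 ^ (j v) = R v * (2 : ℝ) ^ (-(j v : ℝ)) := by
              rw [div_eq_mul_inv, ← Real.rpow_natCast, ← Real.rpow_neg (by norm_num)]
            have e3 : q ^ (j v) = (2 : ℝ) ^ (-(1 - θ) * (j v : ℝ)) := by
              rw [hq, ← Real.rpow_natCast, ← Real.rpow_mul (by norm_num)]
            have e4 : (R v) ^ (1 - θ) = R v * (R v) ^ (-θ) := by
              rw [sub_eq_add_neg, Real.rpow_add hv, Real.rpow_one]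
            rw [e1, e2, e3, e4]
            have e5 : (2 : ℝ) ^ (θ * ((j v : ℝ) + 1)) * (2 : ℝ) ^ (-(j v : ℝ)) =
                2 ^ θ * (2 : ℝ) ^ (-(1 - θ) * (j v : ℝ)) := by
              rw [← Real.rpow_add (by norm_num), ← Real.rpow_add (by norm_num)]
              congr 1
              ring
            calc R v * (2 : ℝ) ^ (-(j v : ℝ)) * ((R v) ^ (-θ) * (2 : ℝ) ^ (θ * ((j v : ℝ) + 1)))
                = R v * (R v) ^ (-θ) *
                  ((2 : ℝ) ^ (θ * ((j v : ℝ) + 1)) * (2 : ℝ) ^ (-(j v : ℝ))) := by ring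
              _ = 2 ^ θ * (2 : ℝ) ^ (-(1 - θ) * (j v : ℝ)) * (R v * (R v) ^ (-θ)) := by
                  rw [e5]; ring
          rw [ha, hb, ← e0]
          ring
  calc ∑ j ∈ T, ∑ t ∈ S.filter (fun t => g t = j), w t
      ≤ ∑ j ∈ T, (P * M * ∏ v, (2 ^ θ * q ^ (j v) * (R v) ^ (1 - θ)) +
        Q * N0 * ∏ v, (R v / 2 ^ (j v + 1)) ^ (-δ)) := sum_le_sum hfib
    _ = P * M * ∏ v, ∑ i ∈ (range N).filter (fun i => ρ v ≤ R v / 2 ^ i),
          (2 ^ θ * q ^ i * (R v) ^ (1 - θ)) +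
        Q * N0 * ∏ v, ∑ i ∈ (range N).filter (fun i => ρ v ≤ R v / 2 ^ i),
          (R v / 2 ^ (i + 1)) ^ (-δ) := by
        rw [sum_add_distrib, ← mul_sum, ← mul_sum, Finset.prod_univ_sum, Finset.prod_univ_sum]
    _ ≤ P * M * ∏ v : κ, (B * (R v) ^ (1 - θ)) + Q * N0 * ∏ v : κ, (B' * (ρ v) ^ (-δ)) := by
        refine add_le_add (mul_le_mul_of_nonneg_left ?_ (mul_nonneg hP hM))
          (mul_le_mul_of_nonneg_left ?_ (mul_nonneg hQ hN0))
        · refine prod_le_prod (fun v _ => sum_nonneg fun i _ => ?_) fun v _ => ?_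
          · have := hR v
            positivity
          · have hv := hR v
            calc ∑ i ∈ (range N).filter (fun i => ρ v ≤ R v / 2 ^ i),
                (2 ^ θ * q ^ i * (R v) ^ (1 - θ))
                ≤ ∑ i ∈ range N, (2 ^ θ * q ^ i * (R v) ^ (1 - θ)) :=
                  sum_le_sum_of_subset_of_nonneg (filter_subset _ _) fun i _ _ => by positivity
              _ = 2 ^ θ * (∑ i ∈ range N, q ^ i) * (R v) ^ (1 - θ) := by
                  rw [mul_sum, sum_mul]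
              _ ≤ B * (R v) ^ (1 - θ) := by
                  refine mul_le_mul_of_nonneg_right ?_ (by positivity)
                  rw [hB]
                  refine mul_le_mul_of_nonneg_left ?_ (by positivity)
                  have h3 := geo h1 N
                  rw [← hq] at h3
                  exact h3
        · refine prod_le_prod (fun v _ => sum_nonneg fun i _ => ?_) fun v _ => ?_
          · have := hR v
            positivity
          · rw [hB']
            exact geo_up hδ (hρ v) (hRρ v) N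
    _ = B ^ Fintype.card κ * (P * M * ∏ v, (R v) ^ (1 - θ)) +
        B' ^ Fintype.card κ * (Q * N0 * ∏ v, (ρ v) ^ (-δ)) := by
        rw [prod_mul_distrib, prod_mul_distrib, prod_const, prod_const, card_univ]
        ring
    _ ≤ _ := by
        have h2 : 0 ≤ P * M * ∏ v, (R v) ^ (1 - θ) := by
          refine mul_nonneg (mul_nonneg hP hM) (prod_nonneg fun v _ => ?_)
          exact Real.rpow_nonneg (hR v).le _
        have h3 : 0 ≤ Q * N0 * ∏ v, (ρ v) ^ (-δ) := by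
          refine mul_nonneg (mul_nonneg hQ hN0) (prod_nonneg fun v _ => ?_)
          exact Real.rpow_nonneg (hρ v).le _
        nlinarith

end H37.DG
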