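import Pool.Agent.H37.DG.Wgt
import Pool.Agent.H37.DG.Sh2

/-!
# Deg2 (T3, MP_b39724): the sum over `b3`, then over `b2`
-/

set_option autoImplicit false

open scoped NumberField
open NumberField Finset H88.A4 Pool.Agent.H67.WA H88.WS

noncomputable section

namespace H37.DG

variable {K : Type} [Field K] [NumberField K]

/-- the number of `b3` in a box -/
private theorem cnt3 {C1 Cf : ℝ} (hf : ∀ (I : Ideal (𝓞 K)), I ≠ ⊥ → ∀ R : (K →+* ℂ) → ℝ,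
    (∀ φ, 0 ≤ R φ) → ∀ S : Finset (𝓞 K), (∀ x ∈ S, ∀ y ∈ S, x - y ∈ I ∧ ∀ φ, sz φ (x - y) ≤ R φ) →
    (S.card : ℝ) ≤ Cf * (1 + vol R / ni I)) {s t : ℝ} (hs : 0 < s)
    {η : (K →+* ℂ) → ℝ} (hη : ∀ φ, 0 < η φ) (S : Finset (Blk (𝓞 K)))
    {h A2 : Ideal (𝓞 K)} {k b1 b2 : 𝓞 K} (hb1 : b1 ≠ 0) (hbh : b1 ∈ h) (hA2 : A2 ≠ ⊥)
    (hA : A2 ⊔ Ideal.span {b1} = ⊤)
    (hS : ∀ β ∈ S, Nb C1 s t β ∧ (∀ φ, xq s β.D1 φ ≤ η φ) ∧ β.b1 = b1 ∧ β.b2 = b2 ∧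
      β.c3 = k ∧ β.b3 ∈ h ∧ β.D1 ∈ A2) :
    (S.card : ℝ) ≤ Cf * (1 + 2 ^ Module.finrank ℚ K *
      (vol η * (s ^ 2) ^ Module.finrank ℚ K) / (nz b1 * (ni h * ni A2))) := by
  classical
  have hV : vol (fun φ => 2 * (η φ * s ^ 2) / sz φ b1) = 2 ^ Module.finrank ℚ K *
      (vol η * (s ^ 2) ^ Module.finrank ℚ K) / nz b1 := by
    rw [vol_div (fun φ => 2 * (η φ * s ^ 2)) (fun φ => sz φ b1), vol_smul, vol_mul_const]
    rfl
  have hc : S.card = (S.image fun β => β.b3).card := by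
    rw [Finset.card_image_of_injOn]
    intro β hβ γ hγ he
    obtain ⟨d1, -, e1, e2, e3, -⟩ := hS β hβ
    obtain ⟨d1', -, e1', e2', e3', -⟩ := hS γ hγ
    ext
    · rw [e1, e1']
    · rw [e2, e2']
    · exact congrArg _ he
    · rw [d1.c1, d1'.c1]
    · rw [d1.c2, d1'.c2]
    · rw [e3, e3']
  have hcop : h ⊔ A2 = ⊤ := by
    rw [eq_top_iff, ← hA, sup_comm]
    refine sup_le_sup_right ?_ _
    rw [Ideal.span_singleton_le_iff_mem]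
    exact hbh
  have hinf : h ⊓ A2 = h * A2 := by
    refine (Ideal.mul_eq_inf_of_isCoprime ?_).symm
    rwa [Ideal.isCoprime_iff_sup_eq]
  have hh : h ≠ ⊥ := by
    intro h0
    rw [h0, Ideal.mem_bot] at hbh
    exact hb1 hbh
  have hne : h * A2 ≠ ⊥ := by
    rw [Ne, Ideal.mul_eq_bot, not_or]
    exact ⟨hh, hA2⟩
  have key := hf (h * A2) hne (fun φ => 2 * (η φ * s ^ 2) / sz φ b1)
    (fun φ => by
      have := hη φ
      have := sz_nonneg φ b1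
      positivity) (S.image fun β => β.b3) ?_
  · rw [hc]
    refine key.trans (le_of_eq ?_)
    rw [hV, ni_mul, div_div]
  · intro x hx y hy
    rw [Finset.mem_image] at hx hy
    obtain ⟨β, hβ, rfl⟩ := hx
    obtain ⟨γ, hγ, rfl⟩ := hy
    obtain ⟨d1, s1, e1, e2, e3, e4, e5⟩ := hS β hβ
    obtain ⟨d1', s1', e1', e2', e3', e4', e5'⟩ := hS γ hγ
    have hD : b1 * (β.b3 - γ.b3) = β.D1 - γ.D1 := by
      unfold Blk.D1
      rw [e1, e1', e2, e2']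
      ring
    constructor
    · rw [← hinf, Ideal.mem_inf]
      refine ⟨h.sub_mem e4 e4', ?_⟩
      have h1 : (1 : 𝓞 K) ∈ A2 ⊔ Ideal.span {b1} := by
        rw [hA]
        trivial
      rw [Submodule.mem_sup] at h1
      obtain ⟨a, ha, c, hc, hac⟩ := h1
      rw [Ideal.mem_span_singleton] at hc
      obtain ⟨c', rfl⟩ := hc
      have h2 : β.b3 - γ.b3 = a * (β.b3 - γ.b3) + c' * (β.D1 - γ.D1) := by
        rw [← hD]
        linear_combination (-(β.b3 - γ.b3)) * hac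
      rw [h2]
      exact A2.add_mem (A2.mul_mem_right _ ha) (A2.mul_mem_left _ (A2.sub_mem e5 e5'))
    · intro φ
      rw [le_div_iff₀ (sz_pos φ hb1), mul_comm, ← sz_mul, hD]
      have h1 := sz_sub φ β.D1 γ.D1
      have h2 := s1 φ
      have h3 := s1' φ
      unfold xq at h2 h3
      rw [div_le_iff₀ (by positivity)] at h2 h3
      linarith

variable (K)

theorem lay3 {C1 δ : ℝ} (hC1 : 1 ≤ C1) (hδ : 0 < δ) (hδ4 : δ < 1 / 4) : ∃ C : ℝ, 1 ≤ C ∧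
    ∀ s t H : ℝ, Rg C1 s t → s ≤ H → 1 ≤ H → ∀ (h A2 : Ideal (𝓞 K)) (k b1 b2 : 𝓞 K)
      (S : Finset (Blk (𝓞 K))) (W : Blk (𝓞 K) → ℝ) (P Q : ℝ), 0 ≤ P → 0 ≤ Q → b1 ≠ 0 → b1 ∈ h →
      A2 ≠ ⊥ → A2 ⊔ Ideal.span {b1} = ⊤ →
      (∀ β ∈ S, Nb C1 s t β ∧ β.b1 = b1 ∧ β.b2 = b2 ∧ β.c3 = k ∧ β.b3 ∈ h ∧ β.D1 ∈ A2 ∧
        W β ≤ Q * pw δ (xq s β.D1) ∧ W β ≤ P * pw (3 / 4 + δ) (xq s β.D1)) →
      ∑ β ∈ S, W β ≤ C * (P * ((s ^ 2) ^ Module.finrank ℚ K / (nz b1 * (ni h * ni A2))) +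
        Q * H ^ (δ * ((2 * (Module.finrank ℚ K : ℝ) + 2) * Module.finrank ℚ K))) := by
  classical
  obtain ⟨Cs, hCs, hshp⟩ := shp2 (κ := K →+* ℂ) (θ := 3 / 4 + δ) (δ := δ) (by linarith)
    (by linarith) hδ
  obtain ⟨Cf, hCf, hf⟩ := f1d K
  obtain ⟨d, hd⟩ : ∃ d : ℕ, d = Module.finrank ℚ K := ⟨_, rfl⟩
  have hC10 : 0 < C1 := by linarith
  obtain ⟨Ca, hCa⟩ : ∃ Ca : ℝ, Ca = Cf * 2 ^ d * (C1 ^ (1 - (3 / 4 + δ))) ^ d := ⟨_, rfl⟩
  obtain ⟨Cb, hCb⟩ : ∃ Cb : ℝ, Cb = Cf * (C1 ^ d) ^ (δ * d) := ⟨_, rfl⟩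
  have hCf0 : 0 < Cf := by linarith
  have hCa0 : 0 < Ca := by rw [hCa]; positivity
  have hCb0 : 0 < Cb := by rw [hCb]; positivity
  refine ⟨max 1 (Cs * (Ca + Cb)), le_max_left _ _,
    fun s t H hRg hsH hH h A2 k b1 b2 S W P Q hP hQ hb1 hbh hA2 hA hS => ?_⟩
  obtain ⟨ht, hs⟩ := pos_of_rg hC1 hRg
  have hH0 : 0 < H := by linarith
  obtain ⟨X, hX⟩ : ∃ X : ℝ, X = C1 * H ^ 2 := ⟨_, rfl⟩
  have hX1 : 1 ≤ X := by
    rw [hX]
    exact one_le_mul_of_one_le_of_one_le hC1 (one_le_pow₀ hH)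
  have hX0 : 0 < X := by linarith
  obtain ⟨ρ0, hρ0⟩ : ∃ ρ0 : ℝ, ρ0 = (X ^ d * H ^ 2)⁻¹ := ⟨_, rfl⟩
  have hρp : 0 < ρ0 := by rw [hρ0]; positivity
  have hρ1 : ρ0 ≤ 1 := by
    rw [hρ0]
    exact inv_le_one_of_one_le₀ (one_le_mul_of_one_le_of_one_le (one_le_pow₀ hX1) (one_le_pow₀ hH))
  have hh : h ≠ ⊥ := by
    intro h0
    rw [h0, Ideal.mem_bot] at hbh
    exact hb1 hbh
  have hn1 := nz_pos hb1
  have hn2 : 0 < ni h := lt_of_lt_of_le one_pos (one_le_ni hh)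
  have hn3 : 0 < ni A2 := lt_of_lt_of_le one_pos (one_le_ni hA2)
  obtain ⟨Mq, hMq⟩ : ∃ Mq : ℝ, Mq = (s ^ 2) ^ d / (nz b1 * (ni h * ni A2)) := ⟨_, rfl⟩
  have hMq0 : 0 < Mq := by rw [hMq]; positivity
  have h1 := hshp (Blk (𝓞 K)) S (fun β φ => xq s β.D1 φ) (fun _ => C1) (fun _ => ρ0) W
    Cf (Cf * 2 ^ d * Mq) P Q hCf0.le (by positivity) hP hQ (fun _ => ⟨hρp, hρ1.trans hC1⟩)
    ?_ (fun β hβ => (hS β hβ).2.2.2.2.2.2.2) (fun β hβ => (hS β hβ).2.2.2.2.2.2.1) ?_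
  · refine h1.trans ?_
    have e1 : ∏ _v : K →+* ℂ, C1 ^ (1 - (3 / 4 + δ)) = (C1 ^ (1 - (3 / 4 + δ))) ^ d := by
      rw [hd]
      exact vol_const (K := K) _
    have e2 : ∏ _v : K →+* ℂ, ρ0 ^ (-δ) =
        (C1 ^ d) ^ (δ * d) * H ^ (δ * ((2 * (d : ℝ) + 2) * d)) := by
      have e3 : ∏ _v : K →+* ℂ, ρ0 ^ (-δ) = (ρ0 ^ (-δ)) ^ d := by
        rw [hd]
        exact vol_const (K := K) _
      rw [e3, hρ0, Real.inv_rpow (by positivity), Real.rpow_neg (by positivity), inv_inv, hX,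
        mul_pow, ← Real.rpow_natCast _ d, ← Real.rpow_mul (by positivity), mul_assoc,
        Real.mul_rpow (by positivity) (by positivity), ← pow_mul, ← pow_add,
        ← Real.rpow_natCast H, ← Real.rpow_mul hH0.le]
      congr 2
      push_cast
      ring
    rw [e1, e2, ← hd, ← hMq]
    obtain ⟨G, hG⟩ : ∃ G : ℝ, G = H ^ (δ * ((2 * (d : ℝ) + 2) * d)) := ⟨_, rfl⟩
    have hG0 : 0 < G := by rw [hG]; positivity
    rw [← hG]
    calc Cs * (P * (Cf * 2 ^ d * Mq) * (C1 ^ (1 - (3 / 4 + δ))) ^ d +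
          Q * Cf * ((C1 ^ d) ^ (δ * d) * G))
        = Cs * Ca * (P * Mq) + Cs * Cb * (Q * G) := by rw [hCa, hCb]; ring
      _ ≤ Cs * (Ca + Cb) * (P * Mq) + Cs * (Ca + Cb) * (Q * G) := by
          refine add_le_add (mul_le_mul_of_nonneg_right ?_ (by positivity))
            (mul_le_mul_of_nonneg_right ?_ (by positivity))
          · exact mul_le_mul_of_nonneg_left (by linarith) (by linarith)
          · exact mul_le_mul_of_nonneg_left (by linarith) (by linarith)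
      _ = Cs * (Ca + Cb) * (P * Mq + Q * G) := by ring
      _ ≤ _ := mul_le_mul_of_nonneg_right (le_max_right _ _) (by positivity)
  · intro β hβ φ
    obtain ⟨hN, -⟩ := hS β hβ
    have h2 : ∀ ψ, sz ψ β.D1 ≤ X := fun ψ => by
      refine (hN.d1s ψ).trans ?_
      rw [hX]
      exact mul_le_mul_of_nonneg_left (pow_le_pow_left₀ hs.le hsH 2) hC10.le
    have h3 := sz_low hN.d1 hX1 h2 φ
    rw [← hd] at h3
    constructor
    · change ρ0 ≤ sz φ β.D1 / s ^ 2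
      rw [hρ0, mul_inv, ← div_eq_mul_inv]
      exact div_le_div₀ (sz_nonneg _ _) h3 (by positivity) (pow_le_pow_left₀ hs.le hsH 2)
    · change sz φ β.D1 / s ^ 2 ≤ C1
      rw [div_le_iff₀ (by positivity)]
      exact hN.d1s φ
  · intro η hη S' hS' _ hSη
    have h2 := cnt3 (C1 := C1) (t := t) (k := k) (b2 := b2) hf hs (fun φ => (hη φ).1) S' hb1 hbh
      hA2 hA (fun β hβ => by
        obtain ⟨q1, q2, q3, q4, q5, q6, -⟩ := hS β (hS' hβ)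
        exact ⟨q1, hSη β hβ, q2, q3, q4, q5, q6⟩)
    refine h2.trans (le_of_eq ?_)
    rw [hMq, ← hd]
    unfold vol
    ring

end H37.DG
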