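import Pool.Agent.H37.DG.Lay1
import Pool.Agent.H88.WS.Ids

/-!
# Deg2 (T3, MP_b39724): the sum over the ideals and over `k`
-/

set_option autoImplicit false

open scoped NumberField
open NumberField Finset H88.A4 Pool.Agent.H67.WA H88.WS

noncomputable section

namespace H37.DG

variable {K : Type} [Field K] [NumberField K]

/-- the data of one block: ideals and weight -/
structure Dw (C1 δ s t H Z : ℝ) (m : ℕ) (β : Blk (𝓞 K)) (gb gc : Ideal (𝓞 K)) (W : ℝ) : Prop where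
  nb : Nb C1 s t β
  all : β.All (Bd H)
  sqb : Squarefree gb
  sqc : Squarefree gc
  cop : IsCoprime gb gc
  mb : β.b1 ∈ gb ∧ β.b2 ∈ gb ∧ β.b3 ∈ gb
  mc : β.c3 ∈ gc ∧ β.D1 ∈ gc
  w1 : W ≤ (ni gb * ni gc) * ((Z * F1 m gb β.b1 * pw (3 / 2 + 2 * δ) (wq s t β.c3 β.b1)) *
          pw δ (xq s β.D1))
  w2 : W ≤ (ni gb * ni gc) * ((Z * F1 m gb β.b1 * pw (3 / 4 + 2 * δ) (wq s t β.c3 β.b1)) *
          pw (3 / 4 + δ) (xq s β.D1))

variable (K)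

theorem layk {C1 δ : ℝ} (hC1 : 1 ≤ C1) (hδ : 0 < δ) (hδ8 : δ < 1 / 8) {m : ℕ} (hm : m ≠ 0) :
    ∃ C : ℝ, 1 ≤ C ∧
    ∀ s t H : ℝ, Rg C1 s t → s ≤ H → 1 ≤ H → ∀ (k : 𝓞 K)
      (S : Finset (Blk (𝓞 K))) (W : Blk (𝓞 K) → ℝ) (Z : ℝ) (gb gc : Blk (𝓞 K) → Ideal (𝓞 K)),
      0 ≤ Z → k ≠ 0 →
      (∀ β ∈ S, Dw C1 δ s t H Z m β (gb β) (gc β) (W β) ∧ β.c3 = k) →
      ∑ β ∈ S, W β ≤ C * Z * (C1 * (2 + t) ^ 3) ^ δ *
        ((s * t) ^ Module.finrank ℚ K * (nz k)⁻¹) *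
        ((s ^ 2) ^ Module.finrank ℚ K * (1 + Real.log H) +
          (s * t) ^ Module.finrank ℚ K *
          H ^ (δ * ((2 * (Module.finrank ℚ K : ℝ) + 4) * Module.finrank ℚ K))) := by
  classical
  obtain ⟨Ca, hCa, h1⟩ := lay1 K hC1 hδ hδ8 hm
  obtain ⟨Cg, hCg, hidc⟩ := idc K hδ
  obtain ⟨Ci, hCi, hids⟩ := ids K hδ
  obtain ⟨Cj, hCj, hconv⟩ := ids_conv K 2 (by norm_num)
  obtain ⟨d, hd⟩ : ∃ d : ℕ, d = Module.finrank ℚ K := ⟨_, rfl⟩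
  have hC10 : 0 < C1 := by linarith
  refine ⟨Cg * (Ca * (Cj + Ci)), ?_, fun s t H hRg hsH hH k S W Z gb gc hZ hk hS => ?_⟩
  · exact one_le_mul_of_one_le_of_one_le hCg (one_le_mul_of_one_le_of_one_le hCa (by linarith))
  obtain ⟨ht, hs⟩ := pos_of_rg hC1 hRg
  have hst : 0 < s * t := mul_pos hs ht
  have hH0 : 0 < H := by linarith
  have hlH : 0 ≤ Real.log H := Real.log_nonneg hH
  have hnk := nz_pos hk
  rw [← hd]
  obtain ⟨X, hX⟩ : ∃ X : ℝ, X = C1 * (2 + t) ^ 3 := ⟨_, rfl⟩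
  have hX1 : 1 ≤ X := by
    rw [hX]
    exact one_le_mul_of_one_le_of_one_le hC1 (one_le_pow₀ (by linarith))
  have hX0 : 0 < X := by linarith
  obtain ⟨G, hG⟩ : ∃ G : ℝ, G = H ^ (δ * ((2 * (d : ℝ) + 3) * d)) := ⟨_, rfl⟩
  have hG0 : 0 < G := by rw [hG]; positivity
  have hG2 : H ^ (δ * ((2 * (d : ℝ) + 4) * d)) = G * (H ^ d) ^ δ := by
    rw [hG, ← Real.rpow_natCast H d, ← Real.rpow_mul hH0.le, ← Real.rpow_add hH0]
    congr 1
    ring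
  have hGd0 : 0 < (H ^ d) ^ δ := by positivity
  rw [← hX, hG2]
  obtain ⟨V, hV⟩ : ∃ V : ℝ, V = (s * t) ^ d * (nz k)⁻¹ := ⟨_, rfl⟩
  have hV0 : 0 < V := by rw [hV]; positivity
  obtain ⟨L, hL⟩ : ∃ L : ℝ, L = (s ^ 2) ^ d * (1 + Real.log H) := ⟨_, rfl⟩
  have hL0 : 0 < L := by rw [hL]; positivity
  rw [← hV, ← hL]
  rcases S.eq_empty_or_nonempty with rfl | ⟨β0, hβ0⟩
  · rw [sum_empty]
    positivity
  have key := fibs S gc W (N := Cg * X ^ δ)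
    (M := Ca * (Cj + Ci) * Z * V * (L + (s * t) ^ d * (G * (H ^ d) ^ δ))) (by
      have : 0 ≤ Cj + Ci := by linarith
      positivity) ?_ ?_
  · refine key.trans (le_of_eq ?_)
    ring
  · refine hidc X hX1 k hk (fun φ => ?_) _ fun I hI => ?_
    · obtain ⟨hD, e1⟩ := hS β0 hβ0
      have h2 := hD.nb.k2 φ
      rw [e1] at h2
      refine h2.trans ?_
      rw [hX]
      refine mul_le_mul_of_nonneg_left ?_ hC10.le
      exact pow_le_pow_left₀ ht.le (by linarith) 3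
    · obtain ⟨β, hβ, rfl⟩ := Finset.mem_image.1 hI
      obtain ⟨hD, e1⟩ := hS β hβ
      rw [← e1]
      exact hD.mc.1
  · intro g _
    obtain ⟨Sg, hSg⟩ : ∃ Sg : Finset (Blk (𝓞 K)), Sg = S.filter fun β => gc β = g := ⟨_, rfl⟩
    rw [← hSg]
    have hSg' : ∀ β ∈ Sg, β ∈ S ∧ gc β = g := fun β hβ => by
      rw [hSg] at hβ
      exact Finset.mem_filter.1 hβ
    have h2 : ∑ β ∈ Sg, W β = ∑ h ∈ Sg.image gb, ∑ β ∈ Sg.filter (fun β => gb β = h), W β :=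
      (Finset.sum_fiberwise_of_maps_to (fun b hb => Finset.mem_image_of_mem _ hb) _).symm
    have hhp : ∀ h ∈ Sg.image gb, h ≠ ⊥ ∧ ni h ≤ H ^ d := by
      intro h hh
      obtain ⟨β, hβ, rfl⟩ := Finset.mem_image.1 hh
      obtain ⟨hD, e1⟩ := hS β (hSg' β hβ).1
      refine ⟨hD.sqb.ne_zero, (ni_le_nz hD.mb.1 hD.nb.b1).trans ?_⟩
      have := nz_le_vol (R := fun _ => H) fun φ => hD.all.1 φ
      rwa [vol_const, ← hd] at this
    have h3 : ∀ h ∈ Sg.image gb, ∑ β ∈ Sg.filter (fun β => gb β = h), W β ≤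
        Ca * Z * V * (L * ((ni h)⁻¹) ^ 2 + (s * t) ^ d * G * (ni h)⁻¹) := by
      intro h hh
      obtain ⟨β1, hβ1, hb0⟩ := Finset.mem_image.1 hh
      have hD0 := (hS β1 (hSg' β1 hβ1).1).1
      have hg0 := (hSg' β1 hβ1).2
      have h4 := h1 s t H hRg hsH hH h g k (Sg.filter fun β => gb β = h) W Z hZ (hhp h hh).1 hk
        (by rw [← hg0]; exact hD0.sqc) (by rw [← hg0, ← hb0]; exact hD0.cop) (fun β hβ => by
          obtain ⟨hβ1, hβ2⟩ := Finset.mem_filter.1 hβ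
          obtain ⟨hβ3, hβ4⟩ := hSg' β hβ1
          obtain ⟨hD, e1⟩ := hS β hβ3
          have m1 := hD.mb
          have m2 := hD.mc
          have w1 := hD.w1
          have w2 := hD.w2
          rw [hβ2] at m1 w1 w2
          rw [hβ4] at m2 w1 w2
          rw [e1] at w1 w2
          exact ⟨hD.nb, hD.all, e1, m1, m2, w1, w2⟩)
      rw [← hd, ← hG, ← hV, ← hL] at h4
      exact h4
    rw [h2]
    refine (Finset.sum_le_sum h3).trans ?_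
    have h5 : ∑ h ∈ Sg.image gb, ((ni h)⁻¹) ^ 2 ≤ Cj := by
      refine le_trans (le_of_eq (Finset.sum_congr rfl fun h hh => ?_))
        (hconv (Sg.image gb) fun h hh => (hhp h hh).1)
      rw [Real.rpow_neg (ni_nonneg _), inv_pow]
      norm_num
    have h6 : ∑ h ∈ Sg.image gb, (ni h)⁻¹ ≤ Ci * (H ^ d) ^ δ :=
      hids (H ^ d) (one_le_pow₀ hH) _ hhp
    rw [← Finset.mul_sum, Finset.sum_add_distrib, ← Finset.mul_sum, ← Finset.mul_sum]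
    have h7 : L * ∑ h ∈ Sg.image gb, ((ni h)⁻¹) ^ 2 ≤ (Cj + Ci) * L := by
      calc _ ≤ L * Cj := mul_le_mul_of_nonneg_left h5 hL0.le
        _ ≤ L * (Cj + Ci) := mul_le_mul_of_nonneg_left (by linarith) hL0.le
        _ = _ := by ring
    have h8 : (s * t) ^ d * G * ∑ h ∈ Sg.image gb, (ni h)⁻¹ ≤
        (Cj + Ci) * ((s * t) ^ d * (G * (H ^ d) ^ δ)) := by
      calc _ ≤ (s * t) ^ d * G * (Ci * (H ^ d) ^ δ) := mul_le_mul_of_nonneg_left h6 (by positivity)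
        _ = Ci * ((s * t) ^ d * (G * (H ^ d) ^ δ)) := by ring
        _ ≤ _ := mul_le_mul_of_nonneg_right (by linarith) (by positivity)
    calc Ca * Z * V * (L * ∑ h ∈ Sg.image gb, ((ni h)⁻¹) ^ 2 +
          (s * t) ^ d * G * ∑ h ∈ Sg.image gb, (ni h)⁻¹)
        ≤ Ca * Z * V * ((Cj + Ci) * L + (Cj + Ci) * ((s * t) ^ d * (G * (H ^ d) ^ δ))) :=
          mul_le_mul_of_nonneg_left (add_le_add h7 h8) (by positivity)
      _ = _ := by ring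


theorem layt {C1 δ : ℝ} (hC1 : 1 ≤ C1) (hδ : 0 < δ) (hδ8 : δ < 1 / 8) {m : ℕ} (hm : m ≠ 0) :
    ∃ C : ℝ, 1 ≤ C ∧
    ∀ s t H : ℝ, Rg C1 s t → s ≤ H → 1 ≤ H → ∀ (S : Finset (Blk (𝓞 K))) (W : Blk (𝓞 K) → ℝ)
      (Z : ℝ) (gb gc : Blk (𝓞 K) → Ideal (𝓞 K)), 0 ≤ Z →
      (∀ β ∈ S, Dw C1 δ s t H Z m β (gb β) (gc β) (W β)) →
      ∑ β ∈ S, W β ≤ C * Z * (C1 * (2 + t) ^ 3) ^ δ * (s * t) ^ Module.finrank ℚ K *
        ((s ^ 2) ^ Module.finrank ℚ K * (1 + Real.log H) +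
          (s * t) ^ Module.finrank ℚ K *
          H ^ (δ * ((2 * (Module.finrank ℚ K : ℝ) + 4) * Module.finrank ℚ K))) := by
  classical
  obtain ⟨Ck, hCk, hlk⟩ := layk K hC1 hδ hδ8 hm
  obtain ⟨Cf, hCf, hf⟩ := f1n K
  obtain ⟨d, hd⟩ : ∃ d : ℕ, d = Module.finrank ℚ K := ⟨_, rfl⟩
  have hC10 : 0 < C1 := by linarith
  have hCd : 1 ≤ C1 ^ d := one_le_pow₀ hC1
  refine ⟨Cf * C1 ^ d * (Ck * C1 ^ d), ?_, fun s t H hRg hsH hH S W Z gb gc hZ hS => ?_⟩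
  · exact one_le_mul_of_one_le_of_one_le (one_le_mul_of_one_le_of_one_le hCf hCd)
      (one_le_mul_of_one_le_of_one_le hCk hCd)
  obtain ⟨ht, hs⟩ := pos_of_rg hC1 hRg
  have hst : 0 < s * t := mul_pos hs ht
  have hH0 : 0 < H := by linarith
  have hlH : 0 ≤ Real.log H := Real.log_nonneg hH
  rw [← hd]
  obtain ⟨Y, hY⟩ : ∃ Y : ℝ, Y = (s ^ 2) ^ d * (1 + Real.log H) +
      (s * t) ^ d * H ^ (δ * ((2 * (d : ℝ) + 4) * d)) := ⟨_, rfl⟩
  have hY0 : 0 < Y := by rw [hY]; positivity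
  rw [← hY]
  have key := fibs S (fun β => β.c3) W (N := Cf * C1 ^ d * (t ^ 3) ^ d)
    (M := Ck * Z * (C1 * (2 + t) ^ 3) ^ δ * ((s * t) ^ d * (C1 ^ d * ((t ^ 3) ^ d)⁻¹)) * Y)
    (by positivity) ?_ ?_
  · refine key.trans (le_of_eq ?_)
    have h1 : (t ^ 3) ^ d * ((t ^ 3) ^ d)⁻¹ = 1 := mul_inv_cancel₀ (by positivity)
    calc Cf * C1 ^ d * (t ^ 3) ^ d *
          (Ck * Z * (C1 * (2 + t) ^ 3) ^ δ * ((s * t) ^ d * (C1 ^ d * ((t ^ 3) ^ d)⁻¹)) * Y)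
        = Cf * C1 ^ d * (Ck * C1 ^ d) * Z * (C1 * (2 + t) ^ 3) ^ δ * (s * t) ^ d * Y *
          ((t ^ 3) ^ d * ((t ^ 3) ^ d)⁻¹) := by ring
      _ = _ := by rw [h1, mul_one]
  · have h1 := hf ⊤ (by
      intro h
      exact (bot_ne_top (α := Ideal (𝓞 K))) h.symm) (fun _ => C1 * t ^ 3)
      (fun _ => by positivity) (S.image fun β => β.c3) (fun x hx => by
        obtain ⟨β, hβ, rfl⟩ := Finset.mem_image.1 hx
        exact ⟨(hS β hβ).nb.c3, Submodule.mem_top, (hS β hβ).nb.k2⟩)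
    refine h1.trans (le_of_eq ?_)
    rw [ni_top, div_one, vol_const, ← hd, mul_pow, mul_assoc]
  · intro k hk
    obtain ⟨β0, hβ0, hb0⟩ := Finset.mem_image.1 hk
    have hN0 := (hS β0 hβ0).nb
    have hk0 : k ≠ 0 := by
      rw [← hb0]
      exact hN0.c3
    have h1 := hlk s t H hRg hsH hH k (S.filter fun β => β.c3 = k) W Z gb gc hZ hk0
      (fun β hβ => ⟨hS β (Finset.mem_filter.1 hβ).1, (Finset.mem_filter.1 hβ).2⟩)
    rw [← hd, ← hY] at h1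
    refine h1.trans ?_
    refine mul_le_mul_of_nonneg_right ?_ hY0.le
    refine mul_le_mul_of_nonneg_left ?_ (by positivity)
    refine mul_le_mul_of_nonneg_left ?_ (by positivity)
    have h2 : (t ^ 3) ^ d ≤ C1 ^ d * nz k := by
      have : vol (fun _ : K →+* ℂ => t ^ 3) ≤ vol (fun φ : K →+* ℂ => C1 * sz φ k) :=
        vol_mono (fun _ => by positivity) fun φ => by
          rw [← hb0]
          exact hN0.k1 φ
      rw [vol_const, vol_smul, ← hd] at this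
      exact this
    rw [← div_eq_mul_inv, inv_eq_one_div, div_le_div_iff₀ (nz_pos hk0) (by positivity), one_mul]
    exact h2

end H37.DG
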