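import Pool.Agent.H67.WA.Rnd
import Pool.Agent.H67.WA.IdU
import Pool.Agent.H67.WA.Chg

/-!
# Deg2 (T3, MP_b39724): normalisation of a block with `c1 = c2 = 0`
-/

set_option autoImplicit false

open scoped NumberField
open NumberField H88.A4 Pool.Agent.H67.WA

noncomputable section

namespace H37.DG

variable {K : Type} [Field K] [NumberField K]

/-- normalised blocks with `c = diag(0, k)` -/
structure Nb (C s t : ℝ) (β : Blk (𝓞 K)) : Prop where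
  c1 : β.c1 = 0
  c2 : β.c2 = 0
  c3 : β.c3 ≠ 0
  b1 : β.b1 ≠ 0
  d1 : β.D1 ≠ 0
  k1 : ∀ φ, t ^ 3 ≤ C * sz φ β.c3
  k2 : ∀ φ, sz φ β.c3 ≤ C * t ^ 3
  bk : ∀ φ, sz φ (β.b1 * β.c3) ≤ C * (s * t)
  b2s : ∀ φ, sz φ β.b2 ≤ C * sz φ β.b1
  d1s : ∀ φ, sz φ β.D1 ≤ C * s ^ 2

omit [NumberField K] in
theorem sz_conj (φ : K →+* ℂ) (x : 𝓞 K) :
    sz (NumberField.ComplexEmbedding.conjugate φ) x = sz φ x := by
  unfold sz
  rw [NumberField.ComplexEmbedding.conjugate_coe_eq, Complex.norm_conj]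

theorem pos_of_rg {C s t : ℝ} (hC : 1 ≤ C) (h : Rg C s t) : 0 < t ∧ 0 < s := by
  obtain ⟨h1, h2⟩ := h
  have ht : 0 < t := by
    by_contra hcon
    push Not at hcon
    nlinarith
  exact ⟨ht, by linarith⟩

variable (K)

theorem nrm {M : ℕ} (hM : M ≠ 0) {C : ℝ} (hC : 1 ≤ C) (A : ℕ) : ∃ (C1 : ℝ) (A1 : ℕ), C ≤ C1 ∧
    ∀ s t : ℝ, Rg C s t → ∀ (u v : 𝓞 K) (β : Blk (𝓞 K)), Adm M C s t u v → Deg C s t β →
      β.All (Bd (Hp C A s)) → Rep (Hp C A s) β u v →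
      ∃ β' : Blk (𝓞 K), Nb C1 s t β' ∧ β'.All (Bd (Hp C1 A1 s)) ∧ Rep (Hp C1 A1 s) β' u v ∧
        β'.D1 = β.D1 ∧ β'.D2 = β.D2 ∧ β'.D3 = β.D3 := by
  classical
  obtain ⟨d, hd⟩ : ∃ d : ℕ, d = Module.finrank ℚ K := ⟨_, rfl⟩
  obtain ⟨C0, hC0, hbal⟩ := unit_bal K 1 one_ne_zero
  obtain ⟨Cr, hCr, hround⟩ := round_b K
  have hM1 : (1 : ℝ) ≤ M := by exact_mod_cast Nat.one_le_iff_ne_zero.2 hM
  obtain ⟨Cq, hCq⟩ : ∃ Cq : ℝ, Cq = max 1 (C0 * M) := ⟨_, rfl⟩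
  have hCq1 : 1 ≤ Cq := by rw [hCq]; exact le_max_left _ _
  obtain ⟨Cb, hCb⟩ : ∃ Cb : ℝ, Cb = Cq + Cr := ⟨_, rfl⟩
  have hCb1 : 1 ≤ Cb := by rw [hCb]; linarith
  obtain ⟨n0, hn0⟩ : ∃ n0 : ℕ, n0 = (A + 1) * (d + 1) := ⟨_, rfl⟩
  obtain ⟨n1, hn1⟩ : ∃ n1 : ℕ, n1 = (A + 2 * n0) * (d + 1) + 1 := ⟨_, rfl⟩
  have hCqd : 1 ≤ Cq ^ (2 * d) := one_le_pow₀ hCq1
  obtain ⟨C1, hC1⟩ : ∃ C1 : ℝ, C1 = 128 * (Cb * C) + C * Cq ^ 2 + C * Cq ^ (2 * d) := ⟨_, rfl⟩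
  have hq2 : 1 ≤ Cq ^ 2 := one_le_pow₀ hCq1
  have e1 : Cb * C ≤ C1 ∧ C ≤ C1 ∧ C * Cq ^ 2 ≤ C1 ∧ C * Cq ^ (2 * d) ≤ C1 ∧ 128 * (Cb * C) ≤ C1 ∧
      Cr ≤ C1 := by
    have h1 : 0 ≤ C * Cq ^ 2 := by positivity
    have h2 : 0 ≤ C * Cq ^ (2 * d) := by positivity
    have h3 : C ≤ Cb * C := le_mul_of_one_le_left (by linarith) hCb1
    have h4 : Cb ≤ Cb * C := le_mul_of_one_le_right (by linarith) hC
    have h5 : Cr ≤ Cb := by rw [hCb]; linarith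
    rw [hC1]
    refine ⟨by nlinarith, by nlinarith, by nlinarith, by nlinarith, by nlinarith, by nlinarith⟩
  refine ⟨C1, 5 * n1 + 1, e1.2.1, fun s t hRg u v β hA hD hall hrep => ?_⟩
  obtain ⟨ht, hs⟩ := pos_of_rg hC hRg
  obtain ⟨B, hB⟩ : ∃ B : ℝ, B = C * (1 + s) := ⟨_, rfl⟩
  have hB1 : 1 ≤ B := by rw [hB]; nlinarith
  obtain ⟨T, hT⟩ : ∃ T : ℝ, T = Cb * B := ⟨_, rfl⟩
  have hBT : B ≤ T := by rw [hT]; exact le_mul_of_one_le_left (by linarith) hCb1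
  have hT1 : 1 ≤ T := hB1.trans hBT
  have hT0 : 0 < T := by linarith
  have hCbT : Cb ≤ T := by rw [hT]; exact le_mul_of_one_le_right (by linarith) hB1
  have hCqT : Cq ≤ T := by
    refine le_trans ?_ hCbT
    rw [hCb]
    linarith
  have hCrT : Cr ≤ T := by
    refine le_trans ?_ hCbT
    rw [hCb]
    linarith
  obtain ⟨H, hH⟩ : ∃ H : ℝ, H = Hp C A s := ⟨_, rfl⟩
  have hHB : H = B ^ A := by rw [hH, hB]; rfl
  have hH1 : 1 ≤ H := by rw [hHB]; exact one_le_pow₀ hB1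
  have hHT : H ≤ T ^ A := by rw [hHB]; exact pow_le_pow_left₀ (by linarith) hBT A
  rw [← hH] at hall hrep
  obtain ⟨π, r, r', ⟨hp1, hp2, hq1, hq2'⟩, hsol⟩ := hrep
  obtain ⟨hc1, hc2, hc3, hb10, hD10, hb2s, hD1s, hbk⟩ := hD
  have hc1' : Bd H β.c3 := hall.2.2.2.2.2
  -- the equation for `v`
  have e4 : v = -(β.c3 * π.q1 ^ 2) := by
    rw [← hsol.e4]
    unfold Blk.D3 Blk.Ac
    rw [hc1, hc2]
    ring
  have hv0 := hA.v0
  have hq10 : π.q1 ≠ 0 := by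
    intro h
    rw [h] at e4
    apply hv0
    rw [e4]
    ring
  have hszv : ∀ φ, sz φ v = sz φ β.c3 * sz φ π.q1 ^ 2 := by
    intro φ
    rw [e4, sz_neg, sz_mul, sz_pow]
  have hnq : nz π.q1 ≤ (M : ℝ) ^ d := by
    obtain ⟨g1, -⟩ := sq_q hM hv0 hA.sqv e4
    have g2 : nz v = nz β.c3 * nz π.q1 ^ 2 := by
      rw [e4, nz_neg, nz_mul, nz_pow]
    have g3 := nz_pos hc3
    rw [g2, ← hd, mul_comm] at g1
    have g4 : nz π.q1 ^ 2 ≤ ((M : ℝ) ^ d) ^ 2 := le_of_mul_le_mul_right g1 g3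
    exact le_of_sq_le_sq g4 (by positivity)
  -- the unit
  obtain ⟨ε, hε⟩ := hbal (fun φ => sz φ π.q1) (fun φ => sz_pos φ hq10) (fun φ => sz_conj φ _)
  obtain ⟨e, he⟩ : ∃ e : 𝓞 K, e = (ε : 𝓞 K) := ⟨_, rfl⟩
  obtain ⟨ei, hei⟩ : ∃ ei : 𝓞 K, ei = ((ε⁻¹ : (𝓞 K)ˣ) : 𝓞 K) := ⟨_, rfl⟩
  have hee : e * ei = 1 := by rw [he, hei]; exact ε.mul_inv
  have hd0 : (0 : ℝ) < d := by rw [hd]; exact_mod_cast Module.finrank_pos
  have hqs : ∀ φ, sz φ (e * π.q1) ≤ Cq := by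
    intro φ
    have h1 := (hε φ).1
    rw [pow_one] at h1
    have h2 : (∏ ψ : K →+* ℂ, sz ψ π.q1) ^ (1 / (Module.finrank ℚ K : ℝ)) ≤ M := by
      have h3 : (∏ ψ : K →+* ℂ, sz ψ π.q1) = nz π.q1 := rfl
      rw [h3, ← hd]
      refine (Real.rpow_le_rpow (nz_nonneg _) hnq (by positivity)).trans (le_of_eq ?_)
      rw [← Real.rpow_natCast, ← Real.rpow_mul (by positivity), mul_one_div_cancel hd0.ne',
        Real.rpow_one]
    have h4 : ‖φ ((ε : 𝓞 K) : K)‖ * sz φ π.q1 ≤ C0 * M :=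
      h1.trans (mul_le_mul_of_nonneg_left h2 hC0.le)
    rw [sz_mul, hCq, he]
    exact h4.trans (le_max_right _ _)
  have he0 : e ≠ 0 := fun h => by rw [h, zero_mul] at hee; exact zero_ne_one hee
  have hei0 : ei ≠ 0 := fun h => by rw [h, mul_zero] at hee; exact zero_ne_one hee
  have hq0' : e * π.q1 ≠ 0 := mul_ne_zero he0 hq10
  have hqlow : ∀ φ, (Cq ^ d)⁻¹ ≤ sz φ (e * π.q1) := fun φ => by
    rw [hd]
    exact sz_low hq0' hCq1 hqs φ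
  have hqlow1 : ∀ φ, (H ^ d)⁻¹ ≤ sz φ π.q1 := fun φ => by
    rw [hd]
    exact sz_low hq10 hH1 hq1 φ
  have hse : ∀ φ, sz φ e * sz φ ei = 1 := fun φ => by rw [← sz_mul, hee, sz_one]
  have hEe : ∀ φ, sz φ e ≤ T ^ n0 := by
    intro φ
    have h1 := hqs φ
    rw [sz_mul] at h1
    have h2 := hqlow1 φ
    have hHd : 0 < H ^ d := pow_pos (by linarith) _
    have h3 : sz φ e ≤ Cq * H ^ d := by
      have h4 : sz φ e * (H ^ d)⁻¹ ≤ Cq :=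
        (mul_le_mul_of_nonneg_left h2 (sz_nonneg _ _)).trans h1
      rwa [← div_eq_mul_inv, div_le_iff₀ hHd] at h4
    calc sz φ e ≤ Cq * H ^ d := h3
      _ ≤ T * (T ^ A) ^ d := mul_le_mul hCqT (pow_le_pow_left₀ (by linarith) hHT d)
          (by positivity) hT0.le
      _ = T ^ (A * d + 1) := by rw [← pow_mul, pow_succ]; ring
      _ ≤ T ^ n0 := pow_le_pow_right₀ hT1 (by rw [hn0]; nlinarith)
  have hEi : ∀ φ, sz φ ei ≤ T ^ n0 := by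
    intro φ
    have h2 := hqlow φ
    rw [sz_mul] at h2
    have hCd : 0 < Cq ^ d := pow_pos (by linarith) _
    have h3 : sz φ ei * (Cq ^ d)⁻¹ ≤ H := by
      calc sz φ ei * (Cq ^ d)⁻¹ ≤ sz φ ei * (sz φ e * sz φ π.q1) :=
            mul_le_mul_of_nonneg_left h2 (sz_nonneg _ _)
        _ = (sz φ e * sz φ ei) * sz φ π.q1 := by ring
        _ = sz φ π.q1 := by rw [hse, one_mul]
        _ ≤ H := hq1 φ
    rw [← div_eq_mul_inv, div_le_iff₀ hCd] at h3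
    calc sz φ ei ≤ H * Cq ^ d := h3
      _ ≤ T ^ A * T ^ d := mul_le_mul hHT (pow_le_pow_left₀ (by linarith) hCqT d)
          (by positivity) (by positivity)
      _ = T ^ (A + d) := by rw [← pow_add]
      _ ≤ T ^ n0 := pow_le_pow_right₀ hT1 (by rw [hn0]; nlinarith)
  -- rounding
  obtain ⟨X1, hX1⟩ : ∃ X1 : ℝ, X1 = T ^ (A + 2 * n0) := ⟨_, rfl⟩
  have hX11 : 1 ≤ X1 := by rw [hX1]; exact one_le_pow₀ hT1
  have hTAX : T ^ A ≤ X1 := by rw [hX1]; exact pow_le_pow_right₀ hT1 (by omega)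
  have hB1X : Bd X1 (β.b1 * e ^ 2) := by
    intro φ
    change sz φ (β.b1 * e ^ 2) ≤ X1
    rw [sz_mul, sz_pow]
    calc sz φ β.b1 * sz φ e ^ 2 ≤ T ^ A * (T ^ n0) ^ 2 :=
          mul_le_mul ((hall.1 φ).trans hHT) (pow_le_pow_left₀ (sz_nonneg _ _) (hEe φ) 2)
            (by have := sz_nonneg φ e; positivity) (by positivity)
      _ = X1 := by rw [hX1, ← pow_mul, ← pow_add]; congr 1; ring
  have hB2X : Bd X1 β.b2 := fun φ => (hall.2.1 φ).trans (hHT.trans hTAX)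
  have hb1'0 : β.b1 * e ^ 2 ≠ 0 := mul_ne_zero hb10 (pow_ne_zero 2 he0)
  obtain ⟨τ, hτ1, hτ2⟩ := hround X1 hX11 (β.b1 * e ^ 2) β.b2 hb1'0 hB1X hB2X
  obtain ⟨X2, hX2⟩ : ∃ X2 : ℝ, X2 = Cr + X1 * X1 ^ d := ⟨_, rfl⟩
  rw [← hd, ← hX2] at hτ2
  have hX1p : X1 ≤ X1 * X1 ^ d := le_mul_of_one_le_right (by linarith) (one_le_pow₀ hX11)
  have hX12 : X1 ≤ X2 := by rw [hX2]; linarith
  have hX21 : 1 ≤ X2 := hX11.trans hX12
  have hX20 : 0 < X2 := by linarith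
  have hX2T : X2 ≤ 2 * T ^ n1 := by
    have h1 : X1 * X1 ^ d = T ^ ((A + 2 * n0) * (d + 1)) := by
      rw [hX1, ← pow_succ', ← pow_mul]
    have h2 : T ^ ((A + 2 * n0) * (d + 1)) ≤ T ^ n1 := pow_le_pow_right₀ hT1 (by omega)
    have h3 : T ≤ T ^ n1 := le_self_pow₀ hT1 (by omega)
    rw [hX2, h1]
    linarith
  have hTn : T ^ n0 ≤ X2 := by
    refine le_trans ?_ hX12
    rw [hX1]
    exact pow_le_pow_right₀ hT1 (by omega)
  have f1 : ∀ x : 𝓞 K, Bd H x → ∀ φ, sz φ x ≤ X2 := fun x hx φ =>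
    (hx φ).trans (hHT.trans (hTAX.trans hX12))
  have fe : ∀ φ, sz φ e ≤ X2 := fun φ => (hEe φ).trans hTn
  have fi : ∀ φ, sz φ ei ≤ X2 := fun φ => (hEi φ).trans hTn
  have fτ : ∀ φ, sz φ τ ≤ X2 := fun φ => hτ2 φ
  -- all is at most `4 X2 ^ 5`
  obtain ⟨Y, hY⟩ : ∃ Y : ℝ, Y = 4 * X2 ^ 5 := ⟨_, rfl⟩
  have hYH : Y ≤ Hp C1 (5 * n1 + 1) s := by
    have h1 : Y ≤ 4 * (2 * T ^ n1) ^ 5 := by
      rw [hY]
      exact mul_le_mul_of_nonneg_left (pow_le_pow_left₀ hX20.le hX2T 5) (by norm_num)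
    have h2 : (4 : ℝ) * (2 * T ^ n1) ^ 5 = 128 * T ^ (5 * n1) := by
      rw [mul_pow, ← pow_mul, mul_comm n1 5]
      ring
    have h3 : 128 * T ^ (5 * n1) ≤ (128 * T) ^ (5 * n1 + 1) := by
      rw [mul_pow]
      have h4 : (128 : ℝ) ≤ 128 ^ (5 * n1 + 1) := le_self_pow₀ (by norm_num) (by omega)
      have h5 : T ^ (5 * n1) ≤ T ^ (5 * n1 + 1) := pow_le_pow_right₀ hT1 (by omega)
      exact mul_le_mul h4 h5 (by positivity) (by positivity)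
    have h6 : 128 * T ≤ C1 * (1 + s) := by
      rw [hT, hB]
      calc 128 * (Cb * (C * (1 + s))) = (128 * (Cb * C)) * (1 + s) := by ring
        _ ≤ C1 * (1 + s) := mul_le_mul_of_nonneg_right e1.2.2.2.2.1 (by linarith)
    unfold Hp
    rw [h2] at h1
    exact (h1.trans h3).trans (pow_le_pow_left₀ (by positivity) h6 _)
  have g : ∀ n : ℕ, n ≤ 5 → X2 ^ n ≤ X2 ^ 5 := fun n hn => pow_le_pow_right₀ hX21 hn
  have m2 : ∀ (φ : K →+* ℂ) {x y : 𝓞 K} {a b : ℕ}, sz φ x ≤ X2 ^ a → sz φ y ≤ X2 ^ b →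
      sz φ (x * y) ≤ X2 ^ (a + b) := by
    intro φ x y a b hx hy
    rw [sz_mul, pow_add]
    exact mul_le_mul hx hy (sz_nonneg _ _) (by positivity)
  have x1 : ∀ (φ : K →+* ℂ) {x : 𝓞 K}, sz φ x ≤ X2 → sz φ x ≤ X2 ^ 1 := fun φ x h => by
    rwa [pow_one]
  obtain ⟨γ, hγ⟩ : ∃ γ : Blk (𝓞 K), γ = chg e (τ * e) 0 ei β := ⟨_, rfl⟩
  have hdet : (e * ei - (τ * e) * 0) ^ 2 = (1 : 𝓞 K) := by rw [hee]; ring
  have gb1 : γ.b1 = β.b1 * e ^ 2 := by rw [hγ]; simp only [chg]; ring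
  have gb2 : γ.b2 = β.b2 + τ * (β.b1 * e ^ 2) := by
    rw [hγ]
    simp only [chg]
    linear_combination β.b2 * hee
  have gb3 : γ.b3 = β.b1 * (τ * e) ^ 2 + 2 * β.b2 * (τ * e * ei) + β.b3 * ei ^ 2 := by
    rw [hγ]; simp only [chg]
  have gc1 : γ.c1 = 0 := by rw [hγ]; simp only [chg, hc1, hc2]; ring
  have gc2 : γ.c2 = 0 := by rw [hγ]; simp only [chg, hc1, hc2]; ring
  have gc3 : γ.c3 = β.c3 * ei ^ 2 := by rw [hγ]; simp only [chg, hc1, hc2]; ring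
  have gD1 : γ.D1 = β.D1 := by rw [hγ, chg_D1, hdet, one_mul]
  have gD2 : γ.D2 = β.D2 := by rw [hγ, chg_D2, hdet, one_mul]
  have gD3 : γ.D3 = β.D3 := by rw [hγ, chg_D3, hdet, one_mul]
  have hsol' := chg_sol e (τ * e) 0 ei hsol
  rw [hdet, one_mul, one_mul, ← hγ] at hsol'
  have hksz : ∀ φ, sz φ γ.c3 * sz φ (e * π.q1) ^ 2 = sz φ v := by
    intro φ
    rw [hszv, gc3, sz_mul, sz_pow, sz_mul, mul_pow]
    have := hse φ
    calc sz φ β.c3 * sz φ ei ^ 2 * (sz φ e ^ 2 * sz φ π.q1 ^ 2)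
        = sz φ β.c3 * (sz φ e * sz φ ei) ^ 2 * sz φ π.q1 ^ 2 := by ring
      _ = _ := by rw [this]; ring
  refine ⟨γ, ⟨gc1, gc2, ?_, ?_, ?_, ?_, ?_, ?_, ?_, ?_⟩, ?_, ?_, gD1, gD2, gD3⟩
  · rw [gc3]
    exact mul_ne_zero hc3 (pow_ne_zero 2 hei0)
  · rw [gb1]
    exact hb1'0
  · rw [gD1]
    exact hD10
  · intro φ
    have h1 : t ^ 3 ≤ C * sz φ v := hA.vge φ
    rw [← hksz] at h1
    have h2 : sz φ (e * π.q1) ^ 2 ≤ Cq ^ 2 := pow_le_pow_left₀ (sz_nonneg _ _) (hqs φ) 2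
    have h3 := sz_nonneg φ γ.c3
    calc t ^ 3 ≤ C * (sz φ γ.c3 * sz φ (e * π.q1) ^ 2) := h1
      _ ≤ C * (sz φ γ.c3 * Cq ^ 2) :=
          mul_le_mul_of_nonneg_left (mul_le_mul_of_nonneg_left h2 h3) (by linarith)
      _ = C * Cq ^ 2 * sz φ γ.c3 := by ring
      _ ≤ C1 * sz φ γ.c3 := mul_le_mul_of_nonneg_right e1.2.2.1 h3
  · intro φ
    have h1 : sz φ v ≤ C * t ^ 3 := hA.vle φ
    rw [← hksz] at h1
    have h2 : ((Cq ^ d)⁻¹) ^ 2 ≤ sz φ (e * π.q1) ^ 2 :=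
      pow_le_pow_left₀ (by positivity) (hqlow φ) 2
    have h3 := sz_nonneg φ γ.c3
    have h4 : sz φ γ.c3 * ((Cq ^ d)⁻¹) ^ 2 ≤ C * t ^ 3 :=
      (mul_le_mul_of_nonneg_left h2 h3).trans h1
    have hCd : 0 < (Cq ^ d) ^ 2 := by positivity
    rw [inv_pow, ← div_eq_mul_inv, div_le_iff₀ hCd] at h4
    calc sz φ γ.c3 ≤ C * t ^ 3 * (Cq ^ d) ^ 2 := h4
      _ = C * Cq ^ (2 * d) * t ^ 3 := by
          rw [← pow_mul, mul_comm d 2]
          ring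
      _ ≤ C1 * t ^ 3 := mul_le_mul_of_nonneg_right e1.2.2.2.1 (by positivity)
  · intro φ
    have h1 : γ.b1 * γ.c3 = β.b1 * β.c3 := by
      rw [gb1, gc3]
      calc β.b1 * e ^ 2 * (β.c3 * ei ^ 2) = β.b1 * β.c3 * (e * ei) ^ 2 := by ring
        _ = _ := by rw [hee]; ring
    rw [h1]
    exact (hbk φ).trans (mul_le_mul_of_nonneg_right e1.2.1 (by positivity))
  · intro φ
    rw [gb2, gb1]
    exact (hτ1 φ).trans (mul_le_mul_of_nonneg_right e1.2.2.2.2.2 (sz_nonneg _ _))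
  · intro φ
    rw [gD1]
    exact (hD1s φ).trans (mul_le_mul_of_nonneg_right e1.2.1 (by positivity))
  · have hle : ∀ (φ : K →+* ℂ) (x : 𝓞 K), sz φ x ≤ X2 ^ 5 → sz φ x ≤ Hp C1 (5 * n1 + 1) s :=
      fun φ x hx => by
        refine le_trans ?_ hYH
        rw [hY]
        have : 0 < X2 ^ 5 := by positivity
        linarith
    refine ⟨fun φ => hle φ _ ?_, fun φ => ?_, fun φ => ?_, fun φ => hle φ _ ?_, fun φ => hle φ _ ?_,
      fun φ => hle φ _ ?_⟩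
    · rw [gb1]
      have := hB1X φ
      exact (this.trans hX12).trans (le_self_pow₀ hX21 (by norm_num))
    · change sz φ γ.b2 ≤ _
      rw [gb2]
      have h1 : sz φ β.b2 ≤ X2 ^ 5 := (f1 _ hall.2.1 φ).trans (le_self_pow₀ hX21 (by norm_num))
      have h2 : sz φ (τ * (β.b1 * e ^ 2)) ≤ X2 ^ 2 :=
        m2 φ (x1 φ (fτ φ)) (x1 φ ((hB1X φ).trans hX12))
      have h3 := sz_add φ β.b2 (τ * (β.b1 * e ^ 2))
      have h4 := g 2 (by norm_num)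
      refine le_trans ?_ hYH
      rw [hY]
      have : 0 < X2 ^ 5 := by positivity
      linarith
    · change sz φ γ.b3 ≤ _
      rw [gb3]
      have hτe : sz φ (τ * e) ≤ X2 ^ 2 := m2 φ (x1 φ (fτ φ)) (x1 φ (fe φ))
      have h1 : sz φ (β.b1 * (τ * e) ^ 2) ≤ X2 ^ 5 := by
        rw [pow_two (τ * e)]
        exact m2 φ (x1 φ (f1 _ hall.1 φ)) (m2 φ hτe hτe)
      have h2 : sz φ (β.b2 * (τ * e * ei)) ≤ X2 ^ 4 :=
        m2 φ (x1 φ (f1 _ hall.2.1 φ)) (m2 φ hτe (x1 φ (fi φ)))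
      have h3 : sz φ (β.b3 * ei ^ 2) ≤ X2 ^ 3 := by
        rw [pow_two ei]
        exact m2 φ (x1 φ (f1 _ hall.2.2.1 φ)) (m2 φ (x1 φ (fi φ)) (x1 φ (fi φ)))
      have h4 : sz φ (2 * β.b2 * (τ * e * ei)) ≤ 2 * X2 ^ 5 := by
        rw [mul_assoc, sz_mul, sz_two]
        have := g 4 (by norm_num)
        linarith
      have h5 := sz_add φ (β.b1 * (τ * e) ^ 2 + 2 * β.b2 * (τ * e * ei)) (β.b3 * ei ^ 2)
      have h6 := sz_add φ (β.b1 * (τ * e) ^ 2) (2 * β.b2 * (τ * e * ei))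
      have h7 := g 3 (by norm_num)
      refine le_trans ?_ hYH
      rw [hY]
      linarith
    · rw [gc1, sz_zero]
      positivity
    · rw [gc2, sz_zero]
      positivity
    · rw [gc3, pow_two ei]
      exact (m2 φ (x1 φ (f1 _ hc1' φ)) (m2 φ (x1 φ (fi φ)) (x1 φ (fi φ)))).trans (g 3 (by norm_num))
  · have row : ∀ (x y : 𝓞 K), Bd H x → Bd H y → Bd (Hp C1 (5 * n1 + 1) s) (e * x + 0 * y) ∧
        Bd (Hp C1 (5 * n1 + 1) s) (τ * e * x + ei * y) := by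
      intro x y hx hy
      refine ⟨fun φ => ?_, fun φ => ?_⟩
      · change sz φ (e * x + 0 * y) ≤ _
        have h0 : e * x + 0 * y = e * x := by ring
        rw [h0]
        have h1 : sz φ (e * x) ≤ X2 ^ 2 := m2 φ (x1 φ (fe φ)) (x1 φ (f1 x hx φ))
        have h2 := g 2 (by norm_num)
        refine le_trans ?_ hYH
        rw [hY]
        have : 0 < X2 ^ 5 := by positivity
        linarith
      · change sz φ (τ * e * x + ei * y) ≤ _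
        have h1 : sz φ (τ * e * x) ≤ X2 ^ 3 :=
          m2 φ (m2 φ (x1 φ (fτ φ)) (x1 φ (fe φ))) (x1 φ (f1 x hx φ))
        have h2 : sz φ (ei * y) ≤ X2 ^ 2 := m2 φ (x1 φ (fi φ)) (x1 φ (f1 y hy φ))
        have h3 := sz_add φ (τ * e * x) (ei * y)
        have h4 := g 2 (by norm_num)
        have h5 := g 3 (by norm_num)
        refine le_trans ?_ hYH
        rw [hY]
        have : 0 < X2 ^ 5 := by positivity
        linarith
    refine ⟨chr e (τ * e) 0 ei π, r, r', ⟨?_, ?_, ?_, ?_⟩, hsol'⟩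
    · exact (row _ _ hp1 hp2).1
    · exact (row _ _ hp1 hp2).2
    · exact (row _ _ hq1 hq2').1
    · exact (row _ _ hq1 hq2').2

end H37.DG
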