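import Pool.Agent.H88.WS.Iface
import Pool.Agent.H67.WA.Cnt

/-!
# Deg2 (T3, MP_b39724): divisor functions of ideals

`tau_le`: `∏ (od P I + 1) ≤ C ni(I)^ε`. `dvs`: `∏_{P ∈ pf I, Q P} (od P I + 1)` divisors of `I` whose primes satisfy `Q`.
-/

set_option autoImplicit false

open scoped NumberField
open H88.A4 Pool.Agent.H67.WA H88.WS

noncomputable section

namespace H37.DG

variable {K : Type} [Field K] [NumberField K]

theorem prod_norm {I : Ideal (𝓞 K)} (hI : I ≠ ⊥) : ∏ P ∈ pf I, ni P ^ od P I = ni I := by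
  classical
  unfold pf od ni
  have h1 := Ideal.prod_normalizedFactors_eq_self hI
  have h2 : Ideal.absNorm I = ((UniqueFactorizationMonoid.normalizedFactors I).map
      (Ideal.absNorm (S := 𝓞 K))).prod := by
    rw [← map_multiset_prod, h1]
  rw [h2, Finset.prod_multiset_map_count]
  push_cast
  rfl

theorem pf_prime' {I P : Ideal (𝓞 K)} (hP : P ∈ pf I) : P.IsPrime ∧ P ≠ ⊥ := by
  classical
  unfold pf at hP
  rw [Multiset.mem_toFinset] at hP
  have h1 := UniqueFactorizationMonoid.prime_of_normalized_factor P hP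
  exact ⟨Ideal.isPrime_of_prime h1, h1.ne_zero⟩

theorem two_le_ni {P : Ideal (𝓞 K)} (hP : P.IsPrime) (h0 : P ≠ ⊥) : 2 ≤ ni P := by
  have h2 : Ideal.absNorm P ≠ 0 := by
    rw [Ne, Ideal.absNorm_eq_zero_iff]
    exact h0
  have h3 : Ideal.absNorm P ≠ 1 := by
    rw [Ne, Ideal.absNorm_eq_one_iff]
    exact hP.ne_top
  unfold ni
  have h5 : 2 ≤ Ideal.absNorm P := by omega
  exact_mod_cast h5

private theorem fac_le {a : ℝ} (ha : 0 < a) {N : ℝ} (hN : 2 ≤ N) (k : ℕ) :
    ((k : ℝ) + 1) ≤ (1 + 1 / (a * Real.log 2)) * (N ^ k) ^ a ∧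
      (2 ≤ N ^ a → (k : ℝ) + 1 ≤ (N ^ k) ^ a) := by
  have hN0 : 0 < N := by linarith
  have e1 : (N ^ k) ^ a = (N ^ a) ^ k := by
    rw [← Real.rpow_natCast N k, ← Real.rpow_mul hN0.le, mul_comm, Real.rpow_mul hN0.le,
      Real.rpow_natCast]
  have hl : 0 < Real.log 2 := Real.log_pos (by norm_num)
  refine ⟨?_, fun h2 => ?_⟩
  · have h3 : Real.exp (k * (a * Real.log 2)) ≤ (N ^ k) ^ a := by
      have h4 : (2 : ℝ) ^ k ≤ N ^ k := pow_le_pow_left₀ (by norm_num) hN k
      have h5 : ((2 : ℝ) ^ k) ^ a ≤ (N ^ k) ^ a := Real.rpow_le_rpow (by positivity) h4 ha.le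
      refine le_trans (le_of_eq ?_) h5
      rw [Real.rpow_def_of_pos (by positivity), Real.log_pow]
      congr 1
      ring
    have h6 := Real.add_one_le_exp (k * (a * Real.log 2))
    have h7 : 0 < a * Real.log 2 := by positivity
    have h8 : (k : ℝ) + 1 ≤ (1 + 1 / (a * Real.log 2)) * (k * (a * Real.log 2) + 1) := by
      have h9 : (1 + 1 / (a * Real.log 2)) * (k * (a * Real.log 2) + 1) =
          k * (a * Real.log 2) + 1 + k + 1 / (a * Real.log 2) := by
        field_simp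
        ring
      rw [h9]
      have h10 : 0 ≤ 1 / (a * Real.log 2) := by positivity
      have h11 : 0 ≤ (k : ℝ) * (a * Real.log 2) := by positivity
      linarith
    refine h8.trans (mul_le_mul_of_nonneg_left (h6.trans h3) (by positivity))
  · rw [e1]
    refine le_trans ?_ (pow_le_pow_left₀ (by norm_num) h2 k)
    have h3 : k + 1 ≤ 2 ^ k := Nat.lt_two_pow_self
    exact_mod_cast h3

variable (K)

theorem tau_le (a : ℝ) (ha0 : 0 < a) : ∃ C : ℝ, 1 ≤ C ∧ ∀ I : Ideal (𝓞 K), I ≠ ⊥ →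
    ∏ P ∈ pf I, ((od P I : ℝ) + 1) ≤ C * ni I ^ a := by
  classical
  have hl : 0 < Real.log 2 := Real.log_pos (by norm_num)
  set T : Finset (Ideal (𝓞 K)) :=
    (Ideal.finite_setOfPred_absNorm_le (S := 𝓞 K) ⌈(2 : ℝ) ^ (1 / a)⌉₊).toFinset with hT
  set c1 : ℝ := 1 + 1 / (a * Real.log 2) with hc1
  have hc11 : 1 ≤ c1 := by
    have : 0 ≤ 1 / (a * Real.log 2) := by positivity
    linarith
  refine ⟨c1 ^ T.card, one_le_pow₀ hc11, fun I hI0 => ?_⟩
  have h2 : ∀ P ∈ pf I, (od P I : ℝ) + 1 ≤ (if P ∈ T then c1 else 1) * (ni P ^ od P I) ^ a := by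
    intro P hP
    have h3 := two_le_ni (pf_prime' hP).1 (pf_prime' hP).2
    have h4 := fac_le ha0 h3 (od P I)
    by_cases hPT : P ∈ T
    · rw [if_pos hPT]
      exact h4.1
    · rw [if_neg hPT, one_mul]
      apply h4.2
      rw [hT, Set.Finite.mem_toFinset, Set.mem_ofPred_eq, not_le] at hPT
      have h5 : (2 : ℝ) ^ (1 / a) ≤ ni P := by
        refine (Nat.le_ceil _).trans ?_
        unfold ni
        exact_mod_cast hPT.le
      have h6 := Real.rpow_le_rpow (by positivity) h5 ha0.le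
      rwa [← Real.rpow_mul (by norm_num), one_div_mul_cancel ha0.ne', Real.rpow_one] at h6
  refine (Finset.prod_le_prod (fun _ _ => by positivity) h2).trans ?_
  rw [Finset.prod_mul_distrib]
  have h4 : ∏ P ∈ pf I, (ni P ^ od P I) ^ a = ni I ^ a := by
    rw [Real.finsetProd_rpow _ _ (fun P _ => pow_nonneg (ni_nonneg P) _), prod_norm hI0]
  rw [h4]
  refine mul_le_mul_of_nonneg_right ?_ (Real.rpow_nonneg (ni_nonneg I) _)
  rw [← Finset.prod_filter, Finset.prod_const]
  refine pow_le_pow_right₀ hc11 (Finset.card_le_card ?_)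
  intro P hP
  exact (Finset.mem_filter.1 hP).2

variable {K}

/-- a product of ideals without common prime -/
theorem cop_of {I J : Ideal (𝓞 K)} (h : ∀ P : Ideal (𝓞 K), P.IsPrime → I ≤ P → J ≤ P → False) :
    IsCoprime I J := by
  rw [Ideal.isCoprime_iff_sup_eq]
  by_contra hne
  obtain ⟨M, hM, hle⟩ := Ideal.exists_le_maximal _ hne
  exact h M hM.isPrime (le_sup_left.trans hle) (le_sup_right.trans hle)

theorem le_mul_of_cop {I J L : Ideal (𝓞 K)} (h : IsCoprime I J) (h1 : L ≤ I) (h2 : L ≤ J) :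
    L ≤ I * J := by
  rw [Ideal.mul_eq_inf_of_isCoprime h]
  exact le_inf h1 h2

theorem eq_of_le {P Q : Ideal (𝓞 K)} (hP : P.IsPrime) (h0 : P ≠ ⊥) (hQ : Q.IsPrime) (h : P ≤ Q) :
    P = Q := (hP.isMaximal h0).eq_of_le hQ.ne_top h

theorem le_pow_od {I P : Ideal (𝓞 K)} (hI : I ≠ ⊥) (hP : P ∈ pf I) {i : ℕ} (hi : i ≤ od P I) :
    I ≤ P ^ i := by
  classical
  refine le_trans ?_ (Ideal.pow_le_pow_right hi)
  apply Ideal.le_of_dvd
  unfold od
  have h1 := Ideal.prod_normalizedFactors_eq_self hI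
  have h2 : Multiset.replicate ((UniqueFactorizationMonoid.normalizedFactors I).count P) P ≤
      UniqueFactorizationMonoid.normalizedFactors I := Multiset.le_count_iff_replicate_le.1 le_rfl
  have h3 := Multiset.prod_dvd_prod_of_le h2
  rwa [h1, Multiset.prod_replicate] at h3

theorem mem_pf {I P : Ideal (𝓞 K)} (hI : I ≠ ⊥) (hP : P.IsPrime) (h0 : P ≠ ⊥) (h : I ≤ P) :
    P ∈ pf I := by
  classical
  unfold pf
  rw [Multiset.mem_toFinset]
  rw [UniqueFactorizationMonoid.mem_normalizedFactors_iff hI]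
  exact ⟨Ideal.prime_of_isPrime h0 hP, Ideal.dvd_iff_le.2 h⟩

theorem pf_le {I P : Ideal (𝓞 K)} (hP : P ∈ pf I) : I ≤ P := by
  classical
  unfold pf at hP
  rw [Multiset.mem_toFinset] at hP
  exact Ideal.le_of_dvd (UniqueFactorizationMonoid.dvd_of_mem_normalizedFactors hP)

private theorem dvs_aux {I : Ideal (𝓞 K)} (hI : I ≠ ⊥) (S : Finset (Ideal (𝓞 K))) :
    S ⊆ pf I → ∃ E : Finset (Ideal (𝓞 K)), ∏ P ∈ S, (od P I + 1) ≤ E.card ∧
      ∀ e ∈ E, I ≤ e ∧ ∀ P : Ideal (𝓞 K), P.IsPrime → e ≤ P → P ∈ S := by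
  classical
  induction S using Finset.induction_on with
  | empty =>
    intro _
    refine ⟨{⊤}, by simp, fun e he => ?_⟩
    rw [Finset.mem_singleton] at he
    subst he
    exact ⟨le_top, fun P hP h => absurd (top_le_iff.1 h) hP.ne_top⟩
  | insert P S hPS ih =>
    intro hS
    obtain ⟨E, hE1, hE2⟩ := ih fun x hx => hS (Finset.mem_insert_of_mem hx)
    have hP : P ∈ pf I := hS (Finset.mem_insert_self _ _)
    obtain ⟨hPp, hP0⟩ := pf_prime' hP
    have hne : ∀ e ∈ E, ¬ e ≤ P := fun e he h => hPS ((hE2 e he).2 P hPp h)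
    refine ⟨(E ×ˢ Finset.range (od P I + 1)).image fun x => x.1 * P ^ x.2, ?_, ?_⟩
    · rw [Finset.card_image_of_injOn, Finset.card_product, Finset.card_range,
        Finset.prod_insert hPS, mul_comm]
      · exact Nat.mul_le_mul_right _ hE1
      · have key : ∀ e ∈ E, ∀ e' ∈ E, ∀ i j : ℕ, i ≤ j → e * P ^ i = e' * P ^ j → i = j := by
          intro e he e' _ i j hij h
          by_contra hne'
          have h1 : e = e' * P ^ (j - i) := by
            have h2 : e * P ^ i = (e' * P ^ (j - i)) * P ^ i := by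
              rw [h, mul_assoc, ← pow_add, Nat.sub_add_cancel hij]
            exact mul_right_cancel₀ (pow_ne_zero i hP0) h2
          apply hne e he
          rw [h1]
          have h3 : j - i ≠ 0 := by omega
          exact Ideal.mul_le_right.trans (Ideal.pow_le_self h3)
        intro x hx y hy hxy
        simp only [Finset.coe_product, Set.mem_prod, Finset.mem_coe] at hx hy
        have hxy' : x.1 * P ^ x.2 = y.1 * P ^ y.2 := hxy
        have h2 : x.2 = y.2 := by
          rcases le_total x.2 y.2 with h | h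
          · exact key _ hx.1 _ hy.1 _ _ h hxy'
          · exact (key _ hy.1 _ hx.1 _ _ h hxy'.symm).symm
        rw [h2] at hxy'
        exact Prod.ext (mul_right_cancel₀ (pow_ne_zero _ hP0) hxy') h2
    · intro e' he'
      obtain ⟨⟨e, i⟩, hx, rfl⟩ := Finset.mem_image.1 he'
      simp only [Finset.mem_product, Finset.mem_range] at hx
      obtain ⟨h1, h2⟩ := hE2 e hx.1
      refine ⟨?_, fun Q hQ hle => ?_⟩
      · refine le_mul_of_cop (cop_of fun Q hQ h3 h4 => ?_) h1 (le_pow_od hI hP (by omega))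
        have h5 : P ≤ Q := by
          rcases Nat.eq_zero_or_pos i with h | h
          · rw [h, pow_zero, Ideal.one_eq_top] at h4
            exact absurd (top_le_iff.1 h4) hQ.ne_top
          · exact hQ.le_of_pow_le h4
        rw [← eq_of_le hPp hP0 hQ h5] at h3
        exact hne e hx.1 h3
      · rcases (Ideal.IsPrime.mul_le hQ).1 hle with h | h
        · exact Finset.mem_insert_of_mem (h2 Q hQ h)
        · have h5 : P ≤ Q := by
            rcases Nat.eq_zero_or_pos i with h' | h'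
            · simp only [h', pow_zero, Ideal.one_eq_top] at h
              exact absurd (top_le_iff.1 h) hQ.ne_top
            · exact hQ.le_of_pow_le h
          rw [← eq_of_le hPp hP0 hQ h5]
          exact Finset.mem_insert_self _ _

open Classical in
/-- the divisors made of the primes with `Q` -/
theorem dvs {I : Ideal (𝓞 K)} (hI : I ≠ ⊥) (Q : Ideal (𝓞 K) → Prop) :
    ∃ E : Finset (Ideal (𝓞 K)), ∏ P ∈ (pf I).filter Q, (od P I + 1) ≤ E.card ∧
      ∀ e ∈ E, I ≤ e ∧ ∀ P : Ideal (𝓞 K), P.IsPrime → e ≤ P → Q P := by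
  obtain ⟨E, h1, h2⟩ := dvs_aux hI ((pf I).filter Q) (Finset.filter_subset _ _)
  exact ⟨E, h1, fun e he => ⟨(h2 e he).1, fun P hP hle => (Finset.mem_filter.1 ((h2 e he).2 P hP hle)).2⟩⟩

end H37.DG
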