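import Pool.Agent.H37.DG.Nrm
import Pool.Agent.H37.DG.Fb

/-!
# Deg2 (T3, MP_b39724): the number of `(u, v)` of one normalised block
-/

set_option autoImplicit false

open scoped NumberField
open NumberField H88.A4 Pool.Agent.H67.WA H88.WS

noncomputable section

namespace H37.DG

private theorem nd_real {C s t k b1 b2 b3 D w x Q : ℝ} (hC : 1 ≤ C) (ht : 0 < t) (hs : 0 < s)
    (hCt : 1 ≤ C * t) (hb1 : 0 < b1) (hb2 : 0 ≤ b2) (_hb3 : 0 ≤ b3) (_hk : 0 < k) (hw : 0 < w)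
    (hx : 0 < x) (hwC : w ≤ C) (hxC : x ≤ C) (hwe : b1 * k = w * (s * t)) (hxe : D = x * s ^ 2)
    (k1 : t ^ 3 ≤ C * k) (k2 : k ≤ C * t ^ 3) (h2 : b2 ≤ C * b1) (h3 : b1 * b3 ≤ D + b2 ^ 2)
    (hQ : 20 * C ^ 12 * (2 + t) ^ 2 * (w⁻¹) ^ 2 * x⁻¹ ≤ Q) :
    1 ≤ Real.log Q ∧ b1 ≤ Q * s ∧ b2 ≤ Q * s ∧ b3 ≤ Q * s ∧ k ≤ Q * t ∧ Q⁻¹ * s ^ 2 ≤ D ∧
      Q⁻¹ * (s * t) ^ 2 ≤ (b1 * k) ^ 2 := by
  obtain ⟨y, hy⟩ : ∃ y : ℝ, y = w⁻¹ := ⟨_, rfl⟩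
  obtain ⟨z, hz⟩ : ∃ z : ℝ, z = x⁻¹ := ⟨_, rfl⟩
  have hy0 : 0 < y := by rw [hy]; positivity
  have hz0 : 0 < z := by rw [hz]; positivity
  have hwy : w * y = 1 := by rw [hy]; exact mul_inv_cancel₀ hw.ne'
  have hxz : x * z = 1 := by rw [hz]; exact mul_inv_cancel₀ hx.ne'
  have hCy : 1 ≤ C * y := by
    rw [← hwy]
    exact mul_le_mul_of_nonneg_right hwC hy0.le
  have hCz : 1 ≤ C * z := by
    rw [← hxz]
    exact mul_le_mul_of_nonneg_right hxC hz0.le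
  rw [← hy, ← hz] at hQ
  obtain ⟨T, hT⟩ : ∃ T : ℝ, T = (2 + t) ^ 2 := ⟨_, rfl⟩
  have hT1 : 4 ≤ T := by rw [hT]; nlinarith
  have hTt : t ^ 2 ≤ T := by rw [hT]; nlinarith
  rw [← hT] at hQ
  obtain ⟨P0, hP0⟩ : ∃ P0 : ℝ, P0 = C ^ 12 * T * y ^ 2 * z := ⟨_, rfl⟩
  have hC0 : 0 < C := by linarith
  have hQP : 20 * P0 ≤ Q := by
    rw [hP0]
    calc 20 * (C ^ 12 * T * y ^ 2 * z) = 20 * C ^ 12 * T * y ^ 2 * z := by ring
      _ ≤ Q := hQ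
  have hyz : 1 ≤ (C * y) ^ 2 * (C * z) :=
    one_le_mul_of_one_le_of_one_le (one_le_pow₀ hCy) hCz
  have hyz2 : 1 ≤ (C * y) * (C * z) := one_le_mul_of_one_le_of_one_le hCy hCz
  have f1 : C ^ 9 * T ≤ P0 := by
    calc C ^ 9 * T ≤ C ^ 9 * T * ((C * y) ^ 2 * (C * z)) :=
          le_mul_of_one_le_right (by positivity) hyz
      _ = P0 := by rw [hP0]; ring
  have f2 : C ^ 10 * T * y ≤ P0 := by
    calc C ^ 10 * T * y ≤ C ^ 10 * T * y * ((C * y) * (C * z)) :=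
          le_mul_of_one_le_right (by positivity) hyz2
      _ = P0 := by rw [hP0]; ring
  have hCp : ∀ n : ℕ, 1 ≤ C ^ n := fun n => one_le_pow₀ hC
  have f3 : z ≤ P0 := by
    have h1 : 1 ≤ C ^ 10 * T * (C * y) ^ 2 :=
      one_le_mul_of_one_le_of_one_le (one_le_mul_of_one_le_of_one_le (hCp 10) (by linarith))
        (one_le_pow₀ hCy)
    calc z ≤ z * (C ^ 10 * T * (C * y) ^ 2) := le_mul_of_one_le_right hz0.le h1
      _ = P0 := by rw [hP0]; ring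
  have f4 : y ^ 2 ≤ P0 := by
    have h1 : 1 ≤ C ^ 11 * T * (C * z) :=
      one_le_mul_of_one_le_of_one_le (one_le_mul_of_one_le_of_one_le (hCp 11) (by linarith)) hCz
    calc y ^ 2 ≤ y ^ 2 * (C ^ 11 * T * (C * z)) := le_mul_of_one_le_right (by positivity) h1
      _ = P0 := by rw [hP0]; ring
  have hP4 : 4 ≤ P0 := by
    refine le_trans ?_ f1
    calc (4 : ℝ) ≤ T := hT1
      _ ≤ C ^ 9 * T := le_mul_of_one_le_left (by linarith) (hCp 9)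
  have hPQ : P0 ≤ Q := by linarith
  have hQ0 : 0 < Q := by linarith
  -- `b1`
  have g1 : b1 * t ^ 2 ≤ C ^ 2 * s := by
    have h4 : b1 * t ^ 3 ≤ C * (w * (s * t)) := by
      calc b1 * t ^ 3 ≤ b1 * (C * k) := mul_le_mul_of_nonneg_left k1 hb1.le
        _ = C * (b1 * k) := by ring
        _ = _ := by rw [hwe]
    have h5 : C * (w * (s * t)) ≤ C * (C * (s * t)) :=
      mul_le_mul_of_nonneg_left (mul_le_mul_of_nonneg_right hwC (by positivity)) hC0.le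
    have h6 : (b1 * t ^ 2) * t ≤ (C ^ 2 * s) * t := by
      calc (b1 * t ^ 2) * t = b1 * t ^ 3 := by ring
        _ ≤ _ := h4.trans h5
        _ = _ := by ring
    exact le_of_mul_le_mul_right h6 ht
  have g2 : b1 ≤ C ^ 4 * s := by
    have h4 : 1 ≤ (C * t) ^ 2 := one_le_pow₀ hCt
    calc b1 ≤ b1 * (C * t) ^ 2 := le_mul_of_one_le_right hb1.le h4
      _ = C ^ 2 * (b1 * t ^ 2) := by ring
      _ ≤ C ^ 2 * (C ^ 2 * s) := mul_le_mul_of_nonneg_left g1 (by positivity)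
      _ = _ := by ring
  have hle : ∀ n : ℕ, n ≤ 9 → C ^ n ≤ P0 := fun n hn => by
    refine le_trans ?_ f1
    calc C ^ n ≤ C ^ 9 := pow_le_pow_right₀ hC hn
      _ ≤ C ^ 9 * T := le_mul_of_one_le_right (by positivity) (by linarith)
  have g3 : b2 ≤ C ^ 5 * s := by
    calc b2 ≤ C * b1 := h2
      _ ≤ C * (C ^ 4 * s) := mul_le_mul_of_nonneg_left g2 hC0.le
      _ = _ := by ring
  -- `b3`
  have g4 : b3 ≤ (C ^ 2 * t ^ 2 * y + C ^ 6) * s := by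
    have h4 : s ≤ b1 * (C * t ^ 2 * y) := by
      have h5 : w * (s * t) ≤ b1 * (C * t ^ 3) := by
        rw [← hwe]
        exact mul_le_mul_of_nonneg_left k2 hb1.le
      have h6 : (s) * t ≤ (b1 * (C * t ^ 2 * y)) * t := by
        calc s * t = (w * (s * t)) * y := by linear_combination (-(s * t)) * hwy
          _ ≤ (b1 * (C * t ^ 3)) * y := mul_le_mul_of_nonneg_right h5 hy0.le
          _ = _ := by ring
      exact le_of_mul_le_mul_right h6 ht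
    have h7 : b1 * b3 ≤ b1 * ((C ^ 2 * t ^ 2 * y + C ^ 6) * s) := by
      calc b1 * b3 ≤ D + b2 ^ 2 := h3
        _ ≤ C * s ^ 2 + (C * b1) ^ 2 := by
            refine add_le_add ?_ (pow_le_pow_left₀ hb2 h2 2)
            rw [hxe]
            exact mul_le_mul_of_nonneg_right hxC (by positivity)
        _ = C * s * s + C ^ 2 * b1 * b1 := by ring
        _ ≤ C * s * (b1 * (C * t ^ 2 * y)) + C ^ 2 * b1 * (C ^ 4 * s) :=
            add_le_add (mul_le_mul_of_nonneg_left h4 (by positivity))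
              (mul_le_mul_of_nonneg_left g2 (by positivity))
        _ = _ := by ring
    exact le_of_mul_le_mul_left h7 hb1
  refine ⟨?_, ?_, ?_, ?_, ?_, ?_, ?_⟩
  · rw [← Real.log_exp 1]
    apply Real.log_le_log (Real.exp_pos 1)
    have := Real.exp_one_lt_d9
    linarith
  · exact g2.trans (mul_le_mul_of_nonneg_right ((hle 4 (by norm_num)).trans hPQ) hs.le)
  · exact g3.trans (mul_le_mul_of_nonneg_right ((hle 5 (by norm_num)).trans hPQ) hs.le)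
  · refine g4.trans (mul_le_mul_of_nonneg_right ?_ hs.le)
    have h5 := hle 6 (by norm_num)
    have h6 : C ^ 2 * t ^ 2 * y ≤ P0 := by
      refine le_trans ?_ f2
      refine mul_le_mul_of_nonneg_right (mul_le_mul (pow_le_pow_right₀ hC (by norm_num)) hTt
        (by positivity) (by positivity)) hy0.le
    linarith
  · have h5 : C * t ^ 2 ≤ P0 := by
      refine le_trans ?_ f1
      refine mul_le_mul ?_ hTt (by positivity) (by positivity)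
      exact le_self_pow₀ hC (by norm_num)
    calc k ≤ C * t ^ 3 := k2
      _ = (C * t ^ 2) * t := by ring
      _ ≤ Q * t := mul_le_mul_of_nonneg_right (h5.trans hPQ) ht.le
  · rw [inv_mul_le_iff₀ hQ0]
    calc s ^ 2 = z * D := by rw [hxe]; linear_combination (-(s ^ 2)) * hxz
      _ ≤ Q * D := mul_le_mul_of_nonneg_right (f3.trans hPQ) (by rw [hxe]; positivity)
  · rw [inv_mul_le_iff₀ hQ0, hwe]
    calc (s * t) ^ 2 = y ^ 2 * (w * (s * t)) ^ 2 := by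
          linear_combination (-(s * t) ^ 2 * (w * y + 1)) * hwy
      _ ≤ Q * (w * (s * t)) ^ 2 := mul_le_mul_of_nonneg_right (f4.trans hPQ) (by positivity)

variable {K : Type} [Field K] [NumberField K]

/-- `|b1 k| / (s t)` -/
def wq (s t : ℝ) (k b : 𝓞 K) (φ : K →+* ℂ) : ℝ := sz φ (b * k) / (s * t)

/-- `|D1| / s ^ 2` -/
def xq (s : ℝ) (D : 𝓞 K) (φ : K →+* ℂ) : ℝ := sz φ D / s ^ 2

/-- `∏ f ^ (-a)` -/
def pw (a : ℝ) (f : (K →+* ℂ) → ℝ) : ℝ := ∏ φ, f φ ^ (-a)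

theorem pw_pos (a : ℝ) {f : (K →+* ℂ) → ℝ} (hf : ∀ φ, 0 < f φ) : 0 < pw a f :=
  Finset.prod_pos fun φ _ => Real.rpow_pos_of_pos (hf φ) _

theorem pw_add (a b : ℝ) {f : (K →+* ℂ) → ℝ} (hf : ∀ φ, 0 < f φ) :
    pw a f * pw b f = pw (a + b) f := by
  unfold pw
  rw [← Finset.prod_mul_distrib]
  refine Finset.prod_congr rfl fun φ _ => ?_
  rw [← Real.rpow_add (hf φ)]
  congr 1
  ring

theorem pw_anti {a : ℝ} (ha : 0 ≤ a) {f g : (K →+* ℂ) → ℝ} (hf : ∀ φ, 0 < f φ)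
    (h : ∀ φ, f φ ≤ g φ) : pw a g ≤ pw a f :=
  Finset.prod_le_prod (fun φ _ => Real.rpow_nonneg ((hf φ).le.trans (h φ)) _) fun φ _ =>
    Real.rpow_le_rpow_of_nonpos (hf φ) (h φ) (by linarith)

theorem one_le_pw {a C : ℝ} (ha : 0 ≤ a) (hC : 0 < C) {f : (K →+* ℂ) → ℝ} (hf : ∀ φ, 0 < f φ)
    (h : ∀ φ, f φ ≤ C) : 1 ≤ (C ^ a) ^ Module.finrank ℚ K * pw a f := by
  have h1 : pw a (fun _ : K →+* ℂ => C) ≤ pw a f := pw_anti ha hf h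
  have h2 : pw a (fun _ : K →+* ℂ => C) = (C ^ (-a)) ^ Module.finrank ℚ K := by
    unfold pw
    exact vol_const (K := K) (C ^ (-a))
  rw [h2] at h1
  calc (1 : ℝ) = (C ^ a) ^ Module.finrank ℚ K * (C ^ (-a)) ^ Module.finrank ℚ K := by
        rw [← mul_pow, ← Real.rpow_add hC, add_neg_cancel, Real.rpow_zero, one_pow]
    _ ≤ _ := mul_le_mul_of_nonneg_left h1 (by positivity)

private theorem prod_c (c : ℝ) (f g : (K →+* ℂ) → ℝ) :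
    ∏ φ, (c * (f φ * g φ)) = c ^ Module.finrank ℚ K * ((∏ φ, f φ) * ∏ φ, g φ) := by
  rw [Finset.prod_mul_distrib, Finset.prod_mul_distrib, Finset.prod_const, Finset.card_univ,
    NumberField.Embeddings.card]

theorem wgt (hc : Com0Stmt K) {M : ℕ} (hM : M ≠ 0) : ∃ m : ℕ, m ≠ 0 ∧
    ∀ C C1 δ : ℝ, 1 ≤ C → 1 ≤ C1 → 0 < δ → ∃ C' : ℝ, 0 < C' ∧
    ∀ s t H : ℝ, Rg C1 s t → s ≤ H → 1 ≤ H → ∀ β : Blk (𝓞 K), Nb C1 s t β → β.All (Bd H) →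
      ∃ gb gc : Ideal (𝓞 K), Squarefree gb ∧ Squarefree gc ∧ IsCoprime gb gc ∧
        (β.b1 ∈ gb ∧ β.b2 ∈ gb ∧ β.b3 ∈ gb) ∧ (β.c3 ∈ gc ∧ β.D1 ∈ gc) ∧
        ∀ S : Finset (𝓞 K × 𝓞 K), (∀ x ∈ S, Adm M C s t x.1 x.2 ∧ Rep H β x.1 x.2) →
          (S.card : ℝ) ≤ C' * Fc0 m β.c3 (gb * gc) (-(β.b1 * β.c3) ^ 2) *
            ((2 + t) ^ (2 * δ)) ^ Module.finrank ℚ K * (ni gb * ni gc) *
            (pw δ (xq s β.D1) * pw (3 / 2 + 2 * δ) (wq s t β.c3 β.b1)) ∧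
          (S.card : ℝ) ≤ C' * Fc0 m β.c3 (gb * gc) (-(β.b1 * β.c3) ^ 2) *
            ((2 + t) ^ (2 * δ)) ^ Module.finrank ℚ K * (ni gb * ni gc) *
            (pw (3 / 4 + δ) (xq s β.D1) * pw (3 / 4 + 2 * δ) (wq s t β.c3 β.b1)) := by
  obtain ⟨m, hm, -, hcom⟩ := hc M hM
  refine ⟨m, hm, fun C C1 δ hC hC1 hδ => ?_⟩
  obtain ⟨C0, hC0, hco⟩ := hcom C hC
  obtain ⟨d, hd⟩ : ∃ d : ℕ, d = Module.finrank ℚ K := ⟨_, rfl⟩
  obtain ⟨C3, hC3⟩ : ∃ C3 : ℝ, C3 = 20 * C1 ^ 12 := ⟨_, rfl⟩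
  have hC10 : 0 < C1 := by linarith
  have hC30 : 0 < C3 := by rw [hC3]; positivity
  obtain ⟨K1, hK1⟩ : ∃ K1 : ℝ, K1 = (C1 ^ (3 / 2 : ℝ)) ^ d := ⟨_, rfl⟩
  have hK10 : 0 < K1 := by rw [hK1]; positivity
  refine ⟨C0 * (δ⁻¹ * C3 ^ δ) ^ d * (K1 + 1), by positivity, fun s t H hRg hsH hH β hN hall => ?_⟩
  obtain ⟨ht, hs⟩ := pos_of_rg hC1 hRg
  obtain ⟨hCt, hts⟩ := hRg
  have hst : 0 < s * t := mul_pos hs ht
  have hbk0 : β.b1 * β.c3 ≠ 0 := mul_ne_zero hN.b1 hN.c3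
  have hD2 : β.D2 = β.b1 * β.c3 := by
    unfold Blk.D2
    rw [hN.c1, hN.c2]
    ring
  have hD3 : β.D3 = 0 := by
    unfold Blk.D3
    rw [hN.c1, hN.c2]
    ring
  have hE : β.E = -(β.b1 * β.c3) ^ 2 := by
    unfold Blk.E
    rw [hD2, hD3]
    ring
  have hE0 : β.E ≠ 0 := by
    rw [hE, neg_ne_zero]
    exact pow_ne_zero 2 hbk0
  obtain ⟨w, hw⟩ : ∃ w : (K →+* ℂ) → ℝ, w = wq s t β.c3 β.b1 := ⟨_, rfl⟩
  obtain ⟨x, hx⟩ : ∃ x : (K →+* ℂ) → ℝ, x = xq s β.D1 := ⟨_, rfl⟩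
  have hw0 : ∀ φ, 0 < w φ := fun φ => by rw [hw]; exact div_pos (sz_pos φ hbk0) hst
  have hx0 : ∀ φ, 0 < x φ := fun φ => by rw [hx]; exact div_pos (sz_pos φ hN.d1) (by positivity)
  have hwC : ∀ φ, w φ ≤ C1 := fun φ => by
    rw [hw]
    unfold wq
    rw [div_le_iff₀ hst]
    exact hN.bk φ
  have hxC : ∀ φ, x φ ≤ C1 := fun φ => by
    rw [hx]
    unfold xq
    rw [div_le_iff₀ (by positivity)]
    exact hN.d1s φ
  obtain ⟨gb, gc, hgb, hgc, hcop, hgbm, hgcm, hmain⟩ :=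
    hco s t H hs ht hsH (hts.trans hsH) hH β hN.c1 hN.c2 hE0 hN.d1 hall
  refine ⟨gb, gc, hgb, hgc, hcop, hgbm, hgcm, fun S hS => ?_⟩
  obtain ⟨Q, hQ⟩ : ∃ Q : (K →+* ℂ) → ℝ, Q = fun φ =>
    C3 * (2 + t) ^ 2 * ((w φ)⁻¹) ^ 2 * (x φ)⁻¹ := ⟨_, rfl⟩
  have hreal : ∀ φ : K →+* ℂ, 1 ≤ Real.log (Q φ) ∧ sz φ β.b1 ≤ Q φ * s ∧ sz φ β.b2 ≤ Q φ * s ∧
      sz φ β.b3 ≤ Q φ * s ∧ sz φ β.c3 ≤ Q φ * t ∧ (Q φ)⁻¹ * s ^ 2 ≤ sz φ β.D1 ∧
      (Q φ)⁻¹ * (s * t) ^ 2 ≤ (sz φ β.b1 * sz φ β.c3) ^ 2 := by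
    intro φ
    refine nd_real hC1 ht hs hCt (sz_pos φ hN.b1) (sz_nonneg φ _) (sz_nonneg φ _)
      (sz_pos φ hN.c3) (hw0 φ) (hx0 φ) (hwC φ) (hxC φ) ?_ ?_ (hN.k1 φ) (hN.k2 φ) (hN.b2s φ) ?_ ?_
    · rw [hw]
      unfold wq
      rw [div_mul_cancel₀ _ hst.ne', sz_mul]
    · rw [hx]
      unfold xq
      rw [div_mul_cancel₀ _ (by positivity)]
    · rw [← sz_mul, ← sz_pow]
      have h1 : β.b1 * β.b3 = β.D1 + β.b2 ^ 2 := by
        unfold Blk.D1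
        ring
      rw [h1]
      exact sz_add _ _ _
    · rw [hQ, hC3]
  have hQ0 : ∀ φ, 0 < Q φ := fun φ => by
    have h1 := hw0 φ
    have h2 := hx0 φ
    rw [hQ]
    positivity
  have hΛ : ∀ φ, 1 ≤ Real.log (Q φ) ∧
      (1 + Real.log H ≤ Real.log (Q φ) ∨ Nd s t (Real.log (Q φ)) β φ) := by
    intro φ
    obtain ⟨r0, r1, r2, r3, r4, r5, r6⟩ := hreal φ
    refine ⟨r0, Or.inr ?_⟩
    unfold Nd
    rw [Real.exp_neg, Real.exp_log (hQ0 φ), hN.c1, hN.c2, sz_zero, hE, hD2, hD3, sz_neg,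
      mul_zero, mul_zero, sub_zero, sz_pow, sz_mul]
    exact ⟨⟨r1, r2, r3⟩, ⟨by have := hQ0 φ; positivity, by have := hQ0 φ; positivity, r4⟩, r5, r6, r6⟩
  have h1 := hmain (fun φ => Real.log (Q φ)) hΛ S hS
  rw [hE] at h1
  -- the product of the logarithms
  have h2 : ∏ φ, Real.log (Q φ) ≤ (δ⁻¹ * C3 ^ δ) ^ d * ((2 + t) ^ (2 * δ)) ^ d *
      (pw (2 * δ) w * pw δ x) := by
    have h3 : ∀ φ, Real.log (Q φ) ≤ (δ⁻¹ * C3 ^ δ * (2 + t) ^ (2 * δ)) *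
        (w φ ^ (-(2 * δ)) * x φ ^ (-δ)) := by
      intro φ
      have h4 := Real.log_le_rpow_div (hQ0 φ).le hδ
      refine h4.trans (le_of_eq ?_)
      rw [hQ]
      simp only
      have hw1 := hw0 φ
      have hx1 := hx0 φ
      rw [Real.mul_rpow (by positivity) (by positivity), Real.mul_rpow (by positivity) (by positivity),
        Real.mul_rpow (by positivity) (by positivity), ← Real.rpow_natCast (2 + t) 2,
        ← Real.rpow_mul (by positivity), ← Real.rpow_natCast ((w φ)⁻¹) 2,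
        ← Real.rpow_mul (by positivity), Real.inv_rpow hw1.le, Real.inv_rpow hx1.le,
        Real.rpow_neg hw1.le, Real.rpow_neg hx1.le]
      push_cast
      ring
    have h4 : ∏ φ, Real.log (Q φ) ≤ ∏ φ : K →+* ℂ, ((δ⁻¹ * C3 ^ δ * (2 + t) ^ (2 * δ)) *
        (w φ ^ (-(2 * δ)) * x φ ^ (-δ))) :=
      Finset.prod_le_prod (fun φ _ => zero_le_one.trans (hreal φ).1) fun φ _ => h3 φ
    refine h4.trans (le_of_eq ?_)
    rw [prod_c (δ⁻¹ * C3 ^ δ * (2 + t) ^ (2 * δ)) (fun φ => w φ ^ (-(2 * δ))) (fun φ => x φ ^ (-δ)),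
      ← hd, mul_pow]
    rfl
  have hgb0 : gb ≠ ⊥ := hgb.ne_zero
  have hgc0 : gc ≠ ⊥ := hgc.ne_zero
  have hNg : 1 ≤ ni gb * ni gc := one_le_mul_of_one_le_of_one_le (one_le_ni hgb0) (one_le_ni hgc0)
  have hDt : ∀ φ, Dt s t β φ = max (x φ) (max (w φ) 0) := by
    intro φ
    unfold Dt
    rw [hD2, hD3, hw, hx]
    have : ‖φ (((0 : 𝓞 K) : K))‖ = 0 := by simp
    rw [this, zero_div]
    rfl
  have hDx : ∀ φ, x φ ≤ Dt s t β φ := fun φ => by rw [hDt]; exact le_max_left _ _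
  have hDw : ∀ φ, w φ ≤ Dt s t β φ := fun φ => by
    rw [hDt]
    exact (le_max_left _ _).trans (le_max_right _ _)
  have hDC : ∀ φ, Dt s t β φ ≤ C1 := fun φ => by
    rw [hDt]
    exact max_le (hxC φ) (max_le (hwC φ) hC10.le)
  have hD0 : ∀ φ, 0 < Dt s t β φ := fun φ => (hx0 φ).trans_le (hDx φ)
  have hPd : ∏ φ : K →+* ℂ, Dt s t β φ ^ (-(3 / 2) : ℝ) = pw (3 / 2) (Dt s t β) := rfl
  have hone : 1 ≤ K1 * pw (3 / 2) (Dt s t β) := by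
    have := one_le_pw (by norm_num : (0 : ℝ) ≤ 3 / 2) hC10 hD0 hDC
    rw [hK1, hd]
    exact this
  have hp0 : 0 < pw (3 / 2) (Dt s t β) := pw_pos _ hD0
  have h5 : 1 + ni gb * ni gc * ∏ φ : K →+* ℂ, Dt s t β φ ^ (-(3 / 2) : ℝ) ≤
      (K1 + 1) * (ni gb * ni gc) * pw (3 / 2) (Dt s t β) := by
    rw [hPd]
    have h6 : 1 ≤ (ni gb * ni gc) * (K1 * pw (3 / 2) (Dt s t β)) :=
      one_le_mul_of_one_le_of_one_le hNg hone
    calc 1 + ni gb * ni gc * pw (3 / 2) (Dt s t β)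
        ≤ (ni gb * ni gc) * (K1 * pw (3 / 2) (Dt s t β)) +
          ni gb * ni gc * pw (3 / 2) (Dt s t β) := add_le_add h6 le_rfl
      _ = _ := by ring
  have hw2 : 0 < pw (2 * δ) w := pw_pos _ hw0
  have hx2 : 0 < pw δ x := pw_pos _ hx0
  have hF : (0 : ℝ) ≤ Fc0 m β.c3 (gb * gc) (-(β.b1 * β.c3) ^ 2) := Nat.cast_nonneg _
  have h6 : (S.card : ℝ) ≤ C0 * Fc0 m β.c3 (gb * gc) (-(β.b1 * β.c3) ^ 2) *
      ((δ⁻¹ * C3 ^ δ) ^ d * ((2 + t) ^ (2 * δ)) ^ d * (pw (2 * δ) w * pw δ x)) *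
      ((K1 + 1) * (ni gb * ni gc) * pw (3 / 2) (Dt s t β)) := by
    refine h1.trans ?_
    refine mul_le_mul (mul_le_mul_of_nonneg_left h2 (by positivity)) h5 ?_ (by positivity)
    rw [hPd]
    positivity
  have h7 : ∀ p : ℝ, pw (3 / 2) (Dt s t β) ≤ p → (S.card : ℝ) ≤
      C0 * (δ⁻¹ * C3 ^ δ) ^ d * (K1 + 1) * Fc0 m β.c3 (gb * gc) (-(β.b1 * β.c3) ^ 2) *
            ((2 + t) ^ (2 * δ)) ^ d * (ni gb * ni gc) * (pw (2 * δ) w * pw δ x * p) := by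
    intro p hp
    refine h6.trans ?_
    have h8 : 0 ≤ ni gb * ni gc := by linarith
    calc C0 * Fc0 m β.c3 (gb * gc) (-(β.b1 * β.c3) ^ 2) *
        ((δ⁻¹ * C3 ^ δ) ^ d * ((2 + t) ^ (2 * δ)) ^ d * (pw (2 * δ) w * pw δ x)) *
        ((K1 + 1) * (ni gb * ni gc) * pw (3 / 2) (Dt s t β))
        ≤ C0 * Fc0 m β.c3 (gb * gc) (-(β.b1 * β.c3) ^ 2) *
        ((δ⁻¹ * C3 ^ δ) ^ d * ((2 + t) ^ (2 * δ)) ^ d * (pw (2 * δ) w * pw δ x)) *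
        ((K1 + 1) * (ni gb * ni gc) * p) := by gcongr
      _ = _ := by ring
  rw [← hd, ← hw, ← hx]
  constructor
  · refine (h7 (pw (3 / 2) w) (pw_anti (by norm_num) hw0 hDw)).trans (le_of_eq ?_)
    rw [← pw_add (3 / 2) (2 * δ) hw0]
    ring
  · have h9 : pw (3 / 2) (Dt s t β) ≤ pw (3 / 4) x * pw (3 / 4) w := by
      have e1 : (3 / 2 : ℝ) = 3 / 4 + 3 / 4 := by norm_num
      rw [e1, ← pw_add (3 / 4) (3 / 4) hD0]
      exact mul_le_mul (pw_anti (by norm_num) hx0 hDx) (pw_anti (by norm_num) hw0 hDw)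
        (pw_pos _ hD0).le (pw_pos _ hx0).le
    refine (h7 _ h9).trans (le_of_eq ?_)
    rw [← pw_add (3 / 4) (2 * δ) hw0, ← pw_add (3 / 4) δ hx0]
    ring

end H37.DG
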